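import Pool.Agent.PAM.Defs
import Pool.Agent.PAL.Inert

/-!
# PAM/Amalg (module PAM-Amalg): relation rows of an amalgam

Apply `inert` (`PAL/Inert.lean`) to `B`, `A` and the data `z`, `X` of `B`: it gives a basis `c : Fin t → G` of
`B ⊓ A = B ⊓ A'`, Fox derivatives `JB` of the `c l` with respect to `z`, and: `v' X = v'' JB` implies `v' = 0`,
`v'' = 0` for square summable vectors.  Let `JA'` be Fox derivatives of the `c l` with respect to the generators
`z'` of `A'` (`exists_fund`).  The generators of `H` are `z, z'`, the rows are `(X, 0)`, `(JB, - JA')`, `(0, X')`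
(`hasPD_of`).
-/

set_option autoImplicit false

open PFC PAL

namespace PAM

theorem pd_amalg {G : Type} [Group G] {r : ℕ} (x : Fin r → G) (hx : PRT.Para x)
    (hres : ∀ p : ℕ, p.Prime → ResQ p G) (H B A' A : Subgroup G) {N ρ N' ρ' : ℕ}
    (hB : HasPD B N ρ) (hA' : HasPD A' N' ρ') (hA : HomInj A) (hC : B ⊓ A = B ⊓ A')
    (hH : B ⊔ A' = H) :
    ∃ (t : ℕ) (c : Fin t → G), Subgroup.closure (Set.range c) = B ⊓ A' ∧
      Function.Injective (FreeGroup.lift c) ∧ HasPD H (N + N') (ρ + t + ρ') := by
  obtain ⟨z, X, hz⟩ := hB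
  obtain ⟨z', X', hz'⟩ := hA'
  obtain ⟨s, t, a, c, JB, JA, -, -, hccl, hcinj, hJB, hsB, -, -, -, hinj⟩ :=
    inert x hx hres B A z hz.gen X hz.rel hz.supp hz.inj hA.1 hA.2.1 hA.2.2
  have hc : ∀ l, c l ∈ B ⊓ A' := by
    intro l
    rw [← hC, ← hccl]
    exact Subgroup.subset_closure ⟨l, rfl⟩
  choose J hJ hsJ using fun l => exists_fund z' A' hz'.gen (c l) (hc l).2
  refine ⟨t, c, hccl.trans hC, hcinj, ?_⟩
  have hBH : B ≤ H := hH ▸ le_sup_left
  have hAH : A' ≤ H := hH ▸ le_sup_right
  have hmono : ∀ {K L : Subgroup G} (_ : K ≤ L) {f : GR G}, InSub K f → InSub L f :=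
    fun hKL f hf g hg => hKL (hf g hg)
  let Z : Fin N ⊕ Fin N' → G := Sum.elim z z'
  let Y : (Fin ρ ⊕ Fin t) ⊕ Fin ρ' → Fin N ⊕ Fin N' → GR G :=
    Sum.elim (Sum.elim (fun i => Sum.elim (X i) fun _ => 0)
      fun l => Sum.elim (JB l) fun ν => - J l ν) fun i => Sum.elim (fun _ => 0) (X' i)
  have key : PD H Z Y := by
    refine ⟨?_, ?_, ?_, ?_⟩
    · show Subgroup.closure (Set.range (Sum.elim z z')) = H
      rw [Set.Sum.elim_range, Subgroup.closure_union, hz.gen, hz'.gen, hH]
    · rintro ((i | l) | i)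
      · rw [Fintype.sum_sum_type]
        show ∑ ν, X i ν * (el (z ν) - 1) + ∑ ν : Fin N', (0 : GR G) * (el (z' ν) - 1) = 0
        rw [hz.rel i]
        simp
      · rw [Fintype.sum_sum_type]
        show ∑ ν, JB l ν * (el (z ν) - 1) + ∑ ν : Fin N', (- J l ν) * (el (z' ν) - 1) = 0
        have h1 : el (c l) - 1 = ∑ ν, JB l ν * (el (z ν) - 1) := hJB l
        have h2 : el (c l) - 1 = ∑ ν, J l ν * (el (z' ν) - 1) := hJ l
        simp only [neg_mul, Finset.sum_neg_distrib]
        rw [← h1, ← h2, add_neg_cancel]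
      · rw [Fintype.sum_sum_type]
        show ∑ ν : Fin N, (0 : GR G) * (el (z ν) - 1) + ∑ ν, X' i ν * (el (z' ν) - 1) = 0
        rw [hz'.rel i]
        simp
    · rintro ((i | l) | i) (ν | ν)
      · exact hmono hBH (hz.supp i ν)
      · exact inSub_zero H
      · exact hmono hBH (hsB l ν)
      · exact hmono hAH (inSub_neg (hsJ l ν))
      · exact inSub_zero H
      · exact hmono hAH (hz'.supp i ν)
    · intro v hv h0
      have h1 := hinj (Sum.elim (fun i => v (Sum.inl (Sum.inl i)))
        fun l y => - v (Sum.inl (Sum.inr l)) y) ?_ ?_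
      · have h2 : ∀ i, v (Sum.inl (Sum.inl i)) = 0 := fun i => congrFun h1 (Sum.inl i)
        have h3 : ∀ l, v (Sum.inl (Sum.inr l)) = 0 := by
          intro l
          have h4 := congrFun h1 (Sum.inr l)
          funext y
          have h5 : - v (Sum.inl (Sum.inr l)) y = 0 := congrFun h4 y
          exact neg_eq_zero.1 h5
        have h4 : (fun i => v (Sum.inr i)) = 0 := by
          refine hz'.inj _ (fun i => hv _) fun ν y => ?_
          have h5 := h0 (Sum.inr ν) y
          rw [Fintype.sum_sum_type, Fintype.sum_sum_type] at h5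
          have h6 : ∑ i, ra (v (Sum.inl (Sum.inl i))) (Y (Sum.inl (Sum.inl i)) (Sum.inr ν)) y = 0 := by
            refine Finset.sum_eq_zero fun i _ => ?_
            rw [h2 i]
            exact ra_zero_left _ _
          have h7 : ∑ i, ra (v (Sum.inl (Sum.inr i))) (Y (Sum.inl (Sum.inr i)) (Sum.inr ν)) y = 0 := by
            refine Finset.sum_eq_zero fun i _ => ?_
            rw [h3 i]
            exact ra_zero_left _ _
          rw [h6, h7, zero_add, zero_add] at h5
          exact h5
        funext i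
        rcases i with (i | l) | i
        · exact h2 i
        · exact h3 l
        · exact congrFun h4 i
      · rintro (i | l)
        · exact hv _
        · have h2 := hv (Sum.inl (Sum.inr l))
          show Summable fun g => (- v (Sum.inl (Sum.inr l)) g) ^ 2
          simp only [neg_sq]
          exact h2
      · intro ν y
        have h2 := h0 (Sum.inl ν) y
        rw [Fintype.sum_sum_type, Fintype.sum_sum_type] at h2
        have h3 : ∑ i, ra (v (Sum.inr i)) (Y (Sum.inr i) (Sum.inl ν)) y = 0 :=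
          Finset.sum_eq_zero fun i _ => ra_zero_right _ _
        rw [h3, add_zero] at h2
        show ∑ i, ra (v (Sum.inl (Sum.inl i))) (X i ν) y =
          ∑ l, ra (fun y => - v (Sum.inl (Sum.inr l)) y) (JB l ν) y
        have h4 : ∀ l, ra (fun y => - v (Sum.inl (Sum.inr l)) y) (JB l ν) y =
          - ra (v (Sum.inl (Sum.inr l))) (JB l ν) y := fun l => ra_neg_left _ _ _
        simp only [h4, Finset.sum_neg_distrib]
        exact eq_neg_of_add_eq_zero_left h2
  have h1 := hasPD_of H Z Y key
  simpa only [Fintype.card_sum, Fintype.card_fin] using h1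

end PAM
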