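import Pool.Agent.PAM.Defs
import Pool.Agent.PAL.ModP

/-!
# PAM/Base (module PAM-Base): relation rows of an arbitrary finitely generated subgroup

`z : Fin N → G` generators of `B`.  Let `R` be the set of all rows `x : Fin N → GR G` supported in `B` with
`∑ x_ν (el z_ν - 1) = 0` (closed under sums and negatives), `V ⊆ (Z/p)^N` the set of the `(eps x_ν)_ν` modulo `p`
(a subspace).  If `t ∈ (Z/p)^N` is orthogonal to `V` then `h(g) = ∑_ν eps(f_ν) t_ν`, where `f` is any family
supported in `B` with `Fund z g f` (`exists_fund`), is a well defined homomorphism `B → Z/p` with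
`h(z_ν) = t_ν`; conversely the values of a homomorphism are orthogonal to `V` (`der_rel` for the module `Z/p` with
trivial action).  So `dim V = N - dim Hom(B, Z/p)`.  Choose `ρ = dim V` rows in `R` whose images are a basis of
`V`; they are independent on square summable vectors by `inj_of_modp`.
-/

set_option autoImplicit false

open PFC PAL

namespace PAM

private theorem Base_const {Q : Type} [Group Q] {p : ℕ} (c : ZMod p) (f : GR Q) :
    PAL.lin (fun _ : Q => c) f = (eps Q f : ZMod p) * c := by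
  let F : GR Q →+ ZMod p := AddMonoidHom.mk' (fun f => (eps Q f : ZMod p) * c) (by
    intro f f'
    rw [map_add, Int.cast_add, add_mul])
  refine (add_ext F (PAL.lin fun _ : Q => c) ?_ f).symm
  intro g
  rw [PAL.lin_el]
  show (eps Q (el g) : ZMod p) * c = c
  rw [eps_el, Int.cast_one, one_mul]

private theorem Base_lin {G : Type} [Group G] {p : ℕ} (B : Subgroup G)
    (h : B →* Multiplicative (ZMod p)) : ∃ D : G → ZMod p,
      (∀ g (hg : g ∈ B), D g = Multiplicative.toAdd (h ⟨g, hg⟩)) ∧ D 1 = 0 ∧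
      ∀ a ∈ B, ∀ x : GR G, InSub B x →
        PAL.lin D (x * (el a - 1)) = (eps G x : ZMod p) * D a := by
  classical
  refine ⟨fun g => if hg : g ∈ B then Multiplicative.toAdd (h ⟨g, hg⟩) else 0,
    fun g hg => dif_pos hg, ?_, ?_⟩
  · have h1 : (if hg : (1 : G) ∈ B then Multiplicative.toAdd (h ⟨1, hg⟩) else 0) =
        Multiplicative.toAdd (h ⟨1, B.one_mem⟩) := dif_pos B.one_mem
    refine h1.trans ?_
    have h2 : h ⟨1, B.one_mem⟩ = 1 := map_one h
    rw [h2, toAdd_one]
  · intro a ha x hx
    rw [lin_mul_sub, ← Base_const]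
    refine lin_congr fun g hg => ?_
    have hgB := hx g hg
    show (if hg : g * a ∈ B then Multiplicative.toAdd (h ⟨g * a, hg⟩) else 0) -
      (if hg : g ∈ B then Multiplicative.toAdd (h ⟨g, hg⟩) else 0) =
      (if hg : a ∈ B then Multiplicative.toAdd (h ⟨a, hg⟩) else 0)
    rw [dif_pos (B.mul_mem hgB ha), dif_pos hgB, dif_pos ha]
    have h2 : h ⟨g * a, B.mul_mem hgB ha⟩ = h ⟨g, hgB⟩ * h ⟨a, ha⟩ := by
      rw [← map_mul]
      rfl
    rw [h2, toAdd_mul, add_sub_cancel_left]

/-- a relation between the generators gives a relation between the values of a homomorphism -/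
private theorem Base_rel {G : Type} [Group G] {p N : ℕ} (B : Subgroup G) (z : Fin N → G)
    (hz : ∀ ν, z ν ∈ B) (h : B →* Multiplicative (ZMod p)) (x : Fin N → GR G)
    (hx : ∀ ν, InSub B (x ν)) (h0 : ∑ ν, x ν * (el (z ν) - 1) = 0) :
    ∑ ν, (eps G (x ν) : ZMod p) * Multiplicative.toAdd (h ⟨z ν, hz ν⟩) = 0 := by
  obtain ⟨D, hD, -, hl⟩ := Base_lin B h
  have h1 := congrArg (PAL.lin D) h0
  rw [map_sum, map_zero] at h1
  rw [← h1]
  refine Finset.sum_congr rfl fun ν _ => ?_
  rw [hl _ (hz ν) _ (hx ν), hD _ (hz ν)]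

private theorem Base_fund {G : Type} [Group G] {p N : ℕ} (B : Subgroup G) (z : Fin N → G)
    (hz : ∀ ν, z ν ∈ B) (h : B →* Multiplicative (ZMod p)) (g : G) (hg : g ∈ B)
    (x : Fin N → GR G) (hx : ∀ ν, InSub B (x ν)) (h0 : Fund z g x) :
    Multiplicative.toAdd (h ⟨g, hg⟩) =
      ∑ ν, (eps G (x ν) : ZMod p) * Multiplicative.toAdd (h ⟨z ν, hz ν⟩) := by
  obtain ⟨D, hD, hD1, hl⟩ := Base_lin B h
  unfold Fund at h0
  have h1 := congrArg (PAL.lin D) h0
  rw [map_sum, map_sub] at h1
  have h2 : PAL.lin D (el g) = Multiplicative.toAdd (h ⟨g, hg⟩) := by rw [PAL.lin_el, hD]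
  have h3 : PAL.lin D (1 : GR G) = 0 := by rw [← el_one, PAL.lin_el, hD1]
  rw [h2, h3, sub_zero] at h1
  rw [h1]
  refine Finset.sum_congr rfl fun ν _ => ?_
  rw [hl _ (hz ν) _ (hx ν), hD _ (hz ν)]

/-- the vectors of augmentations of relations -/
private def BaseV {G : Type} [Group G] (p : ℕ) {N : ℕ} (B : Subgroup G) (z : Fin N → G) :
    AddSubgroup (Fin N → ZMod p) where
  carrier := {v | ∃ x : Fin N → GR G, (∀ ν, InSub B (x ν)) ∧ ∑ ν, x ν * (el (z ν) - 1) = 0 ∧
    ∀ ν, (eps G (x ν) : ZMod p) = v ν}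
  zero_mem' := by
    refine ⟨fun _ => 0, fun _ => inSub_zero B, ?_, fun ν => ?_⟩
    · exact Finset.sum_eq_zero fun ν _ => zero_mul _
    · rw [map_zero, Int.cast_zero]
      rfl
  add_mem' := by
    rintro v w ⟨x, hx, h0, hv⟩ ⟨y, hy, h1, hw⟩
    refine ⟨fun ν => x ν + y ν, fun ν => inSub_add (hx ν) (hy ν), ?_, fun ν => ?_⟩
    · rw [← add_zero (0 : GR G)]
      nth_rewrite 1 [← h0]
      rw [← h1, ← Finset.sum_add_distrib]
      exact Finset.sum_congr rfl fun ν _ => add_mul _ _ _
    · rw [map_add, Int.cast_add, hv, hw]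
      rfl
  neg_mem' := by
    rintro v ⟨x, hx, h0, hv⟩
    refine ⟨fun ν => - x ν, fun ν => inSub_neg (hx ν), ?_, fun ν => ?_⟩
    · rw [← neg_zero, ← h0, ← Finset.sum_neg_distrib]
      exact Finset.sum_congr rfl fun ν _ => neg_mul _ _
    · rw [map_neg, Int.cast_neg, hv]
      rfl

/-- a vector orthogonal to all relations comes from a homomorphism -/
private theorem Base_hom {G : Type} [Group G] {p N : ℕ} (B : Subgroup G) (z : Fin N → G)
    (hgen : Subgroup.closure (Set.range z) = B) (hz : ∀ ν, z ν ∈ B) (t : Fin N → ZMod p)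
    (ht : ∀ v ∈ BaseV p B z, ∑ ν, v ν * t ν = 0) :
    ∃ h : B →* Multiplicative (ZMod p), ∀ ν, Multiplicative.toAdd (h ⟨z ν, hz ν⟩) = t ν := by
  classical
  choose f hf hfs using fun g : B => exists_fund z B hgen g.1 g.2
  have key : ∀ (g : B) (x : Fin N → GR G), (∀ ν, InSub B (x ν)) → Fund z g.1 x →
      ∑ ν, (eps G (x ν) : ZMod p) * t ν = ∑ ν, (eps G (f g ν) : ZMod p) * t ν := by
    intro g x hx h0
    have h1 := ht (fun ν => (eps G (x ν - f g ν) : ZMod p)) ⟨fun ν => x ν - f g ν, fun ν => by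
      show InSub B (x ν - f g ν)
      rw [sub_eq_add_neg]
      exact inSub_add (hx ν) (inSub_neg (hfs g ν)), by
      have h2 : Fund z g.1 (f g) := hf g
      unfold Fund at h0 h2
      have h3 : ∑ ν, (x ν - f g ν) * (el (z ν) - 1) =
          ∑ ν, x ν * (el (z ν) - 1) - ∑ ν, f g ν * (el (z ν) - 1) := by
        rw [← Finset.sum_sub_distrib]
        exact Finset.sum_congr rfl fun ν _ => sub_mul _ _ _
      rw [h3, ← h0, ← h2, sub_self], fun ν => rfl⟩
    rw [← sub_eq_zero, ← Finset.sum_sub_distrib, ← h1]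
    refine Finset.sum_congr rfl fun ν _ => ?_
    rw [map_sub, Int.cast_sub, sub_mul]
  let h : B →* Multiplicative (ZMod p) := MonoidHom.mk'
    (fun g => Multiplicative.ofAdd (∑ ν, (eps G (f g ν) : ZMod p) * t ν)) (by
      intro a b
      rw [← ofAdd_add]
      apply congrArg Multiplicative.ofAdd
      rw [← key (a * b) (fun ν => f a ν + el a.1 * f b ν)
        (fun ν => inSub_add (hfs a ν) (inSub_el_mul a.2 (hfs b ν))) ?_,
        ← Finset.sum_add_distrib]
      · refine Finset.sum_congr rfl fun ν _ => ?_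
        rw [map_add, map_mul, eps_el, one_mul, Int.cast_add, add_mul]
      · have h1 : Fund z a.1 (f a) := hf a
        have h2 : Fund z b.1 (f b) := hf b
        unfold Fund at h1 h2 ⊢
        have h3 : (el ((a * b : B) : G) - 1 : GR G) =
            (el a.1 - 1) + el a.1 * (el b.1 - 1) := by
          rw [show ((a * b : B) : G) = a.1 * b.1 from rfl, PAL.el_mul]
          noncomm_ring
        rw [h3, h1, h2, Finset.mul_sum, ← Finset.sum_add_distrib]
        refine Finset.sum_congr rfl fun ν _ => ?_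
        rw [add_mul, mul_assoc])
  refine ⟨h, fun ν => ?_⟩
  show ∑ μ, (eps G (f ⟨z ν, hz ν⟩ μ) : ZMod p) * t μ = t ν
  rw [← key ⟨z ν, hz ν⟩ (fun μ => if μ = ν then 1 else 0) ?_ ?_]
  · rw [Finset.sum_eq_single ν]
    · rw [if_pos rfl, map_one, Int.cast_one, one_mul]
    · intro μ _ hμ
      rw [if_neg hμ, map_zero, Int.cast_zero, zero_mul]
    · intro hμ
      exact absurd (Finset.mem_univ ν) hμ
  · intro μ
    by_cases hμ : μ = ν
    · rw [if_pos hμ]
      exact inSub_one
    · rw [if_neg hμ]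
      exact inSub_zero B
  · unfold Fund
    rw [Finset.sum_eq_single ν]
    · show _ = (if ν = ν then (1 : GR G) else 0) * (el (z ν) - 1)
      rw [if_pos rfl, one_mul]
    · intro μ _ hμ
      show (if μ = ν then (1 : GR G) else 0) * (el (z μ) - 1) = 0
      rw [if_neg hμ, zero_mul]
    · intro hμ
      exact absurd (Finset.mem_univ ν) hμ

theorem pd_base {G : Type} [Group G] (p : ℕ) [Fact p.Prime] (hres : ResQ p G) (B : Subgroup G)
    (hfg : B.FG) : ∃ N ρ : ℕ, HasPD B N ρ ∧ hp p B * p ^ ρ = p ^ N := by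
  classical
  obtain ⟨S, hS⟩ := hfg
  obtain ⟨N, hN⟩ : ∃ N : ℕ, N = Fintype.card S := ⟨_, rfl⟩
  subst hN
  let e := Fintype.equivFin S
  let z : Fin (Fintype.card S) → G := fun i => (e.symm i : G)
  have hrange : Set.range z = (S : Set G) := by
    ext g
    constructor
    · rintro ⟨i, rfl⟩
      exact (e.symm i).2
    · intro hg
      exact ⟨e ⟨g, hg⟩, by
        show ((e.symm (e ⟨g, hg⟩) : S) : G) = g
        rw [Equiv.symm_apply_apply]⟩
  have hgen : Subgroup.closure (Set.range z) = B := by rw [hrange, hS]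
  have hz : ∀ ν, z ν ∈ B := by
    intro ν
    rw [← hgen]
    exact Subgroup.subset_closure ⟨ν, rfl⟩
  let V : Submodule (ZMod p) (Fin (Fintype.card S) → ZMod p) :=
    AddSubgroup.toZModSubmodule p (BaseV p B z)
  have hV : ∀ v, v ∈ V ↔ v ∈ BaseV p B z := fun v => Iff.rfl
  let b := Module.finBasis (ZMod p) V
  have hrow : ∀ i, ∃ x : Fin (Fintype.card S) → GR G, (∀ ν, InSub B (x ν)) ∧
      ∑ ν, x ν * (el (z ν) - 1) = 0 ∧
      ∀ ν, (eps G (x ν) : ZMod p) = (b i : Fin (Fintype.card S) → ZMod p) ν :=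
    fun i => (b i).2
  choose X hXs hX0 hXe using hrow
  let M : Matrix (Fin (Module.finrank (ZMod p) V)) (Fin (Fintype.card S)) (ZMod p) :=
    Matrix.of fun i ν => (b i : Fin (Fintype.card S) → ZMod p) ν
  have hli : LinearIndependent (ZMod p) M.row := by
    have h1 := b.linearIndependent.map' V.subtype V.ker_subtype
    exact h1
  refine ⟨Fintype.card S, Module.finrank (ZMod p) V, ⟨z, X, ?_⟩, ?_⟩
  · refine ⟨hgen, hX0, hXs, fun v hv h0 => ?_⟩
    refine inj_of_modp p hres X (fun w hw => ?_) v hv h0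
    have h1 : ∑ i, w i • M.row i = 0 := by
      funext ν
      rw [Finset.sum_apply]
      show ∑ i, w i * (b i : Fin (Fintype.card S) → ZMod p) ν = 0
      rw [← hw ν]
      exact Finset.sum_congr rfl fun i _ => by rw [hXe]
    funext i
    exact Fintype.linearIndependent_iff.1 hli w h1 i
  · have hrank : Module.finrank (ZMod p) (LinearMap.range M.mulVecLin) =
        Module.finrank (ZMod p) V := by
      have h1 := hli.rank_matrix
      rw [Fintype.card_fin] at h1
      exact h1
    have hdim := LinearMap.finrank_range_add_finrank_ker M.mulVecLin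
    rw [hrank, Module.finrank_fintype_fun_eq_card, Fintype.card_fin] at hdim
    have hker : ∀ t : Fin (Fintype.card S) → ZMod p, M.mulVecLin t = 0 →
        ∀ v ∈ BaseV p B z, ∑ ν, v ν * t ν = 0 := by
      intro t ht v hv
      let L : V →ₗ[ZMod p] ZMod p :=
        { toFun := fun v => ∑ ν, v.1 ν * t ν
          map_add' := by
            intro v w
            rw [← Finset.sum_add_distrib]
            exact Finset.sum_congr rfl fun ν _ => add_mul _ _ _
          map_smul' := by
            intro c v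
            rw [RingHom.id_apply, smul_eq_mul, Finset.mul_sum]
            exact Finset.sum_congr rfl fun ν _ => mul_assoc _ _ _ }
      have hL : L = 0 := by
        apply b.ext
        intro i
        exact congrFun ht i
      exact LinearMap.congr_fun hL ⟨v, (hV v).2 hv⟩
    have hcard : hp p B = Nat.card (LinearMap.ker M.mulVecLin) := by
      let Φ : (B →* Multiplicative (ZMod p)) → LinearMap.ker M.mulVecLin := fun h =>
        ⟨fun ν => Multiplicative.toAdd (h ⟨z ν, hz ν⟩), by
          rw [LinearMap.mem_ker]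
          funext i
          show ∑ ν, (b i : Fin (Fintype.card S) → ZMod p) ν *
            Multiplicative.toAdd (h ⟨z ν, hz ν⟩) = 0
          rw [← Base_rel B z hz h (X i) (hXs i) (hX0 i)]
          exact Finset.sum_congr rfl fun ν _ => by rw [hXe]⟩
      refine Nat.card_eq_of_bijective Φ ⟨?_, ?_⟩
      · intro h h' hh
        ext g
        obtain ⟨f, hf, hfs⟩ := exists_fund z B hgen g.1 g.2
        have h1 := Base_fund B z hz h g.1 g.2 f hfs hf
        have h2 := Base_fund B z hz h' g.1 g.2 f hfs hf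
        have h3 : ∀ ν, Multiplicative.toAdd (h ⟨z ν, hz ν⟩) =
            Multiplicative.toAdd (h' ⟨z ν, hz ν⟩) := fun ν =>
          congrFun (congrArg Subtype.val hh) ν
        have h4 : Multiplicative.toAdd (h g) = Multiplicative.toAdd (h' g) := by
          refine h1.trans (Eq.trans ?_ h2.symm)
          exact Finset.sum_congr rfl fun ν _ => by rw [h3]
        exact h4
      · intro t
        obtain ⟨h, hh⟩ := Base_hom B z hgen hz t.1 (hker t.1 t.2)
        exact ⟨h, Subtype.ext (funext hh)⟩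
    rw [hcard, Module.natCard_eq_pow_finrank (K := ZMod p), Nat.card_zmod, ← pow_add]
    congr 1
    omega

end PAM
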