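import Pool.Agent.PAM.Defs
import Pool.Agent.PFC.HGen
import Pool.Agent.PFC.HZero
import Pool.Agent.PFC.HMain

/-!
# PAM/CdAm (module PAM-CdAm): the cohomological dimension of an amalgam

`0 → LK (B ⊓ A) → LK B × LK A → LK H → 0`, `x ↦ (x, -x)`, `(x, y) ↦ x + y`, is exact.  Surjective: `LK H` is
generated by the `el h - 1`, `h ∈ H = B ⊔ A` (`amalgam_sup`).  Middle: let `x ∈ LK B ∩ LK A`, `M = GR G ⧸ LK (B ⊓ A)`;
the derivations `b ↦ [el b - 1]` on `B` and `0` on `A` agree on `B ⊓ A`; glue them (`glue_der`) to a derivation `D` on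
`H`; it extends to a linear map `L : LK H → M` with `L(el h - 1) = D h` (a derivation `D : H → M` over
`H.subtype` gives such a map: use `lin` on left cosets, or show: `∑ f_j (el h_j - 1) = 0` implies
`∑ f_j D(h_j) = 0`, by decomposing the `f_j` along the cosets `G/H` and `lin_der`); so `L x = [x]` and `L x = 0`.
`LK (B ⊓ A)` has projective dimension `≤ 0` (`pd_tr_free`, `pd_LK`); `pd_three` or `pd_two` of `PFC/HShort.lean`.
-/

set_option autoImplicit false

open PFC PAL

namespace PAM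

/-- a derivation on a subgroup extends to the group ring along the left cosets -/
private theorem cdam_ext {G M : Type} [Group G] [AddCommGroup M] [Module (GR G) M]
    (H : Subgroup G) (D : H → M) (hD : IsDer H.subtype D) :
    ∃ Λ : GR G →+ M, ∀ (c : GR G) (h : G) (hh : h ∈ H), Λ (c * (el h - 1)) = c • D ⟨h, hh⟩ := by
  classical
  have hs : ∀ g : G, (Quotient.out (g : G ⧸ H))⁻¹ * g ∈ H := by
    intro g
    rw [← QuotientGroup.eq, QuotientGroup.out_eq']
  let f : G → M := fun g =>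
    (el (Quotient.out (g : G ⧸ H)) : GR G) • D ⟨(Quotient.out (g : G ⧸ H))⁻¹ * g, hs g⟩
  refine ⟨PAL.lin f, ?_⟩
  have key : ∀ (g h : G) (hh : h ∈ H), PAL.lin f (el g * (el h - 1)) = (el g : GR G) • D ⟨h, hh⟩ := by
    intro g h hh
    have h1 : (el g * (el h - 1) : GR G) = el (g * h) - el g := by
      rw [mul_sub, mul_one, PAL.el_mul]
    rw [h1, map_sub, PAL.lin_el, PAL.lin_el]
    have h2 : ((g * h : G) : G ⧸ H) = (g : G ⧸ H) := by
      rw [QuotientGroup.eq]
      have h3 : (g * h)⁻¹ * g = h⁻¹ := by group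
      rw [h3]
      exact H.inv_mem hh
    have h4 : f (g * h) = (el (Quotient.out (g : G ⧸ H)) : GR G) •
        D ⟨(Quotient.out (g : G ⧸ H))⁻¹ * (g * h), by
          rw [← mul_assoc]
          exact H.mul_mem (hs g) hh⟩ := by
      show (el (Quotient.out ((g * h : G) : G ⧸ H)) : GR G) •
        D ⟨(Quotient.out ((g * h : G) : G ⧸ H))⁻¹ * (g * h), hs (g * h)⟩ = _
      have h5 : ∀ (q q' : G ⧸ H) (e : q = q') (h6 : (Quotient.out q)⁻¹ * (g * h) ∈ H)
          (h7 : (Quotient.out q')⁻¹ * (g * h) ∈ H),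
          (el (Quotient.out q) : GR G) • D ⟨(Quotient.out q)⁻¹ * (g * h), h6⟩ =
            (el (Quotient.out q') : GR G) • D ⟨(Quotient.out q')⁻¹ * (g * h), h7⟩ := by
        intro q q' e h6 h7
        subst e
        rfl
      exact h5 _ _ h2 _ _
    rw [h4]
    have h8 : D ⟨(Quotient.out (g : G ⧸ H))⁻¹ * (g * h), by
          rw [← mul_assoc]
          exact H.mul_mem (hs g) hh⟩ = D ⟨(Quotient.out (g : G ⧸ H))⁻¹ * g, hs g⟩ +
        (el ((Quotient.out (g : G ⧸ H))⁻¹ * g) : GR G) • D ⟨h, hh⟩ := by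
      have h9 := hD ⟨(Quotient.out (g : G ⧸ H))⁻¹ * g, hs g⟩ ⟨h, hh⟩
      have h10 : (⟨(Quotient.out (g : G ⧸ H))⁻¹ * g, hs g⟩ * ⟨h, hh⟩ : H) =
          ⟨(Quotient.out (g : G ⧸ H))⁻¹ * (g * h), by
            rw [← mul_assoc]
            exact H.mul_mem (hs g) hh⟩ := by
        apply Subtype.ext
        exact mul_assoc _ _ _
      rw [h10] at h9
      exact h9
    rw [h8, smul_add]
    show _ + _ - (el (Quotient.out (g : G ⧸ H)) : GR G) •
      D ⟨(Quotient.out (g : G ⧸ H))⁻¹ * g, hs g⟩ = _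
    rw [add_sub_cancel_left, smul_smul, ← PAL.el_mul, mul_inv_cancel_left]
  intro c h hh
  refine PAL.add_ext (((PAL.lin f).comp (AddMonoidHom.mulRight (el h - 1 : GR G))))
    ((AddMonoidHom.flip (smulAddHom (GR G) M)) (D ⟨h, hh⟩)) ?_ c
  intro g
  exact key g h hh

private theorem cdam_mono {G : Type} [Group G] {K K' : Subgroup G} (h : K ≤ K') : LK K ≤ LK K' := by
  refine Submodule.span_mono ?_
  rintro x ⟨k, hk, rfl⟩
  exact ⟨k, h hk, rfl⟩

private theorem cdam_mem {G : Type} [Group G] {K : Subgroup G} {k : G} (hk : k ∈ K) :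
    (el k - 1 : GR G) ∈ LK K :=
  Submodule.subset_span ⟨k, hk, rfl⟩

private theorem cdam_span {G M : Type} [Group G] [AddCommGroup M] [Module (GR G) M]
    (K : Subgroup G) (Λ : GR G →+ M) (L : GR G →ₗ[GR G] M)
    (h : ∀ (c : GR G) (k : G), k ∈ K → Λ (c * (el k - 1)) = c • L (el k - 1))
    (x : GR G) (hx : x ∈ LK K) : Λ x = L x := by
  have h1 : ∀ c : GR G, Λ (c * x) = c • L x := by
    refine Submodule.span_induction (p := fun y _ => ∀ c : GR G, Λ (c * y) = c • L y)
      ?_ ?_ ?_ ?_ hx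
    · rintro y ⟨k, hk, rfl⟩ c
      exact h c k hk
    · intro c
      rw [mul_zero, map_zero, map_zero, smul_zero]
    · intro y z _ _ hy hz c
      rw [mul_add, map_add, hy c, hz c, map_add, smul_add]
    · intro a y _ hy c
      rw [map_smul, smul_smul, smul_eq_mul, ← mul_assoc, hy (c * a)]
  have h2 := h1 1
  rw [one_mul, one_smul] at h2
  exact h2

/-- the intersection -/
private theorem cdam_inf {G : Type} [Group G] (H B A : Subgroup G) (hH : IsAmalgam H B A)
    (x : GR G) (hB : x ∈ LK B) (hA : x ∈ LK A) : x ∈ LK (B ⊓ A) := by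
  let q : GR G →ₗ[GR G] (GR G ⧸ LK (B ⊓ A)) := (LK (B ⊓ A)).mkQ
  let DB : B → (GR G ⧸ LK (B ⊓ A)) := fun b => q (el (b : G) - 1)
  let DA : A → (GR G ⧸ LK (B ⊓ A)) := fun _ => 0
  have hDB : IsDer B.subtype DB := by
    intro g h
    show q (el ((g * h : B) : G) - 1) = q (el (g : G) - 1) + (el (g : G) : GR G) • q (el (h : G) - 1)
    rw [← map_smul, ← map_add]
    congr 1
    rw [smul_eq_mul, mul_sub, mul_one, ← PAL.el_mul]
    show el ((g : G) * (h : G)) - 1 = _
    abel
  have hDA : IsDer A.subtype DA := by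
    intro g h
    show (0 : GR G ⧸ LK (B ⊓ A)) = 0 + _ • 0
    rw [smul_zero, add_zero]
  obtain ⟨D, hD, hD1, hD2⟩ := glue_der H B A hH DB hDB DA hDA (by
    intro g hgB hgA
    show q (el g - 1) = 0
    rw [Submodule.mkQ_apply, Submodule.Quotient.mk_eq_zero]
    exact cdam_mem ⟨hgB, hgA⟩)
  obtain ⟨Λ, hΛ⟩ := cdam_ext H D hD
  have h1 : Λ x = q x := by
    refine cdam_span B Λ q ?_ x hB
    intro c k hk
    rw [hΛ c k (hH.1 hk), hD1 k hk]
  have h2 : Λ x = (0 : GR G →ₗ[GR G] (GR G ⧸ LK (B ⊓ A))) x := by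
    refine cdam_span A Λ 0 ?_ x hA
    intro c k hk
    rw [hΛ c k (hH.2.1 hk), hD2 k hk]
    rfl
  rw [h1] at h2
  have h3 : q x = 0 := h2
  rwa [Submodule.mkQ_apply, Submodule.Quotient.mk_eq_zero] at h3

/-- the sum -/
private theorem cdam_sup {G : Type} [Group G] (B A : Subgroup G) : LK (B ⊔ A) ≤ LK B ⊔ LK A := by
  refine Submodule.span_le.2 ?_
  rintro x ⟨h, hh, rfl⟩
  show (el h - 1 : GR G) ∈ LK B ⊔ LK A
  rw [Subgroup.sup_eq_closure] at hh
  induction hh using Subgroup.closure_induction with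
  | mem g hg =>
    rcases hg with hg | hg
    · exact Submodule.mem_sup_left (cdam_mem hg)
    · exact Submodule.mem_sup_right (cdam_mem hg)
  | one =>
    rw [PAL.el_one, sub_self]
    exact Submodule.zero_mem _
  | mul a b _ _ iha ihb =>
    have h1 : (el (a * b) - 1 : GR G) = (el a - 1) + (el a : GR G) • (el b - 1) := by
      rw [smul_eq_mul, mul_sub, mul_one, ← PAL.el_mul]
      abel
    rw [h1]
    exact Submodule.add_mem _ iha (Submodule.smul_mem _ _ ihb)
  | inv a _ iha =>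
    have h1 : (el a⁻¹ - 1 : GR G) = (-(el a⁻¹) : GR G) • (el a - 1) := by
      rw [smul_eq_mul, neg_mul, mul_sub, mul_one, ← PAL.el_mul, inv_mul_cancel, PAL.el_one]
      abel
    rw [h1]
    exact Submodule.smul_mem _ _ iha

theorem cd_amalg {G : Type} [Group G] (H B A : Subgroup G) (hH : IsAmalgam H B A)
    (hC : IsFreeGroup (B ⊓ A : Subgroup G)) (hB : PdLT G (LK B) 2) (hA : PdLT G (LK A) 2) :
    PdLT G (LK H) 2 := by
  have hprod : PdLT G (LK B × LK A) 2 := by
    refine pd_two (LinearMap.inl (GR G) (LK B) (LK A)) (LinearMap.snd (GR G) (LK B) (LK A))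
      LinearMap.inl_injective LinearMap.snd_surjective ?_ 2 hB hA
    intro z
    constructor
    · intro hz
      refine ⟨z.1, ?_⟩
      exact Prod.ext rfl hz.symm
    · rintro ⟨w, rfl⟩
      rfl
  have hfree : PdLT G (LK (B ⊓ A)) 1 := pd_LK' (B ⊓ A) 1 (pd_tr_free _ hC)
  have hle1 : LK (B ⊓ A) ≤ LK B := cdam_mono inf_le_left
  have hle2 : LK (B ⊓ A) ≤ LK A := cdam_mono inf_le_right
  have hle3 : LK B ≤ LK H := cdam_mono hH.1
  have hle4 : LK A ≤ LK H := cdam_mono hH.2.1
  let f : LK (B ⊓ A) →ₗ[GR G] (LK B × LK A) :=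
    LinearMap.prod (Submodule.inclusion hle1) (-(Submodule.inclusion hle2))
  let g : (LK B × LK A) →ₗ[GR G] LK H :=
    LinearMap.coprod (Submodule.inclusion hle3) (Submodule.inclusion hle4)
  refine pd_three f g ?_ ?_ ?_ 1 hfree hprod
  · intro x y hxy
    have h1 : (Submodule.inclusion hle1) x = (Submodule.inclusion hle1) y :=
      congrArg Prod.fst hxy
    exact Submodule.inclusion_injective hle1 h1
  · intro x
    have h2 : (x : GR G) ∈ LK B ⊔ LK A := by
      apply cdam_sup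
      rw [amalgam_sup H B A hH]
      exact x.2
    obtain ⟨y, hy, z, hz, hyz⟩ := Submodule.mem_sup.1 h2
    refine ⟨(⟨y, hy⟩, ⟨z, hz⟩), ?_⟩
    apply Subtype.ext
    exact hyz
  · intro w
    constructor
    · intro hw
      have h3 : ((w.1 : LK B) : GR G) + ((w.2 : LK A) : GR G) = 0 := congrArg Subtype.val hw
      have h4 : ((w.1 : LK B) : GR G) = -((w.2 : LK A) : GR G) := eq_neg_of_add_eq_zero_left h3
      have h5 : ((w.1 : LK B) : GR G) ∈ LK (B ⊓ A) := by
        refine cdam_inf H B A hH _ w.1.2 ?_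
        rw [h4]
        exact Submodule.neg_mem _ w.2.2
      refine ⟨⟨_, h5⟩, ?_⟩
      apply Prod.ext
      · apply Subtype.ext
        rfl
      · apply Subtype.ext
        show -((w.1 : LK B) : GR G) = ((w.2 : LK A) : GR G)
        rw [h4, neg_neg]
    · rintro ⟨y, rfl⟩
      apply Subtype.ext
      show (y : GR G) + -(y : GR G) = 0
      exact add_neg_cancel _

end PAM
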