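import Pool.Agent.PAM.Defs
import Pool.Agent.PFC.HGen
import Pool.Agent.PFC.HZero
import Pool.Agent.PFC.HMain

/-!
# PAM/CdHnn (module PAM-CdHnn): the cohomological dimension of an HNN extension over a cyclic subgroup

Let `d = t c t⁻¹`.  The map `LK B × GR G → LK H`, `(x, y) ↦ x + y (el t - 1)`, is surjective.  If `c = 1` it is
injective; if `c ≠ 1` its kernel is generated by `k = (el t * (el c - 1) - (el d - 1), 1 - el d)`, and
`f ↦ f k` is injective because `1 - el d` is not a right zero divisor (`d` has infinite order).  Kernel: let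
`M = (LK B × GR G) ⧸ GR G k`; the universal property for the semidirect product `M ⋊ G` gives a derivation `D` on
`H` with `D b = [(el b - 1, 0)]` for `b ∈ B` and `D t = [(0, 1)]` (the condition at `c` is `[k] = 0`), and a linear
map `L : LK H → M` with `L(el h - 1) = D h` (see `PAM/CdAm.lean`); so `L(x + y (el t - 1)) = [(x, y)]`.  Then
`pd_three` or `pd_two` of `PFC/HShort.lean`.
-/

set_option autoImplicit false

open PFC PAL

namespace PAM

namespace CdHnn

private theorem el_mul' {Q : Type} [Group Q] (a b : Q) : (el (a * b) : GR Q) = el a * el b :=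
  map_mul _ a b

private theorem el_one' {Q : Type} [Group Q] : (el (1 : Q) : GR Q) = 1 := map_one _

private theorem el_mem {G : Type} [Group G] {K : Subgroup G} {k : G} (hk : k ∈ K) :
    (el k - 1 : GR G) ∈ LK K :=
  Submodule.subset_span ⟨k, hk, rfl⟩

private structure SD (Q M : Type) where
  m : M
  q : Q

private theorem SD.ext' {Q M : Type} {a b : SD Q M} (h1 : a.m = b.m) (h2 : a.q = b.q) : a = b := by
  cases a; cases b; cases h1; cases h2; rfl

@[instance_reducible]
private noncomputable def sdGroup (Q M : Type) [Group Q] [AddCommGroup M] [Module (GR Q) M] :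
    Group (SD Q M) where
  mul a b := ⟨a.m + (el a.q : GR Q) • b.m, a.q * b.q⟩
  one := ⟨0, 1⟩
  inv a := ⟨-((el a.q⁻¹ : GR Q) • a.m), a.q⁻¹⟩
  mul_assoc a b c := by
    refine SD.ext' ?_ (mul_assoc _ _ _)
    show a.m + (el a.q : GR Q) • b.m + (el (a.q * b.q) : GR Q) • c.m =
      a.m + (el a.q : GR Q) • (b.m + (el b.q : GR Q) • c.m)
    rw [smul_add, el_mul', mul_smul, add_assoc]
  one_mul a := by
    refine SD.ext' ?_ (one_mul _)
    show (0 : M) + (el (1 : Q) : GR Q) • a.m = a.m
    rw [el_one', one_smul, zero_add]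
  mul_one a := by
    refine SD.ext' ?_ (mul_one _)
    show a.m + (el a.q : GR Q) • (0 : M) = a.m
    rw [smul_zero, add_zero]
  inv_mul_cancel a := by
    refine SD.ext' ?_ (inv_mul_cancel _)
    show -((el a.q⁻¹ : GR Q) • a.m) + (el a.q⁻¹ : GR Q) • a.m = 0
    exact neg_add_cancel _

/-- derivations on an HNN extension -/
private theorem der {G : Type} [Group G] (H B : Subgroup G) (t c : G) (hH : IsHNN H B t c)
    {M : Type} [AddCommGroup M] [Module (GR G) M] (E : B → M)
    (hE : ∀ a b : B, E (a * b) = E a + (el (a : G) : GR G) • E b) (m : M)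
    (hm : ∀ (h : c ∈ B) (h' : t * c * t⁻¹ ∈ B), m + (el t : GR G) • E ⟨c, h⟩ =
      E ⟨t * c * t⁻¹, h'⟩ + (el (t * c * t⁻¹) : GR G) • m) :
    ∃ D : H → M, (∀ a b : H, D (a * b) = D a + (el (a : G) : GR G) • D b) ∧
      (∀ (x : G) (hB : x ∈ B) (hH : x ∈ H), D ⟨x, hH⟩ = E ⟨x, hB⟩) ∧
      ∀ h : t ∈ H, D ⟨t, h⟩ = m := by
  let _ := sdGroup G M
  let f : B →* SD G M := MonoidHom.mk' (fun b => ⟨E b, (b : G)⟩) (by
    intro a b
    refine SD.ext' ?_ ?_
    · show E (a * b) = E a + (el (a : G) : GR G) • E b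
      exact hE a b
    · rfl)
  let y : SD G M := ⟨m, t⟩
  obtain ⟨F, ⟨hF1, hF2⟩, -⟩ := hH.2.2.2.2 (SD G M) f y (by
    intro h h'
    rw [mul_inv_eq_iff_eq_mul]
    refine SD.ext' ?_ ?_
    · show m + (el t : GR G) • E ⟨c, h⟩ = E ⟨t * c * t⁻¹, h'⟩ + (el (t * c * t⁻¹) : GR G) • m
      exact hm h h'
    · show t * c = t * c * t⁻¹ * t
      rw [inv_mul_cancel_right])
  let p : SD G M →* G :=
    { toFun := fun a => a.q
      map_one' := rfl
      map_mul' := fun _ _ => rfl }
  have hp : p.comp F = H.subtype := by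
    refine (hH.2.2.2.2 G B.subtype t (fun _ _ => rfl)).unique ⟨?_, ?_⟩ ⟨?_, ?_⟩
    · intro x hB hH
      show (F ⟨x, hH⟩).q = x
      rw [hF1 x hB hH]
      rfl
    · intro h
      show (F ⟨t, h⟩).q = t
      rw [hF2 h]
    · intro x hB hH
      rfl
    · intro h
      rfl
  refine ⟨fun h => (F h).m, ?_, ?_, ?_⟩
  · intro a b
    show (F (a * b)).m = (F a).m + (el (a : G) : GR G) • (F b).m
    rw [map_mul]
    show (F a).m + (el (F a).q : GR G) • (F b).m = _
    have h1 : (F a).q = (a : G) := DFunLike.congr_fun hp a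
    rw [h1]
  · intro x hB hH
    show (F ⟨x, hH⟩).m = E ⟨x, hB⟩
    rw [hF1 x hB hH]
    rfl
  · intro h
    show (F ⟨t, h⟩).m = m
    rw [hF2 h]

/-- the additive extension of a function to the group ring -/
private noncomputable def ext {G : Type} [Group G] {V : Type} [AddCommGroup V] (f : G → V) :
    GR G →+ V :=
  (Finsupp.liftAddHom (fun g => zmultiplesHom V (f g))).comp
    (MonoidAlgebra.coeffAddEquiv (R := ℤ) (M := G)).toAddMonoidHom

private theorem ext_el {G : Type} [Group G] {V : Type} [AddCommGroup V] (f : G → V) (g : G) :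
    ext f (MonoidAlgebra.of ℤ G g) = f g := by
  have h1 : ext f (MonoidAlgebra.of ℤ G g) =
      (Finsupp.liftAddHom (fun g => zmultiplesHom V (f g))) (Finsupp.single g 1) := rfl
  rw [h1, Finsupp.liftAddHom_apply_single, zmultiplesHom_apply, one_smul]

private theorem ext_mul {G : Type} [Group G] (H : Subgroup G) {M : Type} [AddCommGroup M]
    [Module (GR G) M] (D : H → M)
    (hD : ∀ a b : H, D (a * b) = D a + (el (a : G) : GR G) • D b) (k : H) (a : GR H) :
    ext D (el k * a) = (el (k : G) : GR G) • ext D a + eps H a • D k := by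
  induction a using MonoidAlgebra.induction_on with
  | of g =>
    have h2 : eps H (MonoidAlgebra.of ℤ H g) = 1 := eps_el g
    rw [← map_mul, ext_el, ext_el, h2, one_smul, hD, add_comm]
  | add x y hx hy =>
    rw [mul_add, map_add, hx, hy, map_add, map_add, smul_add, add_smul]
    abel
  | smul r x hx =>
    rw [mul_smul_comm, map_zsmul, hx, map_zsmul, map_zsmul, smul_add, smul_comm r
      (el (k : G) : GR G), smul_assoc]

private theorem lin {G : Type} [Group G] (H : Subgroup G) {M : Type} [AddCommGroup M]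
    [Module (GR G) M] (D : H → M)
    (hD : ∀ a b : H, D (a * b) = D a + (el (a : G) : GR G) • D b) :
    ∃ L : LK H →ₗ[GR G] M, ∀ (h : H) (hm : (el (h : G) - 1 : GR G) ∈ LK H),
      L ⟨el (h : G) - 1, hm⟩ = D h := by
  have hD1 : D 1 = 0 := by
    have h1 := hD 1 1
    rw [mul_one, Subgroup.coe_one, el_one', one_smul] at h1
    exact left_eq_add.1 h1
  obtain ⟨i', hi', hii⟩ := ind_sub H (jK H).toAddMonoidHom (ind_reg H) (augId H)
  obtain ⟨F, hF⟩ := ind_ext H i' hi' ((ext D).comp (augId H).subtype.toAddMonoidHom) (by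
    intro k x
    show ext D (el k * (x : GR H)) = (el (k : G) : GR G) • ext D (x : GR H)
    have h2 : eps H (x : GR H) = 0 := x.2
    rw [ext_mul H D hD, h2, zero_smul, add_zero])
  refine ⟨F.comp (LinearEquiv.ofEq _ _ (span_jK H).symm).toLinearMap, ?_⟩
  intro h hm
  have hx : (el h - 1 : GR H) ∈ augId H := by
    show eps H (el h - 1) = 0
    rw [map_sub, eps_el, map_one, sub_self]
  have h3 := hF ⟨el h - 1, hx⟩
  have h4 : i' ⟨el h - 1, hx⟩ = LinearEquiv.ofEq _ _ (span_jK H).symm ⟨el (h : G) - 1, hm⟩ := by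
    apply Subtype.ext
    rw [hii]
    show jK H (el h - 1) = el (h : G) - 1
    rw [map_sub, jK_el, map_one]
  show F (LinearEquiv.ofEq _ _ (span_jK H).symm ⟨el (h : G) - 1, hm⟩) = D h
  rw [← h4, h3]
  show ext D (el h - 1) = D h
  have h5 : (1 : GR H) = el 1 := el_one'.symm
  rw [map_sub, h5, ext_el, ext_el, hD1, sub_zero]

private theorem coeff_mul {K : Type} [Group K] (k g : K) (a : GR K) :
    (a * el k).coeff (g * k) = a.coeff g := by
  classical
  induction a using MonoidAlgebra.induction_linear with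
  | zero => rw [zero_mul]; rfl
  | add a b ha hb =>
    rw [add_mul, MonoidAlgebra.coeff_add, MonoidAlgebra.coeff_add, Finsupp.add_apply,
      Finsupp.add_apply, ha, hb]
  | single h n =>
    have e : (MonoidAlgebra.single h n * el k : GR K) = MonoidAlgebra.single (h * k) n := by
      show MonoidAlgebra.single h n * MonoidAlgebra.single k (1 : ℤ) = _
      rw [MonoidAlgebra.single_mul_single, mul_one]
    rw [e, MonoidAlgebra.coeff_single, MonoidAlgebra.coeff_single, Finsupp.single_apply,
      Finsupp.single_apply]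
    simp only [mul_left_inj]

private theorem zero_div {K : Type} [Group K] (d : K) (hd : ∀ n : ℤ, n ≠ 0 → d ^ n ≠ 1) (a : GR K)
    (h : a * (1 - el d) = 0) : a = 0 := by
  have h1 : a * el d = a := by
    rw [mul_sub, mul_one, sub_eq_zero] at h
    exact h.symm
  have h2 : ∀ x, a.coeff (x * d) = a.coeff x := by
    intro x
    have h3 := coeff_mul d x a
    rw [h1] at h3
    exact h3
  have h3 : ∀ (x : K) (n : ℕ), a.coeff (x * d ^ n) = a.coeff x := by
    intro x n
    induction n with
    | zero => rw [pow_zero, mul_one]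
    | succ n ih => rw [pow_succ, ← mul_assoc, h2, ih]
  have h4 : ∀ x, a.coeff x = 0 := by
    intro x
    by_contra hx
    have hinj : Function.Injective (fun n : ℕ => x * d ^ n) := by
      intro m n hmn
      have h5 : d ^ m = d ^ n := mul_left_cancel hmn
      by_contra hne
      refine hd ((m : ℤ) - n) (by omega) ?_
      rw [zpow_sub, zpow_natCast, zpow_natCast, h5, mul_inv_cancel]
    have h6 : ∀ n : ℕ, (fun n : ℕ => x * d ^ n) n ∈ (a.coeff.support : Set K) := by
      intro n
      rw [Finset.mem_coe, Finsupp.mem_support_iff]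
      show a.coeff (x * d ^ n) ≠ 0
      rw [h3]
      exact hx
    exact (Set.infinite_of_injective_forall_mem hinj h6) (Finset.finite_toSet _)
  have h5 : a.coeff = 0 := Finsupp.ext h4
  exact MonoidAlgebra.coeff_injective h5

private theorem gen {G : Type} [Group G] (H B : Subgroup G) (t c : G) (hH : IsHNN H B t c)
    (S : Subgroup G) (hB : B ≤ S) (ht : t ∈ S) : H ≤ S := by
  obtain ⟨hBH, htH, hcB, hdB, hu⟩ := hH
  let K : Subgroup G := S ⊓ H
  have hBK : B ≤ K := le_inf hB hBH
  have htK : t ∈ K := ⟨ht, htH⟩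
  obtain ⟨F, ⟨hF1, hF2⟩, -⟩ := hu K (Subgroup.inclusion hBK) ⟨t, htK⟩ (fun _ _ => rfl)
  have h1 : (Subgroup.inclusion (inf_le_right : K ≤ H)).comp F = MonoidHom.id H := by
    refine (hu H (Subgroup.inclusion hBH) ⟨t, htH⟩ (fun _ _ => rfl)).unique ⟨?_, ?_⟩ ⟨?_, ?_⟩
    · intro x hxB hxH
      show Subgroup.inclusion (inf_le_right : K ≤ H) (F ⟨x, hxH⟩) = _
      rw [hF1 x hxB hxH]
      rfl
    · intro h
      show Subgroup.inclusion (inf_le_right : K ≤ H) (F ⟨t, h⟩) = _
      rw [hF2 h]
      rfl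
    · intro x hxB hxH
      rfl
    · intro h
      rfl
  intro x hx
  have h2 : Subgroup.inclusion (inf_le_right : K ≤ H) (F ⟨x, hx⟩) = ⟨x, hx⟩ :=
    DFunLike.congr_fun h1 ⟨x, hx⟩
  have h3 : ((F ⟨x, hx⟩ : K) : G) = x := congrArg Subtype.val h2
  rw [← h3]
  exact (F ⟨x, hx⟩).2.1

private theorem LK_sub {G : Type} [Group G] (H B : Subgroup G) (t c : G) (hH : IsHNN H B t c) :
    LK H ≤ LK B ⊔ Submodule.span (GR G) {(el t - 1 : GR G)} := by
  set R := LK B ⊔ Submodule.span (GR G) {(el t - 1 : GR G)} with hR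
  let S : Subgroup G :=
    { carrier := {g | (el g - 1 : GR G) ∈ R}
      one_mem' := by
        show (el (1 : G) - 1 : GR G) ∈ R
        rw [el_one', sub_self]
        exact Submodule.zero_mem _
      mul_mem' := by
        intro a b ha hb
        show (el (a * b) - 1 : GR G) ∈ R
        have e : (el (a * b) - 1 : GR G) = (el a - 1) + (el a : GR G) • (el b - 1 : GR G) := by
          rw [smul_eq_mul, mul_sub, mul_one, ← el_mul']
          abel
        rw [e]
        exact Submodule.add_mem _ ha (Submodule.smul_mem _ _ hb)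
      inv_mem' := by
        intro a ha
        show (el a⁻¹ - 1 : GR G) ∈ R
        have e : (el a⁻¹ - 1 : GR G) = -((el a⁻¹ : GR G) • (el a - 1 : GR G)) := by
          rw [smul_eq_mul, mul_sub, mul_one, ← el_mul', inv_mul_cancel, el_one']
          abel
        rw [e]
        exact Submodule.neg_mem _ (Submodule.smul_mem _ _ ha) }
  have hHS : H ≤ S := gen H B t c hH S
    (fun b hb => (le_sup_left : LK B ≤ R) (el_mem hb))
    ((le_sup_right : Submodule.span (GR G) {(el t - 1 : GR G)} ≤ R)
      (Submodule.subset_span rfl))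
  refine Submodule.span_le.2 ?_
  rintro x ⟨h, hh, rfl⟩
  exact hHS hh

end CdHnn

open CdHnn in
theorem cd_hnn {G : Type} [Group G] (H B : Subgroup G) (t c : G) (hH : IsHNN H B t c)
    (hinf : c ≠ 1 → ∀ n : ℤ, n ≠ 0 → c ^ n ≠ 1) (hB : PdLT G (LK B) 2) : PdLT G (LK H) 2 := by
  have hBH := hH.1
  have htH := hH.2.1
  have hcB := hH.2.2.1
  have hdB := hH.2.2.2.1
  set d : G := t * c * t⁻¹ with hd
  have hdt : d * t = t * c := by rw [hd, inv_mul_cancel_right]
  have hle : LK B ≤ LK H := Submodule.span_mono (by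
    rintro x ⟨k, hk, rfl⟩
    exact ⟨k, hBH hk, rfl⟩)
  have hk1 : (el t * (el c - 1) - (el d - 1) : GR G) ∈ LK B :=
    Submodule.sub_mem _ (Submodule.smul_mem _ (el t : GR G) (el_mem hcB)) (el_mem hdB)
  let kk : LK B × GR G := (⟨el t * (el c - 1) - (el d - 1), hk1⟩, 1 - el d)
  let φ : (LK B × GR G) →ₗ[GR G] LK H :=
    LinearMap.coprod (Submodule.inclusion hle)
      (LinearMap.toSpanSingleton (GR G) (LK H) ⟨el t - 1, el_mem htH⟩)
  have hφ : ∀ z : LK B × GR G, ((φ z : LK H) : GR G) = (z.1 : GR G) + z.2 * (el t - 1) :=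
    fun z => rfl
  let ψ : GR G →ₗ[GR G] (LK B × GR G) := LinearMap.toSpanSingleton (GR G) _ kk
  have hsurj : Function.Surjective φ := by
    rintro ⟨v, hv⟩
    obtain ⟨x, hx, y, hy, hxy⟩ := Submodule.mem_sup.1 (LK_sub H B t c hH hv)
    obtain ⟨a, ha⟩ := Submodule.mem_span_singleton.1 hy
    refine ⟨(⟨x, hx⟩, a), Subtype.ext ?_⟩
    rw [hφ]
    show x + a * (el t - 1) = v
    rw [← hxy, ← ha, smul_eq_mul]
  let M : Type := (LK B × GR G) ⧸ Submodule.span (GR G) {kk}
  let π : (LK B × GR G) →ₗ[GR G] M := Submodule.mkQ _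
  have hπ : π kk = 0 := (Submodule.Quotient.mk_eq_zero _).2 (Submodule.subset_span rfl)
  let E : B → M := fun b => π (⟨el (b : G) - 1, el_mem b.2⟩, 0)
  have hE : ∀ a b : B, E (a * b) = E a + (el (a : G) : GR G) • E b := by
    intro a b
    show π _ = π _ + (el (a : G) : GR G) • π _
    rw [← map_smul, ← map_add]
    congr 1
    refine Prod.ext (Subtype.ext ?_) ?_
    · show (el ((a * b : B) : G) - 1 : GR G) = (el (a : G) - 1) + el (a : G) * (el (b : G) - 1)
      rw [Subgroup.coe_mul, el_mul', mul_sub, mul_one]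
      abel
    · show (0 : GR G) = 0 + el (a : G) * 0
      rw [mul_zero, add_zero]
  obtain ⟨D, hD, hDB, hDt⟩ := der H B t c hH E hE (π (0, 1)) (by
    intro h h'
    show π _ + (el t : GR G) • π _ = π _ + (el (t * c * t⁻¹) : GR G) • π _
    rw [← map_smul, ← map_smul, ← map_add, ← map_add, ← sub_eq_zero, ← map_sub]
    rw [← hπ]
    congr 1
    refine Prod.ext (Subtype.ext ?_) ?_
    · show ((0 : GR G) + el t * (el c - 1)) - ((el (t * c * t⁻¹) - 1) +
        el (t * c * t⁻¹) * 0) = el t * (el c - 1) - (el d - 1)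
      rw [mul_zero, add_zero, zero_add]
    · show ((1 : GR G) + el t * 0) - (0 + el (t * c * t⁻¹) * 1) = 1 - el d
      rw [mul_zero, add_zero, zero_add, mul_one])
  obtain ⟨L, hL⟩ := lin H D hD
  have hL1 : ∀ (v : GR G) (hv : v ∈ LK B), L ⟨v, hle hv⟩ = π (⟨v, hv⟩, 0) := by
    intro v hv
    have key : L.comp (Submodule.inclusion hle) = π.comp (LinearMap.inl (GR G) (LK B) (GR G)) := by
      have hspan : Submodule.span (GR G)
          {x : LK B | ∃ k ∈ B, (x : GR G) = el k - 1} = ⊤ := by
        rw [eq_top_iff]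
        rintro ⟨w, hw⟩ -
        refine Submodule.span_induction
          (p := fun w hw => (⟨w, hw⟩ : LK B) ∈ Submodule.span (GR G)
            {x : LK B | ∃ k ∈ B, (x : GR G) = el k - 1}) ?_ ?_ ?_ ?_ hw
        · rintro x ⟨k, hk, rfl⟩
          exact Submodule.subset_span ⟨k, hk, rfl⟩
        · exact Submodule.zero_mem _
        · intro x y hx hy h1 h2
          exact Submodule.add_mem _ h1 h2
        · intro a x hx h1
          exact Submodule.smul_mem _ a h1
      refine LinearMap.ext_on hspan ?_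
      rintro ⟨w, hw⟩ ⟨k, hk, hwk⟩
      have hwk' : w = el k - 1 := hwk
      subst hwk'
      show L ⟨el k - 1, _⟩ = π (⟨el k - 1, hw⟩, 0)
      have h1 := hL ⟨k, hBH hk⟩ (hle hw)
      have h2 := hDB k hk (hBH hk)
      exact h1.trans h2
    exact LinearMap.congr_fun key ⟨v, hv⟩
  have hLφ : ∀ z, L (φ z) = π z := by
    rintro ⟨⟨v, hv⟩, a⟩
    have e1 : φ (⟨v, hv⟩, a) = ⟨v, hle hv⟩ + a • ⟨el t - 1, el_mem htH⟩ := rfl
    have e2 : ((⟨v, hv⟩, a) : LK B × GR G) = (⟨v, hv⟩, 0) + a • (0, 1) := by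
      refine Prod.ext ?_ ?_
      · show (⟨v, hv⟩ : LK B) = ⟨v, hv⟩ + a • 0
        rw [smul_zero, add_zero]
      · show a = 0 + a * 1
        rw [mul_one, zero_add]
    rw [e1, map_add, map_smul, hL1 v hv, hL ⟨t, htH⟩ (el_mem htH), hDt htH, e2, map_add, map_smul]
  have hφkk : φ kk = 0 := by
    apply Subtype.ext
    rw [hφ]
    show (el t * (el c - 1) - (el d - 1) : GR G) + (1 - el d) * (el t - 1) = 0
    have h1 : (el d * el t : GR G) = el t * el c := by rw [← el_mul', ← el_mul', hdt]
    have h2 : (el t * (el c - 1) - (el d - 1) : GR G) + (1 - el d) * (el t - 1) =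
        el t * el c - el d * el t := by noncomm_ring
    rw [h2, h1, sub_self]
  have hexact : Function.Exact ψ φ := by
    intro z
    constructor
    · intro hz
      have h1 := hLφ z
      rw [hz, map_zero] at h1
      have h2 : z ∈ Submodule.span (GR G) {kk} := (Submodule.Quotient.mk_eq_zero _).1 h1.symm
      obtain ⟨a, ha⟩ := Submodule.mem_span_singleton.1 h2
      exact ⟨a, ha⟩
    · rintro ⟨a, rfl⟩
      show φ (a • kk) = 0
      rw [map_smul, hφkk, smul_zero]
  have hfree : PdLT G (GR G) 1 := pd_proj inferInstance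
  have hprod : PdLT G (LK B × GR G) 2 := by
    refine pd_two (LinearMap.inl (GR G) (LK B) (GR G)) (LinearMap.snd (GR G) (LK B) (GR G))
      LinearMap.inl_injective LinearMap.snd_surjective ?_ 2 hB (pd_mono 1 2 (by omega) hfree)
    intro z
    constructor
    · intro hz
      exact ⟨z.1, Prod.ext rfl hz.symm⟩
    · rintro ⟨x, rfl⟩
      rfl
  by_cases hc : c = 1
  · have hkk : kk = 0 := by
      have hd1 : d = 1 := by rw [hd, hc, mul_one, mul_inv_cancel]
      refine Prod.ext (Subtype.ext ?_) ?_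
      · show (el t * (el c - 1) - (el d - 1) : GR G) = 0
        rw [hc, hd1, el_one', sub_self, mul_zero, sub_zero]
      · show (1 - el d : GR G) = 0
        rw [hd1, el_one', sub_self]
    have hinj : Function.Injective φ := by
      rw [injective_iff_map_eq_zero]
      intro z hz
      obtain ⟨a, rfl⟩ := (hexact z).1 hz
      show a • kk = 0
      rw [hkk, smul_zero]
    exact pd_equiv (LinearEquiv.ofBijective φ ⟨hinj, hsurj⟩) 2 hprod
  · have hinj : Function.Injective ψ := by
      rw [injective_iff_map_eq_zero]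
      intro a ha
      have h1 : a * (1 - el d) = 0 := congrArg Prod.snd ha
      refine zero_div d ?_ a h1
      intro n hn h2
      refine hinf hc n hn ?_
      rw [hd, conj_zpow] at h2
      have h3 : t * c ^ n = t := by
        rw [mul_inv_eq_iff_eq_mul, one_mul] at h2
        exact h2
      exact mul_eq_left.1 h3
    exact pd_three ψ φ hinj hsurj hexact 1 hfree hprod

end PAM
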