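import Pool.Agent.PAM.Defs
import Pool.Agent.PRT.CExt

/-!
# PAM/CocAm (module PAM-CocAm): cocycles on an amalgam

Let `f` be a cocycle on `H`.  The restrictions to `B` and `A` are coboundaries.  Let `E` be the central extension
of `H` by `ℚ/ℤ` given by `f` (the set `QZ × H`; or `PRT/CExt.lean`, `PF/ExtBuild.lean`).  The coboundaries give
homomorphisms `B → E` and `A → E` over `H`; on `B ⊓ A` they differ by a homomorphism to `ℚ/ℤ`; by `OntoQ` they
can be changed so that they agree on `B ⊓ A`; by the universal property they glue to a homomorphism `H → E`, which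
is a section (uniqueness); so `f` is a coboundary.
-/

set_option autoImplicit false

open PFC PAL

namespace PAM

/-- a homomorphic lift of a subgroup on which the cocycle is a coboundary -/
private theorem cocAm_lift {G : Type} [Group G] (H B : Subgroup G) (hBH : B ≤ H)
    (hB : H2z B) {f : H → H → PF.QZ} (hf : PF.IsCoc f) {E : Type} [Group E] {p : E →* H}
    {s : H → E} {i : PF.QZ → E} (hE : PRT.CExt f p s i) :
    ∃ (b : B → PF.QZ) (φ : B →* E), ∀ x : B, φ x = i (b x) * s ⟨x, hBH x.2⟩ := by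
  obtain ⟨b, hb⟩ := hB (fun x y => f ⟨x, hBH x.2⟩ ⟨y, hBH y.2⟩)
    (fun x y z => hf ⟨x, hBH x.2⟩ ⟨y, hBH y.2⟩ ⟨z, hBH z.2⟩)
  refine ⟨fun x => - b x, MonoidHom.mk' (fun x => i (- b x) * s ⟨x, hBH x.2⟩) ?_, fun x => rfl⟩
  intro x y
  have h1 := hE.coc ⟨x, hBH x.2⟩ ⟨y, hBH y.2⟩
  have h2 : f ⟨x, hBH x.2⟩ ⟨y, hBH y.2⟩ = b x + b y - b (x * y) := hb x y
  rw [h2] at h1
  have h3 : (⟨x, hBH x.2⟩ * ⟨y, hBH y.2⟩ : H) = ⟨((x * y : B) : G), hBH (x * y).2⟩ := rfl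
  rw [h3] at h1
  symm
  calc i (- b x) * s ⟨x, hBH x.2⟩ * (i (- b y) * s ⟨y, hBH y.2⟩)
      = i (- b x) * (s ⟨x, hBH x.2⟩ * i (- b y)) * s ⟨y, hBH y.2⟩ := by
        simp only [mul_assoc]
    _ = i (- b x) * (i (- b y) * s ⟨x, hBH x.2⟩) * s ⟨y, hBH y.2⟩ := by
        rw [hE.cen (- b y) (s ⟨x, hBH x.2⟩)]
    _ = i (- b x) * i (- b y) * (s ⟨x, hBH x.2⟩ * s ⟨y, hBH y.2⟩) := by
        simp only [mul_assoc]
    _ = i (- b x + - b y + (b x + b y - b (x * y))) * s ⟨((x * y : B) : G), hBH (x * y).2⟩ := by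
        rw [h1, hE.add, hE.add, mul_assoc, mul_assoc, mul_assoc]
    _ = i (- b (x * y)) * s ⟨((x * y : B) : G), hBH (x * y).2⟩ := by
        congr 2
        abel

/-- twisting a homomorphism by a homomorphism to the centre -/
private theorem cocAm_tw {B E Q : Type} [Group B] [Group E] [Group Q] {f : Q → Q → PF.QZ}
    {p : E →* Q} {s : Q → E} {i : PF.QZ → E} (hE : PRT.CExt f p s i) (φ : B →* E)
    (χ : B →* Multiplicative PF.QZ) :
    ∃ ψ : B →* E, ∀ x, ψ x = i (Multiplicative.toAdd (χ x)) * φ x := by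
  refine ⟨MonoidHom.mk' (fun x => i (Multiplicative.toAdd (χ x)) * φ x) ?_, fun x => rfl⟩
  intro x y
  simp only [map_mul, toAdd_mul]
  rw [hE.add]
  calc i (Multiplicative.toAdd (χ x)) * i (Multiplicative.toAdd (χ y)) * (φ x * φ y)
      = i (Multiplicative.toAdd (χ x)) * (i (Multiplicative.toAdd (χ y)) * φ x) * φ y := by
        simp only [mul_assoc]
    _ = i (Multiplicative.toAdd (χ x)) * (φ x * i (Multiplicative.toAdd (χ y))) * φ y := by
        rw [hE.cen (Multiplicative.toAdd (χ y)) (φ x)]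
    _ = i (Multiplicative.toAdd (χ x)) * φ x * (i (Multiplicative.toAdd (χ y)) * φ y) := by
        simp only [mul_assoc]

theorem coc_amalg {G : Type} [Group G] (H B A : Subgroup G) (hH : IsAmalgam H B A)
    (hB : H2z B) (hA : H2z A) (ho : OntoQ B A) : H2z H := by
  intro f hf
  obtain ⟨E, iE, p, s, i, hE⟩ := PRT.exists_cext H f hf
  obtain ⟨hBH, hAH, huniv⟩ := hH
  obtain ⟨b, φB, hφB⟩ := cocAm_lift H B hBH hB hf hE
  obtain ⟨a, φA, hφA⟩ := cocAm_lift H A hAH hA hf hE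
  have i0 : i 0 = 1 := by
    have h := hE.add 0 0
    rw [add_zero] at h
    exact (left_eq_mul.1 h)
  -- the difference on the intersection
  have hdiff : ∀ x y : (B ⊓ A : Subgroup G),
      (b ⟨(x * y : (B ⊓ A : Subgroup G)), (x * y).2.1⟩ - a ⟨(x * y : (B ⊓ A : Subgroup G)), (x * y).2.2⟩) =
      (b ⟨x, x.2.1⟩ - a ⟨x, x.2.2⟩) + (b ⟨y, y.2.1⟩ - a ⟨y, y.2.2⟩) := by
    intro x y
    have hq : ∀ z : (B ⊓ A : Subgroup G), φB ⟨z, z.2.1⟩ =
        i (b ⟨z, z.2.1⟩ - a ⟨z, z.2.2⟩) * φA ⟨z, z.2.2⟩ := by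
      intro z
      rw [hφB, hφA, ← mul_assoc, ← hE.add, sub_add_cancel]
    have h1 := hq (x * y)
    have h2 : φB ⟨(x * y : (B ⊓ A : Subgroup G)), (x * y).2.1⟩ =
        φB ⟨x, x.2.1⟩ * φB ⟨y, y.2.1⟩ := by
      rw [← map_mul]
      rfl
    have h3 : φA ⟨(x * y : (B ⊓ A : Subgroup G)), (x * y).2.2⟩ =
        φA ⟨x, x.2.2⟩ * φA ⟨y, y.2.2⟩ := by
      rw [← map_mul]
      rfl
    rw [h2, h3, hq x, hq y] at h1
    apply hE.inj
    apply mul_right_cancel (b := φA ⟨x, x.2.2⟩ * φA ⟨y, y.2.2⟩)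
    rw [← h1, hE.add]
    simp only [mul_assoc]
    congr 1
    rw [← mul_assoc, ← hE.cen, mul_assoc]
  obtain ⟨f1, g1, h1⟩ := ho (MonoidHom.mk' (fun x : (B ⊓ A : Subgroup G) =>
    Multiplicative.ofAdd (b ⟨x, x.2.1⟩ - a ⟨x, x.2.2⟩)) (by
      intro x y
      rw [← ofAdd_add, ← hdiff x y]))
  obtain ⟨ψB, hψB⟩ := cocAm_tw hE φB f1⁻¹
  obtain ⟨ψA, hψA⟩ := cocAm_tw hE φA g1
  have hagree : ∀ (x : G) (hxB : x ∈ B) (hxA : x ∈ A), ψB ⟨x, hxB⟩ = ψA ⟨x, hxA⟩ := by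
    intro x hxB hxA
    have h2 := h1 x ⟨hxB, hxA⟩
    have h3 : b ⟨x, hxB⟩ - a ⟨x, hxA⟩ = Multiplicative.toAdd (f1 ⟨x, hxB⟩) +
        Multiplicative.toAdd (g1 ⟨x, hxA⟩) := congrArg Multiplicative.toAdd h2
    rw [hψB, hψA, hφB, hφA, ← mul_assoc, ← mul_assoc, ← hE.add, ← hE.add]
    congr 2
    have h4 : Multiplicative.toAdd ((f1⁻¹) ⟨x, hxB⟩) = - Multiplicative.toAdd (f1 ⟨x, hxB⟩) := rfl
    rw [h4]
    have h5 : b ⟨x, hxB⟩ = Multiplicative.toAdd (f1 ⟨x, hxB⟩) +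
        Multiplicative.toAdd (g1 ⟨x, hxA⟩) + a ⟨x, hxA⟩ := by
      rw [← h3, sub_add_cancel]
    rw [h5]
    abel
  obtain ⟨F, ⟨hFB, hFA⟩, _⟩ := huniv E ψB ψA hagree
  -- the composite with the projection is the identity
  have hpB : ∀ x : B, p (ψB x) = ⟨x, hBH x.2⟩ := by
    intro x
    rw [hψB, hφB, map_mul, map_mul, hE.sec, (hE.ker _).2 ⟨_, rfl⟩, (hE.ker _).2 ⟨_, rfl⟩,
      one_mul, one_mul]
  have hpA : ∀ x : A, p (ψA x) = ⟨x, hAH x.2⟩ := by
    intro x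
    rw [hψA, hφA, map_mul, map_mul, hE.sec, (hE.ker _).2 ⟨_, rfl⟩, (hE.ker _).2 ⟨_, rfl⟩,
      one_mul, one_mul]
  have hid : ∀ x : H, p (F x) = x := by
    obtain ⟨F0, _, huniq⟩ := huniv H (Subgroup.inclusion hBH) (Subgroup.inclusion hAH)
      (fun x hxB hxA => rfl)
    have e1 := huniq (p.comp F) ⟨fun x hxB hxH => by
        rw [MonoidHom.comp_apply, hFB x hxB hxH, hpB]
        rfl, fun x hxA hxH => by
        rw [MonoidHom.comp_apply, hFA x hxA hxH, hpA]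
        rfl⟩
    have e2 := huniq (MonoidHom.id H) ⟨fun x hxB hxH => rfl, fun x hxA hxH => rfl⟩
    intro x
    have e3 : (p.comp F) x = (MonoidHom.id H) x := by rw [e1, e2]
    exact e3
  have hc : ∀ x : H, ∃ c, i c = F x * (s x)⁻¹ := by
    intro x
    apply (hE.ker _).1
    rw [map_mul, map_inv, hid, hE.sec, mul_inv_cancel]
  choose c hc using hc
  have hc' : ∀ x : H, F x = i (c x) * s x := fun x => by rw [hc, inv_mul_cancel_right]
  refine ⟨fun x => - c x, fun x y => ?_⟩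
  have h6 : i (c (x * y)) = i (c x + c y + f x y) := by
    apply mul_right_cancel (b := s (x * y))
    calc i (c (x * y)) * s (x * y) = F (x * y) := (hc' _).symm
      _ = F x * F y := map_mul _ _ _
      _ = i (c x) * (s x * i (c y)) * s y := by rw [hc' x, hc' y]; simp only [mul_assoc]
      _ = i (c x) * (i (c y) * s x) * s y := by rw [hE.cen (c y) (s x)]
      _ = i (c x) * i (c y) * (s x * s y) := by simp only [mul_assoc]
      _ = i (c x + c y + f x y) * s (x * y) := by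
        rw [hE.coc, hE.add, hE.add]; simp only [mul_assoc]
  have h7 := hE.inj h6
  show f x y = - c x + - c y - - c (x * y)
  rw [h7]
  abel

end PAM
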