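import Pool.Agent.PAM.Defs
import Pool.Agent.PF.ExtCob

/-!
# PAM/CocBase (module PAM-CocBase): vanishing second homology and cocycles

A cocycle `f` gives a homomorphism `ψ` from the inhomogeneous 2-chains `(B × B) →₀ ℤ` to `ℚ/ℤ` which kills the
boundaries (see `hm_bd` in `PRT/H2Map.lean`).  Since the second homology vanishes every cycle is a boundary
(`H2π_eq_zero_iff`), so `ψ` kills the kernel of `d₂₁` and factors through the range of `d₂₁`; extend to the
1-chains by injectivity of `ℚ/ℤ` (`Module.Baer.of_divisible`, see `PF/ExtCob.lean`).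
-/

set_option autoImplicit false

open PFC PAL CategoryTheory groupHomology

namespace PAM

private theorem cocBase_d21 (H : Type) [Group H] (g h : H) (a : ℤ) :
    (d₂₁ (Rep.trivial ℤ H ℤ)).hom (Finsupp.single (g, h) a)
      = Finsupp.single h a - Finsupp.single (g * h) a + Finsupp.single g a := by
  have := d₂₁_single (A := Rep.trivial ℤ H ℤ) (g, h) a
  simpa using this

private theorem cocBase_d32 (H : Type) [Group H] (g h j : H) (a : ℤ) :
    (d₃₂ (Rep.trivial ℤ H ℤ)).hom (Finsupp.single (g, h, j) a)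
      = Finsupp.single (h, j) a - Finsupp.single (g * h, j) a + Finsupp.single (g, h * j) a
        - Finsupp.single (g, h) a := by
  have := d₃₂_single (A := Rep.trivial ℤ H ℤ) (g, h, j) a
  simpa using this

/-- the character of a cocycle kills the boundaries -/
private theorem cocBase_bd (H : Type) [Group H] (f : H → H → PF.QZ) (hf : PF.IsCoc f)
    (w : H × H × H →₀ ℤ) :
    (Finsupp.liftAddHom fun x : H × H => (zmultiplesHom PF.QZ) (f x.1 x.2))
      ((d₃₂ (Rep.trivial ℤ H ℤ)).hom w) = 0 := by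
  let ψ : (H × H →₀ ℤ) →+ PF.QZ :=
    Finsupp.liftAddHom fun x : H × H => (zmultiplesHom PF.QZ) (f x.1 x.2)
  have hψ : ∀ (g h : H) (a : ℤ), ψ (Finsupp.single (g, h) a) = a • f g h := fun g h a => by
    simp [ψ]
  have key : ψ.comp ((d₃₂ (Rep.trivial ℤ H ℤ)).hom.toAddMonoidHom) = 0 := by
    refine Finsupp.addHom_ext fun x a => ?_
    obtain ⟨g, h, k⟩ := x
    have e2 : (d₃₂ (Rep.trivial ℤ H ℤ)).hom.toAddMonoidHom (Finsupp.single (g, h, k) a)
        = Finsupp.single (h, k) a - Finsupp.single (g * h, k) a + Finsupp.single (g, h * k) a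
          - Finsupp.single (g, h) a := cocBase_d32 H g h k a
    rw [AddMonoidHom.comp_apply, e2, map_sub, map_add, map_sub, hψ, hψ, hψ, hψ,
      AddMonoidHom.zero_apply, ← smul_sub, ← smul_add, ← smul_sub]
    have h1 := hf g h k
    have h2 : f h k - f (g * h) k + f g (h * k) - f g h = 0 := by
      rw [sub_add_eq_add_sub, h1]
      abel
    rw [h2, smul_zero]
  exact DFunLike.congr_fun key w

theorem coc_of_h2 (B : Type) [Group B]
    (h : Limits.IsZero (groupHomology (Rep.trivial ℤ B ℤ) 2)) : H2z B := by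
  intro f hf
  let ψ : (B × B →₀ ℤ) →+ PF.QZ :=
    Finsupp.liftAddHom fun x : B × B => (zmultiplesHom PF.QZ) (f x.1 x.2)
  have hψ : ∀ (g h : B) (a : ℤ), ψ (Finsupp.single (g, h) a) = a • f g h := fun g h a => by
    simp [ψ]
  let δ : (B × B →₀ ℤ) →+ (B →₀ ℤ) := (d₂₁ (Rep.trivial ℤ B ℤ)).hom.toAddMonoidHom
  have hδ : ∀ (g h : B) (a : ℤ), δ (Finsupp.single (g, h) a)
      = Finsupp.single h a - Finsupp.single (g * h) a + Finsupp.single g a :=
    fun g h a => cocBase_d21 B g h a
  have hker : ∀ z : B × B →₀ ℤ, δ z = 0 → ψ z = 0 := by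
    intro z hz
    let z' : cycles₂ (Rep.trivial ℤ B ℤ) := ⟨z, hz⟩
    have h1 : H2π (Rep.trivial ℤ B ℤ) z' = 0 := by
      rw [ModuleCat.isZero_iff_subsingleton] at h
      exact Subsingleton.elim _ _
    rw [H2π_eq_zero_iff] at h1
    obtain ⟨w, hw⟩ := h1
    have h3 := cocBase_bd B f hf w
    have h4 : (d₃₂ (Rep.trivial ℤ B ℤ)).hom w = z := hw
    rw [h4] at h3
    exact h3
  have hk' : δ.ker ≤ ψ.ker := fun z hz => hker z hz
  obtain ⟨χ, hχ⟩ := (Module.Baer.of_divisible PF.QZ).extension_property_addMonoidHom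
    (QuotientAddGroup.kerLift δ) (QuotientAddGroup.kerLift_injective δ)
    (QuotientAddGroup.lift δ.ker ψ hk')
  have hχ' : ∀ z, χ (δ z) = ψ z := fun z => by
    have := DFunLike.congr_fun hχ (QuotientAddGroup.mk z)
    simpa using this
  refine ⟨fun g => χ (Finsupp.single g 1), fun g k => ?_⟩
  have h5 := hχ' (Finsupp.single (g, k) 1)
  rw [hδ, hψ, one_smul, map_add, map_sub] at h5
  rw [← h5]
  abel

end PAM
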