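import Pool.Agent.PAM.Defs

/-!
# PAM/CocHnn (module PAM-CocHnn): cocycles on an HNN extension over a cyclic subgroup

As in `PAM/CocAm.lean`: `E` the central extension of `H` by `ℚ/ℤ`, `σ : B → E` a homomorphism over `H`, `y ∈ E` over
`t`.  Then `y σ(c) y⁻¹ = σ(t c t⁻¹) q` with `q ∈ ℚ/ℤ` (`q = 0` if `c = 1`).  If `c ≠ 1` let `h : B → Z` be as in
`ho`, `m = h(t c t⁻¹) - h(c) ≠ 0` and `q = m q'`; change `σ` by the homomorphism `x ↦ h(x) q'`; then the universal
property applies.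
-/

set_option autoImplicit false

open PFC PAL

namespace PAM

theorem coc_hnn {G : Type} [Group G] (H B : Subgroup G) (t c : G) (hH : IsHNN H B t c)
    (hB : H2z B)
    (ho : c = 1 ∨ ∃ h : B →* Multiplicative ℤ,
      h ⟨t * c * t⁻¹, hH.2.2.2.1⟩ ≠ h ⟨c, hH.2.2.1⟩) : H2z H := by
  sorry

end PAM
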