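import Pool.Agent.PAM.Defs

/-!
# PAM/CountAm (module PAM-CountAm): homomorphisms from an amalgam to `Z/p`

`Hom(H, Z/p)` is the kernel of the homomorphism `(f, g) ↦ f|C / g|C` from `Hom(B, Z/p) × Hom(A, Z/p)` to
`Hom(C, Z/p)`, `C = B ⊓ A`, by the universal property; `Hom(C, Z/p)` has `p ^ t` elements as `C` is free
with basis `c`.
-/

set_option autoImplicit false

open PFC PAL

namespace PAM

private theorem CountAm_fin {p : ℕ} [Fact p.Prime] {G : Type} [Group G] {B : Subgroup G}
    (hB : B.FG) : Finite (B →* Multiplicative (ZMod p)) := by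
  have h1 : Group.FG B := (Group.fg_iff_subgroup_fg B).2 hB
  obtain ⟨S, hS⟩ := h1.out
  refine Finite.of_injective
    (fun (f : B →* Multiplicative (ZMod p)) => fun s : S => f (s : B)) ?_
  intro f g hfg
  refine MonoidHom.eq_of_eqOn_dense hS fun x hx => ?_
  exact congrFun hfg ⟨x, hx⟩

private noncomputable def CountAm_phi (p : ℕ) {G : Type} [Group G] (B A : Subgroup G) :
    (B →* Multiplicative (ZMod p)) × (A →* Multiplicative (ZMod p)) →*
      ((B ⊓ A : Subgroup G) →* Multiplicative (ZMod p)) :=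
  ((MonoidHom.compHom' (Subgroup.inclusion (inf_le_left : B ⊓ A ≤ B))).comp (MonoidHom.fst _ _)) /
    ((MonoidHom.compHom' (Subgroup.inclusion (inf_le_right : B ⊓ A ≤ A))).comp
      (MonoidHom.snd _ _))

private theorem CountAm_phi_apply (p : ℕ) {G : Type} [Group G] (B A : Subgroup G)
    (f : B →* Multiplicative (ZMod p)) (g : A →* Multiplicative (ZMod p)) (x : G)
    (hx : x ∈ B ⊓ A) : CountAm_phi p B A (f, g) ⟨x, hx⟩ = f ⟨x, hx.1⟩ / g ⟨x, hx.2⟩ := rfl

private noncomputable def CountAm_psi (p : ℕ) {G : Type} [Group G] {H B A : Subgroup G}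
    (hB : B ≤ H) (hA : A ≤ H) :
    (H →* Multiplicative (ZMod p)) →*
      (B →* Multiplicative (ZMod p)) × (A →* Multiplicative (ZMod p)) :=
  (MonoidHom.compHom' (Subgroup.inclusion hB)).prod (MonoidHom.compHom' (Subgroup.inclusion hA))

private theorem CountAm_inj (p : ℕ) {G : Type} [Group G] {H B A : Subgroup G}
    (hH : IsAmalgam H B A) : Function.Injective (CountAm_psi p hH.1 hH.2.1) := by
  intro F F' hFF
  have h1 : ∀ (x : G) (hB : x ∈ B) (hH' : x ∈ H), F' ⟨x, hH'⟩ = F ⟨x, hH'⟩ := fun x hB _ =>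
    DFunLike.congr_fun (congrArg Prod.fst hFF.symm) (⟨x, hB⟩ : B)
  have h2 : ∀ (x : G) (hA : x ∈ A) (hH' : x ∈ H), F' ⟨x, hH'⟩ = F ⟨x, hH'⟩ := fun x hA _ =>
    DFunLike.congr_fun (congrArg Prod.snd hFF.symm) (⟨x, hA⟩ : A)
  refine (hH.2.2 (Multiplicative (ZMod p)) (F.comp (Subgroup.inclusion hH.1))
    (F.comp (Subgroup.inclusion hH.2.1)) fun _ _ _ => rfl).unique ⟨?_, ?_⟩ ⟨?_, ?_⟩
  · exact fun _ _ _ => rfl
  · exact fun _ _ _ => rfl
  · exact h1
  · exact h2

private theorem CountAm_range (p : ℕ) {G : Type} [Group G] {H B A : Subgroup G}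
    (hH : IsAmalgam H B A) : (CountAm_psi p hH.1 hH.2.1).range = (CountAm_phi p B A).ker := by
  ext ⟨f, g⟩
  rw [MonoidHom.mem_ker]
  constructor
  · rintro ⟨F, hF⟩
    rw [← hF]
    refine MonoidHom.ext fun x => ?_
    exact div_self' (F ⟨x, _⟩)
  · intro h
    have h1 : ∀ (x : G) (hB : x ∈ B) (hA : x ∈ A), f ⟨x, hB⟩ = g ⟨x, hA⟩ := by
      intro x hB hA
      have h2 := DFunLike.congr_fun h (⟨x, hB, hA⟩ : (B ⊓ A : Subgroup G))
      rw [CountAm_phi_apply] at h2
      exact div_eq_one.1 h2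
    obtain ⟨F, ⟨hF1, hF2⟩, -⟩ := hH.2.2 (Multiplicative (ZMod p)) f g h1
    refine ⟨F, Prod.ext (MonoidHom.ext fun x => ?_) (MonoidHom.ext fun x => ?_)⟩
    · exact hF1 x x.2 (hH.1 x.2)
    · exact hF2 x x.2 (hH.2.1 x.2)

private theorem CountAm_free (p : ℕ) [Fact p.Prime] {G : Type} [Group G] {C : Subgroup G} {t : ℕ}
    {c : Fin t → G} (hc : Subgroup.closure (Set.range c) = C)
    (hci : Function.Injective (FreeGroup.lift c)) :
    Nat.card (C →* Multiplicative (ZMod p)) = p ^ t := by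
  have e1 : FreeGroup (Fin t) ≃* (FreeGroup.lift c).range := MonoidHom.ofInjective hci
  have h1 : (FreeGroup.lift c).range = C := by rw [FreeGroup.range_lift_eq_closure, hc]
  let e : FreeGroup (Fin t) ≃* C := e1.trans (MulEquiv.subgroupCongr h1)
  let e2 : (C →* Multiplicative (ZMod p)) ≃ (FreeGroup (Fin t) →* Multiplicative (ZMod p)) :=
    { toFun := fun h => h.comp e.toMonoidHom
      invFun := fun k => k.comp e.symm.toMonoidHom
      left_inv := fun h => MonoidHom.ext fun x => congrArg h (e.apply_symm_apply x)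
      right_inv := fun k => MonoidHom.ext fun x => congrArg k (e.symm_apply_apply x) }
  have h2 : Nat.card (Multiplicative (ZMod p)) = p := Nat.card_zmod p
  rw [Nat.card_congr (e2.trans FreeGroup.lift.symm), Nat.card_fun, h2, Nat.card_fin]

theorem count_amalg {G : Type} [Group G] (p : ℕ) [Fact p.Prime] (H B A : Subgroup G)
    (hH : IsAmalgam H B A) (hB : B.FG) (hA : A.FG) (t : ℕ) (c : Fin t → G)
    (hc : Subgroup.closure (Set.range c) = B ⊓ A) (hci : Function.Injective (FreeGroup.lift c)) :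
    hp p B * hp p A ≤ hp p H * p ^ t ∧
      (hp p H * p ^ t ≤ hp p B * hp p A → OntoP p B A) := by
  have hfB : Finite (B →* Multiplicative (ZMod p)) := CountAm_fin hB
  have hfA : Finite (A →* Multiplicative (ZMod p)) := CountAm_fin hA
  have hinj := CountAm_inj p hH
  have hfH : Finite (H →* Multiplicative (ZMod p)) := Finite.of_injective _ hinj
  have hC : Nat.card ((B ⊓ A : Subgroup G) →* Multiplicative (ZMod p)) = p ^ t :=
    CountAm_free p hc hci
  have hp0 : 0 < p ^ t := pow_pos (Fact.out : p.Prime).pos t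
  have hfC : Finite ((B ⊓ A : Subgroup G) →* Multiplicative (ZMod p)) := by
    refine Nat.finite_of_card_ne_zero ?_
    rw [hC]
    exact hp0.ne'
  have hker : Nat.card (CountAm_phi p B A).ker = hp p H := by
    rw [← CountAm_range p hH]
    exact (Nat.card_congr (MonoidHom.ofInjective hinj).toEquiv).symm
  have hmul : hp p H * Nat.card (CountAm_phi p B A).range = hp p B * hp p A := by
    have h1 := (CountAm_phi p B A).ker.card_mul_index
    rw [Subgroup.index_ker, hker, Nat.card_prod] at h1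
    exact h1
  constructor
  · rw [← hmul]
    refine Nat.mul_le_mul_left _ ?_
    rw [← hC]
    exact Subgroup.card_le_card_group _
  · intro h
    rw [← hmul] at h
    have hH0 : 0 < hp p H := Nat.card_pos
    have h1 : p ^ t ≤ Nat.card (CountAm_phi p B A).range := Nat.le_of_mul_le_mul_left h hH0
    have h2 : (CountAm_phi p B A).range = ⊤ := by
      refine Subgroup.eq_top_of_le_card _ ?_
      rw [hC]
      exact h1
    intro k
    have h3 : k ∈ (CountAm_phi p B A).range := by
      rw [h2]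
      exact Subgroup.mem_top k
    obtain ⟨⟨f, g⟩, hfg⟩ := h3
    refine ⟨f, g⁻¹, fun x hx => ?_⟩
    rw [← hfg, CountAm_phi_apply, div_eq_mul_inv, MonoidHom.inv_apply]

end PAM
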