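import Pool.Agent.PAM.Defs

/-!
# PAM/CountHnn (module PAM-CountHnn): homomorphisms from an HNN extension to `Z/p`

`Hom(H, Z/p)` is the set of pairs of `Hom(B, Z/p) × Z/p` whose first component `h` satisfies
`h(c) = h(t c t⁻¹)` (universal property); this is a subgroup of index `1` or `p` of `Hom(B, Z/p)`.
-/

set_option autoImplicit false

open PFC PAL

namespace PAM

private theorem ch_finite {B : Type} [Group B] (hB : Group.FG B) (p : ℕ) [Fact p.Prime] :
    Finite (B →* Multiplicative (ZMod p)) := by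
  obtain ⟨S, hS⟩ := Group.fg_iff_subgroup_fg (⊤ : Subgroup B) |>.1
    (Group.fg_of_surjective (f := (Subgroup.topEquiv (G := B)).symm.toMonoidHom)
      (Subgroup.topEquiv (G := B)).symm.surjective)
  haveI : Finite (Multiplicative (ZMod p)) := inferInstanceAs (Finite (ZMod p))
  refine Finite.of_injective
    (fun (f : B →* Multiplicative (ZMod p)) (x : S) => f (x : B)) ?_
  intro f g h
  refine MonoidHom.eq_of_eqOn_dense hS ?_
  intro x hx
  exact congrFun h ⟨x, hx⟩

/-- the homomorphism `f ↦ f x / f y` -/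
private noncomputable def chPhi {B : Type} [Group B] (p : ℕ) (x y : B) :
    (B →* Multiplicative (ZMod p)) →* Multiplicative (ZMod p) where
  toFun f := f x / f y
  map_one' := by simp
  map_mul' f g := by
    simp only [MonoidHom.mul_apply]
    rw [mul_div_mul_comm]

private theorem ch_card {B : Type} [Group B] (hB : Group.FG B) (p : ℕ) [Fact p.Prime] (x y : B) :
    ∃ r : ℕ, 1 ≤ r ∧ r ≤ p ∧ hp p B = Nat.card (chPhi p x y).ker * r ∧
      0 < Nat.card (chPhi p x y).ker ∧ (1 < r → ∃ h : B →* Multiplicative (ZMod p), h x ≠ h y) := by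
  haveI := ch_finite hB p
  haveI : Finite (Multiplicative (ZMod p)) := inferInstanceAs (Finite (ZMod p))
  refine ⟨Nat.card (chPhi p x y).range, ?_, ?_, ?_, ?_, ?_⟩
  · exact Nat.card_pos
  · have h1 : Nat.card (chPhi p x y).range ≤ Nat.card (Multiplicative (ZMod p)) :=
      Nat.card_le_card_of_injective _ (Subtype.val_injective)
    have h2 : Nat.card (Multiplicative (ZMod p)) = p := by
      change Nat.card (ZMod p) = p
      rw [Nat.card_zmod]
    rwa [h2] at h1
  · have h1 := Subgroup.card_mul_index (chPhi p x y).ker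
    rw [Subgroup.index_ker] at h1
    exact h1.symm
  · exact Nat.card_pos
  · intro h1
    by_contra hcon
    push Not at hcon
    have h2 : Nat.card (chPhi p x y).range = 1 := by
      rw [Nat.card_eq_one_iff_unique]
      refine ⟨⟨?_⟩, ⟨1⟩⟩
      rintro ⟨_, f, rfl⟩ ⟨_, g, rfl⟩
      apply Subtype.ext
      change f x / f y = g x / g y
      rw [hcon f, hcon g, div_self', div_self']
    omega

private theorem ch_hnn {G : Type} [Group G] (p : ℕ) [Fact p.Prime] (H B : Subgroup G) (t c : G)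
    (hH : IsHNN H B t c) :
    hp p H = Nat.card (chPhi p (⟨t * c * t⁻¹, hH.2.2.2.1⟩ : B) (⟨c, hH.2.2.1⟩ : B)).ker * p := by
  obtain ⟨hle, ht, hc, hc', huni⟩ := hH
  have hmem : ∀ F : H →* Multiplicative (ZMod p), F.comp (Subgroup.inclusion hle) ∈
      (chPhi p (⟨t * c * t⁻¹, hc'⟩ : B) (⟨c, hc⟩ : B)).ker := by
    intro F
    rw [MonoidHom.mem_ker]
    change F ⟨t * c * t⁻¹, hle hc'⟩ / F ⟨c, hle hc⟩ = 1
    have h1 : (⟨t * c * t⁻¹, hle hc'⟩ : H) = ⟨t, ht⟩ * ⟨c, hle hc⟩ * ⟨t, ht⟩⁻¹ := rfl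
    rw [h1, map_mul, map_mul, map_inv, mul_comm (F ⟨t, ht⟩), mul_inv_cancel_right, div_self']
  let Ψ : (H →* Multiplicative (ZMod p)) →
      (chPhi p (⟨t * c * t⁻¹, hc'⟩ : B) (⟨c, hc⟩ : B)).ker × Multiplicative (ZMod p) :=
    fun F => (⟨F.comp (Subgroup.inclusion hle), hmem F⟩, F ⟨t, ht⟩)
  have hker : ∀ f : B →* Multiplicative (ZMod p),
      f ∈ (chPhi p (⟨t * c * t⁻¹, hc'⟩ : B) (⟨c, hc⟩ : B)).ker →
      ∀ y : Multiplicative (ZMod p), ∀ (h : c ∈ B) (h' : t * c * t⁻¹ ∈ B),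
        y * f ⟨c, h⟩ * y⁻¹ = f ⟨t * c * t⁻¹, h'⟩ := by
    intro f hf y h h'
    rw [MonoidHom.mem_ker] at hf
    have h1 : f ⟨t * c * t⁻¹, hc'⟩ / f ⟨c, hc⟩ = 1 := hf
    rw [div_eq_one] at h1
    rw [mul_comm y, mul_inv_cancel_right, ← h1]
  have hbij : Function.Bijective Ψ := by
    constructor
    · intro F F' hF
      have h1 : F.comp (Subgroup.inclusion hle) = F'.comp (Subgroup.inclusion hle) :=
        congrArg Subtype.val (congrArg Prod.fst hF)
      have h2 : F ⟨t, ht⟩ = F' ⟨t, ht⟩ := congrArg Prod.snd hF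
      obtain ⟨F0, _, hu⟩ := huni _ (F.comp (Subgroup.inclusion hle)) (F ⟨t, ht⟩)
        (hker _ (hmem F) _)
      have e1 : F = F0 := hu F ⟨fun x hB hH => rfl, fun h => rfl⟩
      have e2 : F' = F0 := hu F' ⟨fun x hB hH => by
        have h3 := DFunLike.congr_fun h1 ⟨x, hB⟩
        exact h3.symm, fun h => h2.symm⟩
      rw [e1, e2]
    · rintro ⟨⟨f, hf⟩, y⟩
      obtain ⟨F, ⟨hF1, hF2⟩, _⟩ := huni _ f y (hker f hf y)
      refine ⟨F, ?_⟩
      refine Prod.ext (Subtype.ext ?_) (hF2 ht)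
      ext x
      exact congrArg Multiplicative.toAdd (hF1 x.1 x.2 (hle x.2))
  have h1 := Nat.card_congr (Equiv.ofBijective Ψ hbij)
  rw [Nat.card_prod] at h1
  have h2 : Nat.card (Multiplicative (ZMod p)) = p := by
    change Nat.card (ZMod p) = p
    rw [Nat.card_zmod]
  rw [h2] at h1
  exact h1

open Classical in
theorem count_hnn {G : Type} [Group G] (p : ℕ) [Fact p.Prime] (H B : Subgroup G) (t c : G)
    (hH : IsHNN H B t c) (hB : B.FG) :
    hp p B * p ≤ hp p H * p ^ (if c = 1 then 0 else 1) ∧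
      (hp p H * p ^ (if c = 1 then 0 else 1) ≤ hp p B * p →
        c = 1 ∨ ∃ h : B →* Multiplicative (ZMod p),
          h ⟨t * c * t⁻¹, hH.2.2.2.1⟩ ≠ h ⟨c, hH.2.2.1⟩) := by
  have hFG : Group.FG B := (Group.fg_iff_subgroup_fg B).2 hB
  obtain ⟨r, hr1, hrp, hcard, hpos, hne⟩ := ch_card hFG p (⟨t * c * t⁻¹, hH.2.2.2.1⟩ : B)
    (⟨c, hH.2.2.1⟩ : B)
  have hH2 := ch_hnn p H B t c hH
  have hp0 : 0 < p := (Fact.out : p.Prime).pos
  obtain ⟨s, hs⟩ : ∃ s, s = Nat.card (chPhi p (⟨t * c * t⁻¹, hH.2.2.2.1⟩ : B)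
    (⟨c, hH.2.2.1⟩ : B)).ker := ⟨_, rfl⟩
  rw [← hs] at hcard hpos hH2
  rw [hcard, hH2]
  by_cases hc : c = 1
  · have hr : r = 1 := by
      by_contra hr
      obtain ⟨h, hh⟩ := hne (by omega)
      apply hh
      congr 1
      apply Subtype.ext
      change t * c * t⁻¹ = c
      rw [hc, mul_one, mul_inv_cancel]
    rw [if_pos hc, pow_zero, mul_one, hr, mul_one]
    exact ⟨le_refl _, fun _ => Or.inl hc⟩
  · rw [if_neg hc, pow_one]
    refine ⟨?_, ?_⟩
    · exact Nat.mul_le_mul_right p (Nat.mul_le_mul_left s hrp)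
    · intro h1
      right
      have h2 : s * p ≤ s * r := Nat.le_of_mul_le_mul_right h1 hp0
      have h3 : p ≤ r := Nat.le_of_mul_le_mul_left h2 hpos
      have h4 : 1 < p := (Fact.out : p.Prime).one_lt
      exact hne (by omega)

end PAM
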