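import Pool.Agent.PAM.Defs

/-!
# PAM/Cyc (module PAM-Cyc): relation rows of an amalgam over a cyclic subgroup

Let `c` generate `B ⊓ A'`.  If `c = 1` take `t = 0`.  If `c ≠ 1` take `t = 1`; `c` has infinite order
(`pow_ne_one`), so `FreeGroup.lift c` is injective.  Let `JB`, `JA'` be Fox derivatives of `c` (`exists_fund`);
the rows are `(X, 0)`, `(JB, - JA')`, `(0, X')`.  `inj`: for `v = (v', v'', w)` the columns of `B` give
`v' X + v'' JB = 0`; multiply from the right by the `el (z ν) - 1` and sum (`rel`, `Fund`, `ra_mul`):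
`v'' (c - 1) = 0`, so `v''` is constant on the infinite cosets `x⟨c⟩` and square summable, so `v'' = 0`; then
`v' = 0` and `w = 0`.
-/

set_option autoImplicit false

open PFC PAL

namespace PAM

private theorem Cyc_mono {G : Type} [Group G] {B H : Subgroup G} (h : B ≤ H) {f : GR G}
    (hf : InSub B f) : InSub H f := fun g hg => h (hf g hg)

private theorem Cyc_core {G ρ N ρ' N' κ : Type} [Group G] [Fintype ρ] [Fintype N] [Fintype ρ']
    [Fintype N'] [Fintype κ] (H B A : Subgroup G) (z : N → G)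
    (X : ρ → N → GR G) (hB : PD B z X) (z' : N' → G) (X' : ρ' → N' → GR G)
    (hA : PD A z' X') (hH : B ⊔ A = H) (c : κ → G)
    (hccl : Subgroup.closure (Set.range c) = B ⊓ A)
    (hκ : ∀ u : κ → G → ℝ, (∀ l, Sq (u l)) → (∀ x, ∑ l, ra (u l) (el (c l) - 1) x = 0) → u = 0) :
    ∃ (X'' : (ρ ⊕ (κ ⊕ ρ')) → (N ⊕ N') → GR G), PD H (Sum.elim z z') X'' := by
  have hcBA : ∀ l, c l ∈ B ⊓ A := by
    intro l
    rw [← hccl]
    exact Subgroup.subset_closure ⟨l, rfl⟩
  have hBH : B ≤ H := by rw [← hH]; exact le_sup_left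
  have hAH : A ≤ H := by rw [← hH]; exact le_sup_right
  choose JB hFB hSB using fun l => exists_fund z B hB.gen (c l) (hcBA l).1
  choose JA hFA hSA using fun l => exists_fund z' A hA.gen (c l) (hcBA l).2
  refine ⟨Sum.elim (fun i => Sum.elim (X i) fun _ => 0)
      (Sum.elim (fun l => Sum.elim (JB l) fun i => - JA l i)
        (fun r => Sum.elim (fun _ => 0) (X' r))), ⟨?_, ?_, ?_, ?_⟩⟩
  · rw [Set.Sum.elim_range, Subgroup.closure_union, hB.gen, hA.gen]
    exact hH
  · rintro (i | l | r)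
    · rw [Fintype.sum_sum_type]
      have h1 := hB.rel i
      have h2 : ∑ i' : N', (0 : GR G) * (el (z' i') - 1) = 0 :=
        Finset.sum_eq_zero fun _ _ => zero_mul _
      show ∑ ν, X i ν * (el (z ν) - 1) + ∑ i' : N', (0 : GR G) * (el (z' i') - 1) = 0
      rw [h1, h2, add_zero]
    · rw [Fintype.sum_sum_type]
      have h1 : el (c l) - 1 = ∑ ν, JB l ν * (el (z ν) - 1) := hFB l
      have h2 : el (c l) - 1 = ∑ i, JA l i * (el (z' i) - 1) := hFA l
      show ∑ ν, JB l ν * (el (z ν) - 1) + ∑ i : N', (- JA l i) * (el (z' i) - 1) = 0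
      have h3 : ∑ i : N', (- JA l i) * (el (z' i) - 1) = - (el (c l) - 1) := by
        rw [h2, ← Finset.sum_neg_distrib]
        exact Finset.sum_congr rfl fun i _ => neg_mul _ _
      rw [← h1, h3, add_neg_cancel]
    · rw [Fintype.sum_sum_type]
      have h1 := hA.rel r
      have h2 : ∑ i' : N, (0 : GR G) * (el (z i') - 1) = 0 :=
        Finset.sum_eq_zero fun _ _ => zero_mul _
      show ∑ i' : N, (0 : GR G) * (el (z i') - 1) + ∑ ν, X' r ν * (el (z' ν) - 1) = 0
      rw [h1, h2, add_zero]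
  · rintro (i | l | r) (ν | j)
    · exact Cyc_mono hBH (hB.supp i ν)
    · exact inSub_zero H
    · exact Cyc_mono hBH (hSB l ν)
    · exact inSub_neg (Cyc_mono hAH (hSA l j))
    · exact inSub_zero H
    · exact Cyc_mono hAH (hA.supp r j)
  · intro v hv h
    have hcolB : ∀ ν x, ∑ i, ra (v (Sum.inl i)) (X i ν) x +
        ∑ l, ra (v (Sum.inr (Sum.inl l))) (JB l ν) x = 0 := by
      intro ν x
      have h2 := h (Sum.inl ν) x
      rw [Fintype.sum_sum_type, Fintype.sum_sum_type] at h2
      change ∑ i, ra (v (Sum.inl i)) (X i ν) x + (∑ l, ra (v (Sum.inr (Sum.inl l))) (JB l ν) x +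
        ∑ r : ρ', ra (v (Sum.inr (Sum.inr r))) 0 x) = 0 at h2
      have h3 : ∑ r : ρ', ra (v (Sum.inr (Sum.inr r))) 0 x = 0 :=
        Finset.sum_eq_zero fun r _ => ra_zero_right _ _
      rwa [h3, add_zero] at h2
    have hcolA : ∀ ν x, ∑ l, ra (v (Sum.inr (Sum.inl l))) (- JA l ν) x +
        ∑ r, ra (v (Sum.inr (Sum.inr r))) (X' r ν) x = 0 := by
      intro ν x
      have h2 := h (Sum.inr ν) x
      rw [Fintype.sum_sum_type, Fintype.sum_sum_type] at h2
      change ∑ i : ρ, ra (v (Sum.inl i)) 0 x + (∑ l, ra (v (Sum.inr (Sum.inl l))) (- JA l ν) x +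
        ∑ r : ρ', ra (v (Sum.inr (Sum.inr r))) (X' r ν) x) = 0 at h2
      have h3 : ∑ r : ρ, ra (v (Sum.inl r)) 0 x = 0 :=
        Finset.sum_eq_zero fun r _ => ra_zero_right _ _
      rwa [h3, zero_add] at h2
    have hmid : (fun l => v (Sum.inr (Sum.inl l))) = (0 : κ → G → ℝ) := by
      apply hκ
      · exact fun l => hv _
      · intro x
        have h1 : ∀ l, ra (v (Sum.inr (Sum.inl l))) (el (c l) - 1) x =
            ∑ ν, ra (ra (v (Sum.inr (Sum.inl l))) (JB l ν)) (el (z ν) - 1) x := by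
          intro l
          have h2 : el (c l) - 1 = ∑ ν, JB l ν * (el (z ν) - 1) := hFB l
          rw [h2, ra_sum_right]
          exact Finset.sum_congr rfl fun ν _ => (ra_mul _ _ _ _).symm
        have h2 : ∀ i, ∑ ν, ra (ra (v (Sum.inl i)) (X i ν)) (el (z ν) - 1) x = 0 := by
          intro i
          have h3 : ∑ ν, ra (ra (v (Sum.inl i)) (X i ν)) (el (z ν) - 1) x =
              ra (v (Sum.inl i)) (∑ ν, X i ν * (el (z ν) - 1)) x := by
            rw [ra_sum_right]
            exact Finset.sum_congr rfl fun ν _ => ra_mul _ _ _ _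
          rw [h3, hB.rel i, ra_zero_right]
        have h3 : ∀ ν, ∑ i, ra (ra (v (Sum.inl i)) (X i ν)) (el (z ν) - 1) x +
            ∑ l, ra (ra (v (Sum.inr (Sum.inl l))) (JB l ν)) (el (z ν) - 1) x = 0 := by
          intro ν
          rw [← ra_sum_left, ← ra_sum_left, ← ra_add_left]
          have h4 : (fun y => ∑ i, ra (v (Sum.inl i)) (X i ν) y +
              ∑ l, ra (v (Sum.inr (Sum.inl l))) (JB l ν) y) = fun _ => 0 :=
            funext fun y => hcolB ν y
          rw [h4, ra_zero_left]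
        calc ∑ l, ra (v (Sum.inr (Sum.inl l))) (el (c l) - 1) x
            = ∑ l, ∑ ν, ra (ra (v (Sum.inr (Sum.inl l))) (JB l ν)) (el (z ν) - 1) x :=
              Finset.sum_congr rfl fun l _ => h1 l
          _ = ∑ ν, ∑ l, ra (ra (v (Sum.inr (Sum.inl l))) (JB l ν)) (el (z ν) - 1) x :=
              Finset.sum_comm
          _ = ∑ ν, ∑ i, ra (ra (v (Sum.inl i)) (X i ν)) (el (z ν) - 1) x +
              ∑ ν, ∑ l, ra (ra (v (Sum.inr (Sum.inl l))) (JB l ν)) (el (z ν) - 1) x := by
              rw [Finset.sum_comm (f := fun ν i => ra (ra (v (Sum.inl i)) (X i ν))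
                (el (z ν) - 1) x), Finset.sum_eq_zero fun i _ => h2 i, zero_add]
          _ = 0 := by
              rw [← Finset.sum_add_distrib]
              exact Finset.sum_eq_zero fun ν _ => h3 ν
    have hl : ∀ l, v (Sum.inr (Sum.inl l)) = 0 := fun l => congrFun hmid l
    have h0 : ∀ (f : GR G) (x : G), ra (0 : G → ℝ) f x = 0 := fun f x => ra_zero_left f x
    have hv1 : (fun i => v (Sum.inl i)) = (0 : ρ → G → ℝ) := by
      apply hB.inj
      · exact fun i => hv _
      · intro ν x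
        have h2 := hcolB ν x
        have h3 : ∑ l, ra (v (Sum.inr (Sum.inl l))) (JB l ν) x = 0 :=
          Finset.sum_eq_zero fun l _ => by rw [hl l, h0]
        rwa [h3, add_zero] at h2
    have hv2 : (fun r => v (Sum.inr (Sum.inr r))) = (0 : ρ' → G → ℝ) := by
      apply hA.inj
      · exact fun i => hv _
      · intro ν x
        have h2 := hcolA ν x
        have h3 : ∑ l, ra (v (Sum.inr (Sum.inl l))) (- JA l ν) x = 0 :=
          Finset.sum_eq_zero fun l _ => by rw [hl l, h0]
        rwa [h3, zero_add] at h2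
    funext r
    rcases r with i | l | r
    · exact congrFun hv1 i
    · exact hl l
    · exact congrFun hv2 r

private theorem Cyc_free {G : Type} [Group G] (c : G) (hc : ∀ n : ℤ, n ≠ 0 → c ^ n ≠ 1) :
    Function.Injective (FreeGroup.lift fun _ : Fin 1 => c) := by
  rw [injective_iff_map_eq_one]
  intro w hw
  have h1 : w ∈ Subgroup.closure (Set.range (FreeGroup.of : Fin 1 → FreeGroup (Fin 1))) := by
    rw [FreeGroup.closure_range_of]; trivial
  have h2 : Set.range (FreeGroup.of : Fin 1 → FreeGroup (Fin 1)) = {FreeGroup.of 0} := by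
    ext x
    constructor
    · rintro ⟨i, rfl⟩
      rw [Subsingleton.elim i 0]
      rfl
    · rintro rfl
      exact ⟨0, rfl⟩
  rw [h2, ← Subgroup.zpowers_eq_closure] at h1
  obtain ⟨n, rfl⟩ := Subgroup.mem_zpowers_iff.1 h1
  rw [map_zpow, FreeGroup.lift_apply_of] at hw
  by_cases hn : n = 0
  · rw [hn, zpow_zero]
  · exact absurd hw (hc n hn)

theorem pd_cyc {G : Type} [Group G] (hres : ∀ p : ℕ, p.Prime → ResQ p G)
    (H B A' : Subgroup G) {N ρ N' ρ' : ℕ} (hB : HasPD B N ρ) (hA' : HasPD A' N' ρ')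
    (hC : IsCyclic (B ⊓ A' : Subgroup G)) (hH : B ⊔ A' = H) :
    ∃ (t : ℕ) (c : Fin t → G), Subgroup.closure (Set.range c) = B ⊓ A' ∧
      Function.Injective (FreeGroup.lift c) ∧ HasPD H (N + N') (ρ + t + ρ') := by
  obtain ⟨z, X, hX⟩ := hB
  obtain ⟨z', X', hX'⟩ := hA'
  have hfin : ∀ (t : ℕ) (c : Fin t → G), Subgroup.closure (Set.range c) = B ⊓ A' →
      (∀ u : Fin t → G → ℝ, (∀ l, Sq (u l)) → (∀ x, ∑ l, ra (u l) (el (c l) - 1) x = 0) →
        u = 0) → HasPD H (N + N') (ρ + t + ρ') := by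
    intro t c h1 h2
    obtain ⟨X'', h3⟩ := Cyc_core H B A' z X hX z' X' hX' hH c h1 h2
    have h4 := hasPD_of H (Sum.elim z z') X'' h3
    have h5 : Fintype.card (Fin N ⊕ Fin N') = N + N' := by simp
    have h6 : Fintype.card (Fin ρ ⊕ (Fin t ⊕ Fin ρ')) = ρ + t + ρ' := by
      simp [add_assoc]
    rwa [h5, h6] at h4
  obtain ⟨⟨c, hcm⟩, hgen⟩ := hC.exists_generator
  have hz : Subgroup.zpowers c = B ⊓ A' := by
    apply le_antisymm
    · rw [Subgroup.zpowers_le]
      exact hcm
    · intro x hx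
      obtain ⟨k, hk⟩ := Subgroup.mem_zpowers_iff.1 (hgen ⟨x, hx⟩)
      refine Subgroup.mem_zpowers_iff.2 ⟨k, ?_⟩
      have := congrArg Subtype.val hk
      simpa using this
  by_cases hc : c = 1
  · have h0 : Subgroup.closure (Set.range (fun e : Fin 0 => (e.elim0 : G))) = B ⊓ A' := by
      rw [← hz, hc]
      simp
    refine ⟨0, fun e => e.elim0, h0, ?_, hfin 0 _ h0 ?_⟩
    · intro a b _
      exact Subsingleton.elim a b
    · intro u _ _
      exact Subsingleton.elim _ _
  · have h0 : Subgroup.closure (Set.range (fun _ : Fin 1 => c)) = B ⊓ A' := by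
      rw [← hz, Subgroup.zpowers_eq_closure, Set.range_const]
    refine ⟨1, fun _ => c, h0, Cyc_free c (pow_ne_one hres c hc), hfin 1 _ h0 ?_⟩
    · intro u hu h
      have h1 : ∀ x, u 0 (x * c⁻¹) = u 0 x := by
        intro x
        have h2 := h x
        rw [Fintype.sum_unique] at h2
        have h3 : ra (u 0) (el c - 1) x = u 0 (x * c⁻¹) - u 0 x := by
          rw [sub_eq_add_neg, ra_add_right, ra_neg_right, ra_el, ra_one]; ring
        have h4 : ra (u 0) (el c - 1) x = 0 := h2
        rw [h3] at h4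
        exact sub_eq_zero.1 h4
      have h2 : ∀ (n : ℕ) x, u 0 (x * c⁻¹ ^ n) = u 0 x := by
        intro n
        induction n with
        | zero => intro x; rw [pow_zero, mul_one]
        | succ n ih =>
          intro x
          rw [pow_succ, ← mul_assoc, h1, ih]
      have hinj : ∀ x : G, Function.Injective fun n : ℕ => x * c⁻¹ ^ n := by
        intro x
        have key : ∀ m n : ℕ, m < n → x * c⁻¹ ^ m = x * c⁻¹ ^ n → False := by
          intro m n hmn h3
          have h4 : c⁻¹ ^ m = c⁻¹ ^ n := mul_left_cancel h3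
          have h5 : c⁻¹ ^ (n - m) = 1 := by
            have h6 : c⁻¹ ^ n = c⁻¹ ^ m * c⁻¹ ^ (n - m) := by
              rw [← pow_add, Nat.add_sub_cancel' hmn.le]
            rw [h6] at h4
            exact (left_eq_mul.1 h4)
          rw [inv_pow, inv_eq_one] at h5
          refine pow_ne_one hres c hc ((n - m : ℕ) : ℤ) ?_ (by rw [zpow_natCast]; exact h5)
          omega
        intro m n h3
        rcases lt_trichotomy m n with h4 | h4 | h4
        · exact (key m n h4 h3).elim
        · exact h4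
        · exact (key n m h4 h3.symm).elim
      funext l x
      rw [Subsingleton.elim l 0]
      have hs : Summable fun g => u 0 g ^ 2 := hu 0
      have h3 := hs.comp_injective (hinj x)
      have h4 : ((fun g => u 0 g ^ 2) ∘ fun n : ℕ => x * c⁻¹ ^ n) = fun _ => u 0 x ^ 2 := by
        funext n
        show u 0 (x * c⁻¹ ^ n) ^ 2 = u 0 x ^ 2
        rw [h2]
      rw [h4] at h3
      have h5 : u 0 x ^ 2 = 0 := by
        have h6 := h3.tendsto_atTop_zero
        exact tendsto_nhds_unique tendsto_const_nhds h6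
      exact pow_eq_zero_iff (two_ne_zero) |>.1 h5

end PAM
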