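import Pool.Agent.PAL.Trans
import Pool.Agent.PAL.Glue
import Pool.Agent.PAL.CBas
import Pool.Agent.PF.Defs

/-!
# PAM/Defs: definitions for the general closure theorem

`HasPD B N ρ`: the subgroup `B` has `N` generators and `ρ` relation rows over the group ring of `B`, which
are independent on square summable vectors.  `hp p B`: the number of homomorphisms from `B` to `Z/p`.
`OntoP p B A`: every homomorphism from `B ⊓ A` to `Z/p` is a product of restrictions of homomorphisms of `B` and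
of `A`.  `OntoQ B A`: the same for `ℚ/ℤ`.  `LiftZ p B`: homomorphisms to `Z/p` lift to `Z` (the abelianization
has no `p`-torsion).  `H2z B`: every 2-cocycle with values in `ℚ/ℤ` is a coboundary.
-/

set_option autoImplicit false

open PFC PAL

namespace PAM

structure PD {G ρ N : Type} [Group G] [Fintype ρ] [Fintype N] (B : Subgroup G) (z : N → G)
    (X : ρ → N → GR G) : Prop where
  gen : Subgroup.closure (Set.range z) = B
  rel : ∀ i, ∑ ν, X i ν * (el (z ν) - 1) = 0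
  supp : ∀ i ν, InSub B (X i ν)
  inj : ∀ v : ρ → G → ℝ, (∀ i, Sq (v i)) → (∀ ν x, ∑ i, ra (v i) (X i ν) x = 0) → v = 0

def HasPD {G : Type} [Group G] (B : Subgroup G) (N ρ : ℕ) : Prop :=
  ∃ (z : Fin N → G) (X : Fin ρ → Fin N → GR G), PD B z X

theorem hasPD_of {G ρ N : Type} [Group G] [Fintype ρ] [Fintype N] (B : Subgroup G) (z : N → G)
    (X : ρ → N → GR G) (h : PD B z X) : HasPD B (Fintype.card N) (Fintype.card ρ) := by
  classical
  let eN := Fintype.equivFin N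
  let eρ := Fintype.equivFin ρ
  refine ⟨fun j => z (eN.symm j), fun i j => X (eρ.symm i) (eN.symm j), ?_, ?_, ?_, ?_⟩
  · rw [← h.gen]
    congr 1
    ext g
    constructor
    · rintro ⟨j, rfl⟩
      exact ⟨eN.symm j, rfl⟩
    · rintro ⟨ν, rfl⟩
      exact ⟨eN ν, by simp⟩
  · intro i
    rw [← h.rel (eρ.symm i)]
    exact Equiv.sum_comp eN.symm fun ν => X (eρ.symm i) ν * (el (z ν) - 1)
  · exact fun i j => h.supp _ _
  · intro v hv h0
    have h1 : (fun i => v (eρ i)) = 0 := by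
      refine h.inj (fun i => v (eρ i)) (fun i => hv _) fun ν x => ?_
      have h2 := h0 (eN ν) x
      rw [← Equiv.sum_comp eρ] at h2
      simpa using h2
    funext i
    have h3 := congrFun h1 (eρ.symm i)
    simpa using h3

noncomputable abbrev hp (p : ℕ) (B : Type) [Group B] : ℕ := Nat.card (B →* Multiplicative (ZMod p))

def OntoP (p : ℕ) {G : Type} [Group G] (B A : Subgroup G) : Prop :=
  ∀ h : (B ⊓ A : Subgroup G) →* Multiplicative (ZMod p),
    ∃ (f : B →* Multiplicative (ZMod p)) (g : A →* Multiplicative (ZMod p)),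
      ∀ (x : G) (hx : x ∈ B ⊓ A), h ⟨x, hx⟩ = f ⟨x, hx.1⟩ * g ⟨x, hx.2⟩

def OntoQ {G : Type} [Group G] (B A : Subgroup G) : Prop :=
  ∀ h : (B ⊓ A : Subgroup G) →* Multiplicative PF.QZ,
    ∃ (f : B →* Multiplicative PF.QZ) (g : A →* Multiplicative PF.QZ),
      ∀ (x : G) (hx : x ∈ B ⊓ A), h ⟨x, hx⟩ = f ⟨x, hx.1⟩ * g ⟨x, hx.2⟩

def LiftZ (p : ℕ) (B : Type) [Group B] : Prop :=
  ∀ h : B →* Multiplicative (ZMod p), ∃ h' : B →* Multiplicative ℤ,
    ∀ x, h x = Multiplicative.ofAdd ((Multiplicative.toAdd (h' x) : ℤ) : ZMod p)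

def H2z (B : Type) [Group B] : Prop := ∀ f : B → B → PF.QZ, PF.IsCoc f → PF.IsCob f

/-- homologically injective finitely generated free subgroups -/
def HomInj {G : Type} [Group G] (A : Subgroup G) : Prop :=
  IsFreeGroup A ∧ A.FG ∧ Function.Injective (Abelianization.map A.subtype)

/-- `H` is the HNN extension of `B` with stable letter `t` which conjugates `c` to `t c t⁻¹` -/
def IsHNN {G : Type} [Group G] (H B : Subgroup G) (t c : G) : Prop :=
  B ≤ H ∧ t ∈ H ∧ c ∈ B ∧ t * c * t⁻¹ ∈ B ∧ ∀ (Y : Type) [Group Y] (f : B →* Y) (y : Y),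
    (∀ (h : c ∈ B) (h' : t * c * t⁻¹ ∈ B), y * f ⟨c, h⟩ * y⁻¹ = f ⟨t * c * t⁻¹, h'⟩) →
    ∃! F : H →* Y, (∀ (x : G) (hB : x ∈ B) (hH : x ∈ H), F ⟨x, hH⟩ = f ⟨x, hB⟩) ∧
      ∀ h : t ∈ H, F ⟨t, h⟩ = y

/-- parafree groups are torsion free -/
theorem pow_ne_one {G : Type} [Group G] (hres : ∀ p : ℕ, p.Prime → ResQ p G) (c : G)
    (hc : c ≠ 1) (n : ℤ) (hn : n ≠ 0) : c ^ n ≠ 1 := by
  intro h
  obtain ⟨p, hp, hpp⟩ := Nat.exists_infinite_primes (n.natAbs + 1)
  obtain ⟨W, _, f, hf, hW, hfc⟩ := hres p hpp c hc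
  have h1 : (f c) ^ n = 1 := by rw [← map_zpow, h, map_one]
  obtain ⟨k, hk⟩ := hW (f c)
  have h2 : orderOf (f c) ∣ n.natAbs := by
    rw [orderOf_dvd_iff_pow_eq_one]
    rcases Int.natAbs_eq n with h3 | h3
    · rw [h3, zpow_natCast] at h1; exact h1
    · rw [h3, zpow_neg, zpow_natCast, inv_eq_one] at h1; exact h1
  have h3 : orderOf (f c) ∣ p ^ k := orderOf_dvd_of_pow_eq_one hk
  obtain ⟨j, -, hj⟩ := (Nat.dvd_prime_pow hpp).1 h3
  have h4 : n.natAbs ≠ 0 := Int.natAbs_ne_zero.2 hn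
  rcases Nat.eq_zero_or_pos j with h5 | h5
  · rw [h5, pow_zero, orderOf_eq_one_iff] at hj
    exact hfc hj
  · have h6 : p ∣ n.natAbs := by
      refine dvd_trans ?_ h2
      rw [hj]
      exact dvd_pow_self p h5.ne'
    have h7 := Nat.le_of_dvd (Nat.pos_of_ne_zero h4) h6
    omega

end PAM
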