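import Pool.Agent.PAM.Defs

/-!
# PAM/DefsG: general HNN extensions

`assoc B t` is the subgroup of the `x ∈ B` with `t x t⁻¹ ∈ B`.  `IsHNNG H B t`: the subgroup `H` is the HNN
extension of `B` with stable letter `t` (which conjugates `assoc B t` into `B`).
-/

set_option autoImplicit false

open PFC PAL

namespace PAM

/-- the elements `x` of `B` with `t x t⁻¹ ∈ B` -/
def assoc {G : Type} [Group G] (B : Subgroup G) (t : G) : Subgroup G where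
  carrier := {x | x ∈ B ∧ t * x * t⁻¹ ∈ B}
  mul_mem' := by
    rintro a b ⟨ha, ha'⟩ ⟨hb, hb'⟩
    refine ⟨B.mul_mem ha hb, ?_⟩
    have h : t * (a * b) * t⁻¹ = (t * a * t⁻¹) * (t * b * t⁻¹) := by group
    rw [h]
    exact B.mul_mem ha' hb'
  one_mem' := ⟨B.one_mem, by rw [mul_one, mul_inv_cancel]; exact B.one_mem⟩
  inv_mem' := by
    rintro a ⟨ha, ha'⟩
    refine ⟨B.inv_mem ha, ?_⟩
    have h : t * a⁻¹ * t⁻¹ = (t * a * t⁻¹)⁻¹ := by group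
    rw [h]
    exact B.inv_mem ha'

/-- `H` is the HNN extension of `B` with stable letter `t` -/
def IsHNNG {G : Type} [Group G] (H B : Subgroup G) (t : G) : Prop :=
  B ≤ H ∧ t ∈ H ∧ ∀ (Y : Type) [Group Y] (f : B →* Y) (y : Y),
    (∀ (x : G) (h : x ∈ B) (h' : t * x * t⁻¹ ∈ B), y * f ⟨x, h⟩ * y⁻¹ = f ⟨t * x * t⁻¹, h'⟩) →
    ∃! F : H →* Y, (∀ (x : G) (hB : x ∈ B) (hH : x ∈ H), F ⟨x, hH⟩ = f ⟨x, hB⟩) ∧
      ∀ h : t ∈ H, F ⟨t, h⟩ = y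

def OntoHp (p : ℕ) {G : Type} [Group G] (B : Subgroup G) (t : G) : Prop :=
  ∀ k : assoc B t →* Multiplicative (ZMod p), ∃ h : B →* Multiplicative (ZMod p),
    ∀ (x : G) (hx : x ∈ assoc B t), k ⟨x, hx⟩ = h ⟨t * x * t⁻¹, hx.2⟩ * (h ⟨x, hx.1⟩)⁻¹

def OntoHQ {G : Type} [Group G] (B : Subgroup G) (t : G) : Prop :=
  ∀ k : assoc B t →* Multiplicative PF.QZ, ∃ h : B →* Multiplicative PF.QZ,
    ∀ (x : G) (hx : x ∈ assoc B t), k ⟨x, hx⟩ = h ⟨t * x * t⁻¹, hx.2⟩ * (h ⟨x, hx.1⟩)⁻¹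

theorem hnn_notMem {G : Type} [Group G] (H B : Subgroup G) (t : G) (hH : IsHNNG H B t) :
    t ∉ B := by
  intro ht
  obtain ⟨F, ⟨hF1, hF2⟩, -⟩ := hH.2.2 (Multiplicative ℤ) 1 (Multiplicative.ofAdd 1)
    (fun x h h' => by simp)
  have h1 := hF1 t ht hH.2.1
  have h2 := hF2 hH.2.1
  rw [h1] at h2
  have h3 : (0 : ℤ) = 1 := congrArg Multiplicative.toAdd h2
  exact absurd h3 (by norm_num)

end PAM
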