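import Pool.Agent.PAM.DefsG
import Pool.Agent.PFC.HGen
import Pool.Agent.PFC.HZero
import Pool.Agent.PFC.HMain

/-!
# PAM/GCd (module PAM-GCd): the cohomological dimension of an HNN extension

Let `C = assoc B t` and `D = t C t⁻¹ ≤ B` (isomorphic to `C`, so free).  The sequence
`0 → LK D → LK B × GR G → LK H → 0`, `x ↦ (x * el t - x, -x)`, `(b, y) ↦ b + y * (el t - 1)`, is exact: for
`x = ∑ f_l (el d_l - 1)` with `d_l = t c_l t⁻¹` one has `x * el t = ∑ f_l * el t * (el c_l - 1) ∈ LK B`.  Surjective: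
`H` is generated by `B` and `t`.  Kernel: let `M` be the quotient of `LK B × GR G` by the image of `LK D`; the
universal property for the semidirect product `M ⋊ G` gives a derivation on `H` with `D b = [(el b - 1, 0)]`,
`D t = [(0, 1)]` (the condition for `x ∈ C` is `[(el t * (el x - 1) - (el d - 1), 1 - el d)] = 0`, `d = t x t⁻¹`),
and a linear map `L : LK H → M` with `L(el h - 1) = D h`; so `L(b + y (el t - 1)) = [(b, y)]`.  See
`PAM/CdHnn.lean` (proved for cyclic `C`; its private lemmas can be copied).  `LK D` has projective dimension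
`≤ 0` (`pd_tr_free`, `pd_LK`); `pd_three` or `pd_two` of `PFC/HShort.lean`.
-/

set_option autoImplicit false

open PFC PAL

namespace PAM

namespace GCd

private theorem el_mul' {Q : Type} [Group Q] (a b : Q) : (el (a * b) : GR Q) = el a * el b :=
  map_mul _ a b

private theorem el_one' {Q : Type} [Group Q] : (el (1 : Q) : GR Q) = 1 := map_one _

private theorem el_mem {G : Type} [Group G] {K : Subgroup G} {k : G} (hk : k ∈ K) :
    (el k - 1 : GR G) ∈ LK K :=
  Submodule.subset_span ⟨k, hk, rfl⟩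

private structure SD (Q M : Type) where
  m : M
  q : Q

private theorem SD.ext' {Q M : Type} {a b : SD Q M} (h1 : a.m = b.m) (h2 : a.q = b.q) : a = b := by
  cases a; cases b; cases h1; cases h2; rfl

@[instance_reducible]
private noncomputable def sdGroup (Q M : Type) [Group Q] [AddCommGroup M] [Module (GR Q) M] :
    Group (SD Q M) where
  mul a b := ⟨a.m + (el a.q : GR Q) • b.m, a.q * b.q⟩
  one := ⟨0, 1⟩
  inv a := ⟨-((el a.q⁻¹ : GR Q) • a.m), a.q⁻¹⟩
  mul_assoc a b c := by
    refine SD.ext' ?_ (mul_assoc _ _ _)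
    show a.m + (el a.q : GR Q) • b.m + (el (a.q * b.q) : GR Q) • c.m =
      a.m + (el a.q : GR Q) • (b.m + (el b.q : GR Q) • c.m)
    rw [smul_add, el_mul', mul_smul, add_assoc]
  one_mul a := by
    refine SD.ext' ?_ (one_mul _)
    show (0 : M) + (el (1 : Q) : GR Q) • a.m = a.m
    rw [el_one', one_smul, zero_add]
  mul_one a := by
    refine SD.ext' ?_ (mul_one _)
    show a.m + (el a.q : GR Q) • (0 : M) = a.m
    rw [smul_zero, add_zero]
  inv_mul_cancel a := by
    refine SD.ext' ?_ (inv_mul_cancel _)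
    show -((el a.q⁻¹ : GR Q) • a.m) + (el a.q⁻¹ : GR Q) • a.m = 0
    exact neg_add_cancel _

/-- derivations on an HNN extension -/
private theorem der {G : Type} [Group G] (H B : Subgroup G) (t : G) (hH : IsHNNG H B t)
    {M : Type} [AddCommGroup M] [Module (GR G) M] (E : B → M)
    (hE : ∀ a b : B, E (a * b) = E a + (el (a : G) : GR G) • E b) (m : M)
    (hm : ∀ (c : G) (h : c ∈ B) (h' : t * c * t⁻¹ ∈ B), m + (el t : GR G) • E ⟨c, h⟩ =
      E ⟨t * c * t⁻¹, h'⟩ + (el (t * c * t⁻¹) : GR G) • m) :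
    ∃ D : H → M, (∀ a b : H, D (a * b) = D a + (el (a : G) : GR G) • D b) ∧
      (∀ (x : G) (hB : x ∈ B) (hH : x ∈ H), D ⟨x, hH⟩ = E ⟨x, hB⟩) ∧
      ∀ h : t ∈ H, D ⟨t, h⟩ = m := by
  let _ := sdGroup G M
  let f : B →* SD G M := MonoidHom.mk' (fun b => ⟨E b, (b : G)⟩) (by
    intro a b
    refine SD.ext' ?_ ?_
    · show E (a * b) = E a + (el (a : G) : GR G) • E b
      exact hE a b
    · rfl)
  let y : SD G M := ⟨m, t⟩
  obtain ⟨F, ⟨hF1, hF2⟩, -⟩ := hH.2.2 (SD G M) f y (by
    intro c h h'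
    rw [mul_inv_eq_iff_eq_mul]
    refine SD.ext' ?_ ?_
    · show m + (el t : GR G) • E ⟨c, h⟩ = E ⟨t * c * t⁻¹, h'⟩ + (el (t * c * t⁻¹) : GR G) • m
      exact hm c h h'
    · show t * c = t * c * t⁻¹ * t
      rw [inv_mul_cancel_right])
  let p : SD G M →* G :=
    { toFun := fun a => a.q
      map_one' := rfl
      map_mul' := fun _ _ => rfl }
  have hp : p.comp F = H.subtype := by
    refine (hH.2.2 G B.subtype t (fun _ _ _ => rfl)).unique ⟨?_, ?_⟩ ⟨?_, ?_⟩
    · intro x hB hH
      show (F ⟨x, hH⟩).q = x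
      rw [hF1 x hB hH]
      rfl
    · intro h
      show (F ⟨t, h⟩).q = t
      rw [hF2 h]
    · intro x hB hH
      rfl
    · intro h
      rfl
  refine ⟨fun h => (F h).m, ?_, ?_, ?_⟩
  · intro a b
    show (F (a * b)).m = (F a).m + (el (a : G) : GR G) • (F b).m
    rw [map_mul]
    show (F a).m + (el (F a).q : GR G) • (F b).m = _
    have h1 : (F a).q = (a : G) := DFunLike.congr_fun hp a
    rw [h1]
  · intro x hB hH
    show (F ⟨x, hH⟩).m = E ⟨x, hB⟩
    rw [hF1 x hB hH]
    rfl
  · intro h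
    show (F ⟨t, h⟩).m = m
    rw [hF2 h]

/-- the additive extension of a function to the group ring -/
private noncomputable def ext {G : Type} [Group G] {V : Type} [AddCommGroup V] (f : G → V) :
    GR G →+ V :=
  (Finsupp.liftAddHom (fun g => zmultiplesHom V (f g))).comp
    (MonoidAlgebra.coeffAddEquiv (R := ℤ) (M := G)).toAddMonoidHom

private theorem ext_el {G : Type} [Group G] {V : Type} [AddCommGroup V] (f : G → V) (g : G) :
    ext f (MonoidAlgebra.of ℤ G g) = f g := by
  have h1 : ext f (MonoidAlgebra.of ℤ G g) =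
      (Finsupp.liftAddHom (fun g => zmultiplesHom V (f g))) (Finsupp.single g 1) := rfl
  rw [h1, Finsupp.liftAddHom_apply_single, zmultiplesHom_apply, one_smul]

private theorem ext_mul {G : Type} [Group G] (H : Subgroup G) {M : Type} [AddCommGroup M]
    [Module (GR G) M] (D : H → M)
    (hD : ∀ a b : H, D (a * b) = D a + (el (a : G) : GR G) • D b) (k : H) (a : GR H) :
    ext D (el k * a) = (el (k : G) : GR G) • ext D a + eps H a • D k := by
  induction a using MonoidAlgebra.induction_on with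
  | of g =>
    have h2 : eps H (MonoidAlgebra.of ℤ H g) = 1 := eps_el g
    rw [← map_mul, ext_el, ext_el, h2, one_smul, hD, add_comm]
  | add x y hx hy =>
    rw [mul_add, map_add, hx, hy, map_add, map_add, smul_add, add_smul]
    abel
  | smul r x hx =>
    rw [mul_smul_comm, map_zsmul, hx, map_zsmul, map_zsmul, smul_add, smul_comm r
      (el (k : G) : GR G), smul_assoc]

private theorem lin {G : Type} [Group G] (H : Subgroup G) {M : Type} [AddCommGroup M]
    [Module (GR G) M] (D : H → M)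
    (hD : ∀ a b : H, D (a * b) = D a + (el (a : G) : GR G) • D b) :
    ∃ L : LK H →ₗ[GR G] M, ∀ (h : H) (hm : (el (h : G) - 1 : GR G) ∈ LK H),
      L ⟨el (h : G) - 1, hm⟩ = D h := by
  have hD1 : D 1 = 0 := by
    have h1 := hD 1 1
    rw [mul_one, Subgroup.coe_one, el_one', one_smul] at h1
    exact left_eq_add.1 h1
  obtain ⟨i', hi', hii⟩ := ind_sub H (jK H).toAddMonoidHom (ind_reg H) (augId H)
  obtain ⟨F, hF⟩ := ind_ext H i' hi' ((ext D).comp (augId H).subtype.toAddMonoidHom) (by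
    intro k x
    show ext D (el k * (x : GR H)) = (el (k : G) : GR G) • ext D (x : GR H)
    have h2 : eps H (x : GR H) = 0 := x.2
    rw [ext_mul H D hD, h2, zero_smul, add_zero])
  refine ⟨F.comp (LinearEquiv.ofEq _ _ (span_jK H).symm).toLinearMap, ?_⟩
  intro h hm
  have hx : (el h - 1 : GR H) ∈ augId H := by
    show eps H (el h - 1) = 0
    rw [map_sub, eps_el, map_one, sub_self]
  have h3 := hF ⟨el h - 1, hx⟩
  have h4 : i' ⟨el h - 1, hx⟩ = LinearEquiv.ofEq _ _ (span_jK H).symm ⟨el (h : G) - 1, hm⟩ := by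
    apply Subtype.ext
    rw [hii]
    show jK H (el h - 1) = el (h : G) - 1
    rw [map_sub, jK_el, map_one]
  show F (LinearEquiv.ofEq _ _ (span_jK H).symm ⟨el (h : G) - 1, hm⟩) = D h
  rw [← h4, h3]
  show ext D (el h - 1) = D h
  have h5 : (1 : GR H) = el 1 := el_one'.symm
  rw [map_sub, h5, ext_el, ext_el, hD1, sub_zero]

private theorem gen {G : Type} [Group G] (H B : Subgroup G) (t : G) (hH : IsHNNG H B t)
    (S : Subgroup G) (hB : B ≤ S) (ht : t ∈ S) : H ≤ S := by
  obtain ⟨hBH, htH, hu⟩ := hH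
  let K : Subgroup G := S ⊓ H
  have hBK : B ≤ K := le_inf hB hBH
  have htK : t ∈ K := ⟨ht, htH⟩
  obtain ⟨F, ⟨hF1, hF2⟩, -⟩ := hu K (Subgroup.inclusion hBK) ⟨t, htK⟩ (fun _ _ _ => rfl)
  have h1 : (Subgroup.inclusion (inf_le_right : K ≤ H)).comp F = MonoidHom.id H := by
    refine (hu H (Subgroup.inclusion hBH) ⟨t, htH⟩ (fun _ _ _ => rfl)).unique ⟨?_, ?_⟩ ⟨?_, ?_⟩
    · intro x hxB hxH
      show Subgroup.inclusion (inf_le_right : K ≤ H) (F ⟨x, hxH⟩) = _
      rw [hF1 x hxB hxH]
      rfl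
    · intro h
      show Subgroup.inclusion (inf_le_right : K ≤ H) (F ⟨t, h⟩) = _
      rw [hF2 h]
      rfl
    · intro x hxB hxH
      rfl
    · intro h
      rfl
  intro x hx
  have h2 : Subgroup.inclusion (inf_le_right : K ≤ H) (F ⟨x, hx⟩) = ⟨x, hx⟩ :=
    DFunLike.congr_fun h1 ⟨x, hx⟩
  have h3 : ((F ⟨x, hx⟩ : K) : G) = x := congrArg Subtype.val h2
  rw [← h3]
  exact (F ⟨x, hx⟩).2.1

private theorem LK_sub {G : Type} [Group G] (H B : Subgroup G) (t : G) (hH : IsHNNG H B t) :
    LK H ≤ LK B ⊔ Submodule.span (GR G) {(el t - 1 : GR G)} := by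
  set R := LK B ⊔ Submodule.span (GR G) {(el t - 1 : GR G)} with hR
  let S : Subgroup G :=
    { carrier := {g | (el g - 1 : GR G) ∈ R}
      one_mem' := by
        show (el (1 : G) - 1 : GR G) ∈ R
        rw [el_one', sub_self]
        exact Submodule.zero_mem _
      mul_mem' := by
        intro a b ha hb
        show (el (a * b) - 1 : GR G) ∈ R
        have e : (el (a * b) - 1 : GR G) = (el a - 1) + (el a : GR G) • (el b - 1 : GR G) := by
          rw [smul_eq_mul, mul_sub, mul_one, ← el_mul']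
          abel
        rw [e]
        exact Submodule.add_mem _ ha (Submodule.smul_mem _ _ hb)
      inv_mem' := by
        intro a ha
        show (el a⁻¹ - 1 : GR G) ∈ R
        have e : (el a⁻¹ - 1 : GR G) = -((el a⁻¹ : GR G) • (el a - 1 : GR G)) := by
          rw [smul_eq_mul, mul_sub, mul_one, ← el_mul', inv_mul_cancel, el_one']
          abel
        rw [e]
        exact Submodule.neg_mem _ (Submodule.smul_mem _ _ ha) }
  have hHS : H ≤ S := gen H B t hH S
    (fun b hb => (le_sup_left : LK B ≤ R) (el_mem hb))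
    ((le_sup_right : Submodule.span (GR G) {(el t - 1 : GR G)} ≤ R)
      (Submodule.subset_span rfl))
  refine Submodule.span_le.2 ?_
  rintro x ⟨h, hh, rfl⟩
  exact hHS hh

end GCd

open GCd in
theorem cd_hnnG {G : Type} [Group G] (H B : Subgroup G) (t : G) (hH : IsHNNG H B t)
    (hC : IsFreeGroup (assoc B t)) (hB : PdLT G (LK B) 2) : PdLT G (LK H) 2 := by
  have hBH := hH.1
  have htH := hH.2.1
  obtain ⟨Dd, hDd⟩ : ∃ Dd : Subgroup G, Dd = (assoc B t).map (MulAut.conj t).toMonoidHom := ⟨_, rfl⟩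
  have hDfree : IsFreeGroup Dd := by
    rw [hDd]
    exact IsFreeGroup.ofMulEquiv ((assoc B t).equivMapOfInjective (MulAut.conj t).toMonoidHom
      (MulAut.conj t).injective)
  have hDmem : ∀ d : G, d ∈ Dd ↔ ∃ c, (c ∈ B ∧ t * c * t⁻¹ ∈ B) ∧ t * c * t⁻¹ = d := by
    intro d
    rw [hDd]
    exact Iff.rfl
  have hDB : Dd ≤ B := by
    intro d hd
    obtain ⟨c, hc, rfl⟩ := (hDmem d).1 hd
    exact hc.2
  have hleD : LK Dd ≤ LK B := Submodule.span_mono (by
    rintro x ⟨k, hk, rfl⟩
    exact ⟨k, hDB hk, rfl⟩)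
  have hle : LK B ≤ LK H := Submodule.span_mono (by
    rintro x ⟨k, hk, rfl⟩
    exact ⟨k, hBH hk, rfl⟩)
  have hpdD : PdLT G (LK Dd) 1 := pd_LK Dd 1 le_rfl (pd_tr_free Dd hDfree)
  have hmt : ∀ x : GR G, x ∈ LK Dd → x * el t - x ∈ LK B := by
    intro x hx
    refine Submodule.sub_mem _ ?_ (hleD hx)
    refine Submodule.span_induction (p := fun x _ => x * el t ∈ LK B) ?_ ?_ ?_ ?_ hx
    · rintro x ⟨k, hk, rfl⟩
      obtain ⟨c, hc, rfl⟩ := (hDmem k).1 hk
      have e : (el (t * c * t⁻¹) - 1 : GR G) * el t = (el t : GR G) • (el c - 1 : GR G) := by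
        rw [smul_eq_mul, sub_mul, one_mul, mul_sub, mul_one, ← el_mul', ← el_mul', inv_mul_cancel_right]
      rw [e]
      exact Submodule.smul_mem _ _ (el_mem hc.1)
    · rw [zero_mul]
      exact Submodule.zero_mem _
    · intro x y _ _ h1 h2
      rw [add_mul]
      exact Submodule.add_mem _ h1 h2
    · intro a x _ h1
      rw [smul_eq_mul, mul_assoc]
      exact Submodule.smul_mem _ a h1
  let φ : (LK B × GR G) →ₗ[GR G] LK H :=
    LinearMap.coprod (Submodule.inclusion hle)
      (LinearMap.toSpanSingleton (GR G) (LK H) ⟨el t - 1, el_mem htH⟩)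
  have hφ : ∀ z : LK B × GR G, ((φ z : LK H) : GR G) = (z.1 : GR G) + z.2 * (el t - 1) :=
    fun z => rfl
  let ψ : LK Dd →ₗ[GR G] (LK B × GR G) :=
    { toFun := fun x => (⟨(x : GR G) * el t - x, hmt x x.2⟩, -(x : GR G))
      map_add' := by
        intro x y
        refine Prod.ext (Subtype.ext ?_) ?_
        · show ((x : GR G) + y) * el t - ((x : GR G) + y) = ((x : GR G) * el t - x) + ((y : GR G) * el t - y)
          rw [add_mul]
          abel
        · show -((x : GR G) + y) = -(x : GR G) + -(y : GR G)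
          abel
      map_smul' := by
        intro a x
        refine Prod.ext (Subtype.ext ?_) ?_
        · show (a * (x : GR G)) * el t - a * (x : GR G) = a * ((x : GR G) * el t - x)
          rw [mul_sub, mul_assoc]
        · show -(a * (x : GR G)) = a * (-(x : GR G))
          rw [mul_neg] }
  have hsurj : Function.Surjective φ := by
    rintro ⟨v, hv⟩
    obtain ⟨x, hx, y, hy, hxy⟩ := Submodule.mem_sup.1 (LK_sub H B t hH hv)
    obtain ⟨a, ha⟩ := Submodule.mem_span_singleton.1 hy
    refine ⟨(⟨x, hx⟩, a), Subtype.ext ?_⟩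
    rw [hφ]
    show x + a * (el t - 1) = v
    rw [← hxy, ← ha, smul_eq_mul]
  let M : Type := (LK B × GR G) ⧸ LinearMap.range ψ
  let π : (LK B × GR G) →ₗ[GR G] M := Submodule.mkQ _
  have hπ : ∀ x, π (ψ x) = 0 := fun x => (Submodule.Quotient.mk_eq_zero _).2 ⟨x, rfl⟩
  let E : B → M := fun b => π (⟨el (b : G) - 1, el_mem b.2⟩, 0)
  have hE : ∀ a b : B, E (a * b) = E a + (el (a : G) : GR G) • E b := by
    intro a b
    show π _ = π _ + (el (a : G) : GR G) • π _
    rw [← map_smul, ← map_add]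
    congr 1
    refine Prod.ext (Subtype.ext ?_) ?_
    · show (el ((a * b : B) : G) - 1 : GR G) = (el (a : G) - 1) + el (a : G) * (el (b : G) - 1)
      rw [Subgroup.coe_mul, el_mul', mul_sub, mul_one]
      abel
    · show (0 : GR G) = 0 + el (a : G) * 0
      rw [mul_zero, add_zero]
  obtain ⟨D, hD, hDB', hDt⟩ := der H B t hH E hE (π (0, 1)) (by
    intro c h h'
    have hdD : t * c * t⁻¹ ∈ Dd := (hDmem _).2 ⟨c, ⟨h, h'⟩, rfl⟩
    show π _ + (el t : GR G) • π _ = π _ + (el (t * c * t⁻¹) : GR G) • π _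
    rw [← map_smul, ← map_smul, ← map_add, ← map_add, ← sub_eq_zero, ← map_sub]
    rw [← hπ ⟨el (t * c * t⁻¹) - 1, el_mem hdD⟩]
    congr 1
    have e1 : (el (t * c * t⁻¹) * el t : GR G) = el t * el c := by
      rw [← el_mul', ← el_mul', inv_mul_cancel_right]
    refine Prod.ext (Subtype.ext ?_) ?_
    · show ((0 : GR G) + el t * (el c - 1)) - ((el (t * c * t⁻¹) - 1) +
        el (t * c * t⁻¹) * 0) = (el (t * c * t⁻¹) - 1) * el t - (el (t * c * t⁻¹) - 1)
      rw [mul_zero, add_zero, zero_add, sub_mul, e1, one_mul, mul_sub, mul_one]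
    · show ((1 : GR G) + el t * 0) - (0 + el (t * c * t⁻¹) * 1) = -(el (t * c * t⁻¹) - 1)
      rw [mul_zero, add_zero, zero_add, mul_one, neg_sub])
  obtain ⟨L, hL⟩ := lin H D hD
  have hL1 : ∀ (v : GR G) (hv : v ∈ LK B), L ⟨v, hle hv⟩ = π (⟨v, hv⟩, 0) := by
    intro v hv
    have key : L.comp (Submodule.inclusion hle) = π.comp (LinearMap.inl (GR G) (LK B) (GR G)) := by
      have hspan : Submodule.span (GR G)
          {x : LK B | ∃ k ∈ B, (x : GR G) = el k - 1} = ⊤ := by
        rw [eq_top_iff]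
        rintro ⟨w, hw⟩ -
        refine Submodule.span_induction
          (p := fun w hw => (⟨w, hw⟩ : LK B) ∈ Submodule.span (GR G)
            {x : LK B | ∃ k ∈ B, (x : GR G) = el k - 1}) ?_ ?_ ?_ ?_ hw
        · rintro x ⟨k, hk, rfl⟩
          exact Submodule.subset_span ⟨k, hk, rfl⟩
        · exact Submodule.zero_mem _
        · intro x y hx hy h1 h2
          exact Submodule.add_mem _ h1 h2
        · intro a x hx h1
          exact Submodule.smul_mem _ a h1
      refine LinearMap.ext_on hspan ?_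
      rintro ⟨w, hw⟩ ⟨k, hk, hwk⟩
      have hwk' : w = el k - 1 := hwk
      subst hwk'
      show L ⟨el k - 1, _⟩ = π (⟨el k - 1, hw⟩, 0)
      have h1 := hL ⟨k, hBH hk⟩ (hle hw)
      have h2 := hDB' k hk (hBH hk)
      exact h1.trans h2
    exact LinearMap.congr_fun key ⟨v, hv⟩
  have hLφ : ∀ z, L (φ z) = π z := by
    rintro ⟨⟨v, hv⟩, a⟩
    have e1 : φ (⟨v, hv⟩, a) = ⟨v, hle hv⟩ + a • ⟨el t - 1, el_mem htH⟩ := rfl
    have e2 : ((⟨v, hv⟩, a) : LK B × GR G) = (⟨v, hv⟩, 0) + a • (0, 1) := by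
      refine Prod.ext ?_ ?_
      · show (⟨v, hv⟩ : LK B) = ⟨v, hv⟩ + a • 0
        rw [smul_zero, add_zero]
      · show a = 0 + a * 1
        rw [mul_one, zero_add]
    rw [e1, map_add, map_smul, hL1 v hv, hL ⟨t, htH⟩ (el_mem htH), hDt htH, e2, map_add, map_smul]
  have hexact : Function.Exact ψ φ := by
    intro z
    constructor
    · intro hz
      have h1 := hLφ z
      rw [hz, map_zero] at h1
      exact (Submodule.Quotient.mk_eq_zero _).1 h1.symm
    · rintro ⟨x, rfl⟩
      apply Subtype.ext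
      rw [hφ]
      show ((x : GR G) * el t - x) + (-(x : GR G)) * (el t - 1) = 0
      noncomm_ring
  have hfree : PdLT G (GR G) 1 := pd_proj inferInstance
  have hprod : PdLT G (LK B × GR G) 2 := by
    refine pd_two (LinearMap.inl (GR G) (LK B) (GR G)) (LinearMap.snd (GR G) (LK B) (GR G))
      LinearMap.inl_injective LinearMap.snd_surjective ?_ 2 hB (pd_mono 1 2 (by omega) hfree)
    intro z
    constructor
    · intro hz
      exact ⟨z.1, Prod.ext rfl hz.symm⟩
    · rintro ⟨x, rfl⟩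
      rfl
  have hinj : Function.Injective ψ := by
    rw [injective_iff_map_eq_zero]
    intro x hx
    have h1 : -(x : GR G) = 0 := congrArg Prod.snd hx
    exact Subtype.ext (neg_eq_zero.1 h1)
  exact pd_three ψ φ hinj hsurj hexact 1 hpdD hprod

end PAM
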