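import Pool.Agent.PAM.DefsG
import Pool.Agent.PRT.CExt

/-!
# PAM/GCoc (module PAM-GCoc): cocycles on an HNN extension

As in `PAM/CocAm.lean` and `PAM/CocHnn.lean`: `E` the central extension of `H` by `ℚ/ℤ` given by the cocycle,
`σ : B → E` a homomorphism over `H`, `y ∈ E` over `t`.  For `x ∈ C = assoc B t` the element
`k(x) = y σ(x) y⁻¹ σ(t x t⁻¹)⁻¹` is in `ℚ/ℤ`, and `k` is a homomorphism; by `OntoHQ` there is `h : B → ℚ/ℤ` with
`k(x) = h(t x t⁻¹) - h(x)`; change `σ` by `h`; then the universal property gives a section `H → E`.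
-/

set_option autoImplicit false

open PFC PAL

namespace PAM

/-- a homomorphic lift of a subgroup on which the cocycle is a coboundary -/
private theorem gcoc_lift {G : Type} [Group G] (H B : Subgroup G) (hBH : B ≤ H)
    (hB : H2z B) {f : H → H → PF.QZ} (hf : PF.IsCoc f) {E : Type} [Group E] {p : E →* H}
    {s : H → E} {i : PF.QZ → E} (hE : PRT.CExt f p s i) :
    ∃ (b : B → PF.QZ) (φ : B →* E), ∀ x : B, φ x = i (b x) * s ⟨x, hBH x.2⟩ := by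
  obtain ⟨b, hb⟩ := hB (fun x y => f ⟨x, hBH x.2⟩ ⟨y, hBH y.2⟩)
    (fun x y z => hf ⟨x, hBH x.2⟩ ⟨y, hBH y.2⟩ ⟨z, hBH z.2⟩)
  refine ⟨fun x => - b x, MonoidHom.mk' (fun x => i (- b x) * s ⟨x, hBH x.2⟩) ?_, fun x => rfl⟩
  intro x y
  have h1 := hE.coc ⟨x, hBH x.2⟩ ⟨y, hBH y.2⟩
  have h2 : f ⟨x, hBH x.2⟩ ⟨y, hBH y.2⟩ = b x + b y - b (x * y) := hb x y
  rw [h2] at h1
  have h3 : (⟨x, hBH x.2⟩ * ⟨y, hBH y.2⟩ : H) = ⟨((x * y : B) : G), hBH (x * y).2⟩ := rfl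
  rw [h3] at h1
  symm
  calc i (- b x) * s ⟨x, hBH x.2⟩ * (i (- b y) * s ⟨y, hBH y.2⟩)
      = i (- b x) * (s ⟨x, hBH x.2⟩ * i (- b y)) * s ⟨y, hBH y.2⟩ := by
        simp only [mul_assoc]
    _ = i (- b x) * (i (- b y) * s ⟨x, hBH x.2⟩) * s ⟨y, hBH y.2⟩ := by
        rw [hE.cen (- b y) (s ⟨x, hBH x.2⟩)]
    _ = i (- b x) * i (- b y) * (s ⟨x, hBH x.2⟩ * s ⟨y, hBH y.2⟩) := by
        simp only [mul_assoc]
    _ = i (- b x + - b y + (b x + b y - b (x * y))) * s ⟨((x * y : B) : G), hBH (x * y).2⟩ := by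
        rw [h1, hE.add, hE.add, mul_assoc, mul_assoc, mul_assoc]
    _ = i (- b (x * y)) * s ⟨((x * y : B) : G), hBH (x * y).2⟩ := by
        congr 2
        abel

/-- twisting a homomorphism by a homomorphism to the centre -/
private theorem gcoc_tw {B E Q : Type} [Group B] [Group E] [Group Q] {f : Q → Q → PF.QZ}
    {p : E →* Q} {s : Q → E} {i : PF.QZ → E} (hE : PRT.CExt f p s i) (φ : B →* E)
    (χ : B →* Multiplicative PF.QZ) :
    ∃ ψ : B →* E, ∀ x, ψ x = i (Multiplicative.toAdd (χ x)) * φ x := by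
  refine ⟨MonoidHom.mk' (fun x => i (Multiplicative.toAdd (χ x)) * φ x) ?_, fun x => rfl⟩
  intro x y
  simp only [map_mul, toAdd_mul]
  rw [hE.add]
  calc i (Multiplicative.toAdd (χ x)) * i (Multiplicative.toAdd (χ y)) * (φ x * φ y)
      = i (Multiplicative.toAdd (χ x)) * (i (Multiplicative.toAdd (χ y)) * φ x) * φ y := by
        simp only [mul_assoc]
    _ = i (Multiplicative.toAdd (χ x)) * (φ x * i (Multiplicative.toAdd (χ y))) * φ y := by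
        rw [hE.cen (Multiplicative.toAdd (χ y)) (φ x)]
    _ = i (Multiplicative.toAdd (χ x)) * φ x * (i (Multiplicative.toAdd (χ y)) * φ y) := by
        simp only [mul_assoc]

theorem coc_hnnG {G : Type} [Group G] (H B : Subgroup G) (t : G) (hH : IsHNNG H B t)
    (hB : H2z B) (ho : OntoHQ B t) : H2z H := by
  intro f hf
  obtain ⟨E, iE, p, s, i, hE⟩ := PRT.exists_cext H f hf
  obtain ⟨hBH, ht, huniv⟩ := hH
  obtain ⟨b, φB, hφB⟩ := gcoc_lift H B hBH hB hf hE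
  have hpφ : ∀ x : B, p (φB x) = ⟨x, hBH x.2⟩ := by
    intro x
    rw [hφB, map_mul, hE.sec, (hE.ker _).2 ⟨_, rfl⟩, one_mul]
  have hk : ∀ x : assoc B t, ∃ c, i c = s ⟨t, ht⟩ * φB ⟨x, x.2.1⟩ * (s ⟨t, ht⟩)⁻¹ *
      (φB ⟨t * x * t⁻¹, x.2.2⟩)⁻¹ := by
    intro x
    apply (hE.ker _).1
    rw [map_mul, map_mul, map_mul, map_inv, map_inv, hE.sec, hpφ, hpφ]
    apply Subtype.ext
    change t * (x : G) * t⁻¹ * (t * (x : G) * t⁻¹)⁻¹ = 1
    rw [mul_inv_cancel]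
  choose k hk using hk
  have hk' : ∀ x : assoc B t, s ⟨t, ht⟩ * φB ⟨x, x.2.1⟩ * (s ⟨t, ht⟩)⁻¹ =
      i (k x) * φB ⟨t * x * t⁻¹, x.2.2⟩ := fun x => by rw [hk, inv_mul_cancel_right]
  have hkadd : ∀ x y : assoc B t, k (x * y) = k x + k y := by
    intro x y
    apply hE.inj
    apply mul_right_cancel (b := φB ⟨t * (x * y : assoc B t) * t⁻¹, (x * y).2.2⟩)
    have e1 : (⟨((x * y : assoc B t) : G), (x * y).2.1⟩ : B) = ⟨x, x.2.1⟩ * ⟨y, y.2.1⟩ := rfl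
    have e2 : (⟨t * (x * y : assoc B t) * t⁻¹, (x * y).2.2⟩ : B) =
        ⟨t * x * t⁻¹, x.2.2⟩ * ⟨t * y * t⁻¹, y.2.2⟩ := by
      apply Subtype.ext
      change t * ((x : G) * (y : G)) * t⁻¹ = t * (x : G) * t⁻¹ * (t * (y : G) * t⁻¹)
      group
    rw [← hk' (x * y), e1, e2, map_mul, map_mul]
    calc s ⟨t, ht⟩ * (φB ⟨x, x.2.1⟩ * φB ⟨y, y.2.1⟩) * (s ⟨t, ht⟩)⁻¹
        = (s ⟨t, ht⟩ * φB ⟨x, x.2.1⟩ * (s ⟨t, ht⟩)⁻¹) *
          (s ⟨t, ht⟩ * φB ⟨y, y.2.1⟩ * (s ⟨t, ht⟩)⁻¹) := by group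
      _ = i (k x) * φB ⟨t * x * t⁻¹, x.2.2⟩ * (i (k y) * φB ⟨t * y * t⁻¹, y.2.2⟩) := by
          rw [hk' x, hk' y]
      _ = i (k x) * (φB ⟨t * x * t⁻¹, x.2.2⟩ * i (k y)) * φB ⟨t * y * t⁻¹, y.2.2⟩ := by
          simp only [mul_assoc]
      _ = i (k x) * (i (k y) * φB ⟨t * x * t⁻¹, x.2.2⟩) * φB ⟨t * y * t⁻¹, y.2.2⟩ := by
          rw [hE.cen (k y) (φB ⟨t * x * t⁻¹, x.2.2⟩)]
      _ = i (k x + k y) * (φB ⟨t * x * t⁻¹, x.2.2⟩ * φB ⟨t * y * t⁻¹, y.2.2⟩) := by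
          rw [hE.add]
          simp only [mul_assoc]
  obtain ⟨h, hh⟩ := ho (MonoidHom.mk' (fun x : assoc B t => Multiplicative.ofAdd (k x)) (by
    intro x y
    rw [← ofAdd_add, ← hkadd x y]))
  obtain ⟨ψB, hψB⟩ := gcoc_tw hE φB h
  have hagree : ∀ (x : G) (h : x ∈ B) (h' : t * x * t⁻¹ ∈ B),
      s ⟨t, ht⟩ * ψB ⟨x, h⟩ * (s ⟨t, ht⟩)⁻¹ = ψB ⟨t * x * t⁻¹, h'⟩ := by
    intro x hx hx'
    have h1 := hh x ⟨hx, hx'⟩
    have h2 : k ⟨x, ⟨hx, hx'⟩⟩ = Multiplicative.toAdd (h ⟨t * x * t⁻¹, hx'⟩) -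
        Multiplicative.toAdd (h ⟨x, hx⟩) := by
      rw [sub_eq_add_neg]
      exact congrArg Multiplicative.toAdd h1
    have h3 := hk' ⟨x, ⟨hx, hx'⟩⟩
    rw [h2] at h3
    have h4 : s ⟨t, ht⟩ * φB ⟨x, hx⟩ * (s ⟨t, ht⟩)⁻¹ =
        i (Multiplicative.toAdd (h ⟨t * x * t⁻¹, hx'⟩) - Multiplicative.toAdd (h ⟨x, hx⟩)) *
          φB ⟨t * x * t⁻¹, hx'⟩ := h3
    rw [hψB, hψB]
    calc s ⟨t, ht⟩ * (i (Multiplicative.toAdd (h ⟨x, hx⟩)) * φB ⟨x, hx⟩) * (s ⟨t, ht⟩)⁻¹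
        = (s ⟨t, ht⟩ * i (Multiplicative.toAdd (h ⟨x, hx⟩))) * φB ⟨x, hx⟩ *
            (s ⟨t, ht⟩)⁻¹ := by simp only [mul_assoc]
      _ = (i (Multiplicative.toAdd (h ⟨x, hx⟩)) * s ⟨t, ht⟩) * φB ⟨x, hx⟩ *
            (s ⟨t, ht⟩)⁻¹ := by rw [hE.cen (Multiplicative.toAdd (h ⟨x, hx⟩)) (s ⟨t, ht⟩)]
      _ = i (Multiplicative.toAdd (h ⟨x, hx⟩)) *
            (s ⟨t, ht⟩ * φB ⟨x, hx⟩ * (s ⟨t, ht⟩)⁻¹) := by simp only [mul_assoc]
      _ = i (Multiplicative.toAdd (h ⟨t * x * t⁻¹, hx'⟩)) * φB ⟨t * x * t⁻¹, hx'⟩ := by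
          rw [h4, ← mul_assoc, ← hE.add, add_sub_cancel]
  obtain ⟨F, ⟨hFB, hFt⟩, _⟩ := huniv E ψB (s ⟨t, ht⟩) hagree
  -- the composite with the projection is the identity
  have hpB : ∀ x : B, p (ψB x) = ⟨x, hBH x.2⟩ := by
    intro x
    rw [hψB, map_mul, hpφ, (hE.ker _).2 ⟨_, rfl⟩, one_mul]
  have hid : ∀ x : H, p (F x) = x := by
    obtain ⟨F0, _, huniq⟩ := huniv H (Subgroup.inclusion hBH) ⟨t, ht⟩
      (fun x hxB hxA => rfl)
    have e1 := huniq (p.comp F) ⟨fun x hxB hxH => by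
        rw [MonoidHom.comp_apply, hFB x hxB hxH, hpB]
        rfl, fun hx => by
        rw [MonoidHom.comp_apply, hFt hx, hE.sec]⟩
    have e2 := huniq (MonoidHom.id H) ⟨fun x hxB hxH => rfl, fun hx => rfl⟩
    intro x
    have e3 : (p.comp F) x = (MonoidHom.id H) x := by rw [e1, e2]
    exact e3
  have hc : ∀ x : H, ∃ c, i c = F x * (s x)⁻¹ := by
    intro x
    apply (hE.ker _).1
    rw [map_mul, map_inv, hid, hE.sec, mul_inv_cancel]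
  choose c hc using hc
  have hc' : ∀ x : H, F x = i (c x) * s x := fun x => by rw [hc, inv_mul_cancel_right]
  refine ⟨fun x => - c x, fun x y => ?_⟩
  have h6 : i (c (x * y)) = i (c x + c y + f x y) := by
    apply mul_right_cancel (b := s (x * y))
    calc i (c (x * y)) * s (x * y) = F (x * y) := (hc' _).symm
      _ = F x * F y := map_mul _ _ _
      _ = i (c x) * (s x * i (c y)) * s y := by rw [hc' x, hc' y]; simp only [mul_assoc]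
      _ = i (c x) * (i (c y) * s x) * s y := by rw [hE.cen (c y) (s x)]
      _ = i (c x) * i (c y) * (s x * s y) := by simp only [mul_assoc]
      _ = i (c x + c y + f x y) * s (x * y) := by
        rw [hE.coc, hE.add, hE.add]; simp only [mul_assoc]
  have h7 := hE.inj h6
  show f x y = - c x + - c y - - c (x * y)
  rw [h7]
  abel

end PAM
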