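import Pool.Agent.PAM.DefsG

/-!
# PAM/GCount (module PAM-GCount): homomorphisms from an HNN extension to `Z/p`

`Hom(H, Z/p)` is the product of `Z/p` (the value at `t`) and the kernel of the homomorphism
`δ : Hom(B, Z/p) → Hom(C, Z/p)`, `(δ h)(x) = h(t x t⁻¹) - h(x)`, `C = assoc B t` (universal property), and
`Hom(C, Z/p)` has `p ^ m` elements.  See `PAM/CountAm.lean`.
-/

set_option autoImplicit false

open PFC PAL

namespace PAM

private theorem GCount_fin {p : ℕ} [Fact p.Prime] {G : Type} [Group G] {B : Subgroup G}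
    (hB : B.FG) : Finite (B →* Multiplicative (ZMod p)) := by
  have h1 : Group.FG B := (Group.fg_iff_subgroup_fg B).2 hB
  obtain ⟨S, hS⟩ := h1.out
  have _h0 : Finite (Multiplicative (ZMod p)) := inferInstanceAs (Finite (ZMod p))
  refine Finite.of_injective
    (fun (f : B →* Multiplicative (ZMod p)) => fun s : S => f (s : B)) ?_
  intro f g hfg
  refine MonoidHom.eq_of_eqOn_dense hS fun x hx => ?_
  exact congrFun hfg ⟨x, hx⟩

private theorem GCount_le {G : Type} [Group G] (B : Subgroup G) (t : G) : assoc B t ≤ B :=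
  fun _ hx => hx.1

/-- conjugation by `t` -/
private def GCount_cj {G : Type} [Group G] (B : Subgroup G) (t : G) : assoc B t →* B where
  toFun x := ⟨t * x.1 * t⁻¹, x.2.2⟩
  map_one' := by
    apply Subtype.ext
    change t * 1 * t⁻¹ = 1
    group
  map_mul' a b := by
    apply Subtype.ext
    change t * (a.1 * b.1) * t⁻¹ = (t * a.1 * t⁻¹) * (t * b.1 * t⁻¹)
    group

private noncomputable def GCount_del (p : ℕ) {G : Type} [Group G] (B : Subgroup G) (t : G) :
    (B →* Multiplicative (ZMod p)) →* (assoc B t →* Multiplicative (ZMod p)) :=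
  (MonoidHom.compHom' (GCount_cj B t)) / (MonoidHom.compHom' (Subgroup.inclusion (GCount_le B t)))

private theorem GCount_del_apply (p : ℕ) {G : Type} [Group G] (B : Subgroup G) (t : G)
    (f : B →* Multiplicative (ZMod p)) (x : G) (hx : x ∈ assoc B t) :
    GCount_del p B t f ⟨x, hx⟩ = f ⟨t * x * t⁻¹, hx.2⟩ / f ⟨x, hx.1⟩ := rfl

private theorem GCount_free (p : ℕ) [Fact p.Prime] {G : Type} [Group G] {C : Subgroup G} {t : ℕ}
    {c : Fin t → G} (hc : Subgroup.closure (Set.range c) = C)
    (hci : Function.Injective (FreeGroup.lift c)) :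
    Nat.card (C →* Multiplicative (ZMod p)) = p ^ t := by
  have e1 : FreeGroup (Fin t) ≃* (FreeGroup.lift c).range := MonoidHom.ofInjective hci
  have h1 : (FreeGroup.lift c).range = C := by rw [FreeGroup.range_lift_eq_closure, hc]
  let e : FreeGroup (Fin t) ≃* C := e1.trans (MulEquiv.subgroupCongr h1)
  let e2 : (C →* Multiplicative (ZMod p)) ≃ (FreeGroup (Fin t) →* Multiplicative (ZMod p)) :=
    { toFun := fun h => h.comp e.toMonoidHom
      invFun := fun k => k.comp e.symm.toMonoidHom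
      left_inv := fun h => MonoidHom.ext fun x => congrArg h (e.apply_symm_apply x)
      right_inv := fun k => MonoidHom.ext fun x => congrArg k (e.symm_apply_apply x) }
  have h2 : Nat.card (Multiplicative (ZMod p)) = p := Nat.card_zmod p
  rw [Nat.card_congr (e2.trans FreeGroup.lift.symm), Nat.card_fun, h2, Nat.card_fin]

private theorem GCount_ker {G : Type} [Group G] (p : ℕ) [Fact p.Prime] (H B : Subgroup G) (t : G)
    (hH : IsHNNG H B t) : hp p H = Nat.card (GCount_del p B t).ker * p := by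
  obtain ⟨hle, ht, huni⟩ := hH
  have hmem : ∀ F : H →* Multiplicative (ZMod p),
      F.comp (Subgroup.inclusion hle) ∈ (GCount_del p B t).ker := by
    intro F
    rw [MonoidHom.mem_ker]
    refine MonoidHom.ext fun x => ?_
    change F ⟨t * x.1 * t⁻¹, hle x.2.2⟩ / F ⟨x.1, hle x.2.1⟩ = 1
    have h1 : (⟨t * x.1 * t⁻¹, hle x.2.2⟩ : H) = ⟨t, ht⟩ * ⟨x.1, hle x.2.1⟩ * ⟨t, ht⟩⁻¹ := rfl
    rw [h1, map_mul, map_mul, map_inv, mul_comm (F ⟨t, ht⟩), mul_inv_cancel_right, div_self']
  let Ψ : (H →* Multiplicative (ZMod p)) → (GCount_del p B t).ker × Multiplicative (ZMod p) :=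
    fun F => (⟨F.comp (Subgroup.inclusion hle), hmem F⟩, F ⟨t, ht⟩)
  have hker : ∀ f : B →* Multiplicative (ZMod p), f ∈ (GCount_del p B t).ker →
      ∀ y : Multiplicative (ZMod p), ∀ (x : G) (h : x ∈ B) (h' : t * x * t⁻¹ ∈ B),
        y * f ⟨x, h⟩ * y⁻¹ = f ⟨t * x * t⁻¹, h'⟩ := by
    intro f hf y x h h'
    rw [MonoidHom.mem_ker] at hf
    have h2 := DFunLike.congr_fun hf (⟨x, h, h'⟩ : assoc B t)
    rw [GCount_del_apply] at h2
    have h1 : f ⟨t * x * t⁻¹, h'⟩ / f ⟨x, h⟩ = 1 := h2
    rw [div_eq_one] at h1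
    rw [mul_comm y, mul_inv_cancel_right, ← h1]
  have hbij : Function.Bijective Ψ := by
    constructor
    · intro F F' hF
      have h1 : F.comp (Subgroup.inclusion hle) = F'.comp (Subgroup.inclusion hle) :=
        congrArg Subtype.val (congrArg Prod.fst hF)
      have h2 : F ⟨t, ht⟩ = F' ⟨t, ht⟩ := congrArg Prod.snd hF
      obtain ⟨F0, _, hu⟩ := huni _ (F.comp (Subgroup.inclusion hle)) (F ⟨t, ht⟩)
        (hker _ (hmem F) _)
      have e1 : F = F0 := hu F ⟨fun x hB hH => rfl, fun h => rfl⟩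
      have e2 : F' = F0 := hu F' ⟨fun x hB hH => by
        have h3 := DFunLike.congr_fun h1 ⟨x, hB⟩
        exact h3.symm, fun h => h2.symm⟩
      rw [e1, e2]
    · rintro ⟨⟨f, hf⟩, y⟩
      obtain ⟨F, ⟨hF1, hF2⟩, _⟩ := huni _ f y (hker f hf y)
      refine ⟨F, ?_⟩
      refine Prod.ext (Subtype.ext ?_) (hF2 ht)
      ext x
      exact congrArg Multiplicative.toAdd (hF1 x.1 x.2 (hle x.2))
  have h1 := Nat.card_congr (Equiv.ofBijective Ψ hbij)
  rw [Nat.card_prod] at h1
  have h2 : Nat.card (Multiplicative (ZMod p)) = p := Nat.card_zmod p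
  rw [h2] at h1
  exact h1

theorem count_hnnG {G : Type} [Group G] (p : ℕ) [Fact p.Prime] (H B : Subgroup G) (t : G)
    (hH : IsHNNG H B t) (hB : B.FG) (m : ℕ) (c : Fin m → G)
    (hc : Subgroup.closure (Set.range c) = assoc B t)
    (hci : Function.Injective (FreeGroup.lift c)) :
    hp p B * p ≤ hp p H * p ^ m ∧ (hp p H * p ^ m ≤ hp p B * p → OntoHp p B t) := by
  have hfB : Finite (B →* Multiplicative (ZMod p)) := GCount_fin hB
  have hp1 : 0 < p := (Fact.out : p.Prime).pos
  have hC : Nat.card (assoc B t →* Multiplicative (ZMod p)) = p ^ m := GCount_free p hc hci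
  have hp0 : 0 < p ^ m := pow_pos hp1 m
  have hfC : Finite (assoc B t →* Multiplicative (ZMod p)) := by
    refine Nat.finite_of_card_ne_zero ?_
    rw [hC]
    exact hp0.ne'
  have hH2 := GCount_ker p H B t hH
  have hmul : Nat.card (GCount_del p B t).ker * Nat.card (GCount_del p B t).range = hp p B := by
    have h1 := (GCount_del p B t).ker.card_mul_index
    rw [Subgroup.index_ker] at h1
    exact h1
  have hK0 : 0 < Nat.card (GCount_del p B t).ker := Nat.card_pos
  have hR : Nat.card (GCount_del p B t).range ≤ p ^ m := by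
    rw [← hC]
    exact Subgroup.card_le_card_group _
  obtain ⟨s, hs⟩ : ∃ s, s = Nat.card (GCount_del p B t).ker := ⟨_, rfl⟩
  obtain ⟨u, hu⟩ : ∃ u, u = Nat.card (GCount_del p B t).range := ⟨_, rfl⟩
  rw [← hs, ← hu] at hmul
  rw [← hs] at hH2 hK0
  rw [← hu] at hR
  rw [← hmul, hH2]
  constructor
  · have h1 : s * u * p = s * p * u := by ring
    rw [h1]
    exact Nat.mul_le_mul_left _ hR
  · intro h
    have h1 : s * u * p = s * p * u := by ring
    rw [h1] at h
    have h2 : p ^ m ≤ u := Nat.le_of_mul_le_mul_left h (Nat.mul_pos hK0 hp1)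
    have h3 : (GCount_del p B t).range = ⊤ := by
      refine Subgroup.eq_top_of_le_card _ ?_
      rw [hC, ← hu]
      exact h2
    intro k
    have h4 : k ∈ (GCount_del p B t).range := by
      rw [h3]
      exact Subgroup.mem_top k
    obtain ⟨f, hf⟩ := h4
    refine ⟨f, fun x hx => ?_⟩
    rw [← hf, GCount_del_apply, div_eq_mul_inv]

end PAM
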