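import Pool.Agent.PAM.GInter
import Pool.Agent.PAL.CBas
import Pool.Agent.PAL.Prime

/-!
# PAM/GHnnA (module PAM-GHnnA): relation rows of an HNN extension

As in `PAL/Inert.lean`: a finite basis `a` of `A` (`exists_basis_fg`), a prime `p` (`exists_extP`), a basis
`c : κ → G` of `assoc B t` (a subgroup of the free group `A`, so free); for every finite set of indices
`hnn_inter` applies (`exists_fund`, `dual_der`), so `κ` is finite; reindex by `Fin m` and apply `hnn_inter` again.
The generators of `H` are `z, t` (`H` is generated by `B` and `t`: universal property with `Y` the subgroup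
generated by `B` and `t`, and uniqueness; see `amalgam_sup` in `PAL/Glue.lean`); the rows are `(X, 0)` and
`(el t * JC - JD, 1 - el (t c t⁻¹))` (`hasPD_of` for the index types `N ⊕ Unit`, `ρ ⊕ Fin m`).
-/

set_option autoImplicit false

open PFC PAL

namespace PAM

private theorem ghnn_free {G : Type} [Group G] (C A : Subgroup G) (hCA : C ≤ A)
    (hA : IsFreeGroup A) : IsFreeGroup C := by
  have h1 : IsFreeGroup (C.subgroupOf A) := inferInstance
  exact IsFreeGroup.ofMulEquiv (Subgroup.subgroupOfEquivOfLe hCA)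

private theorem ghnn_lift {G κ : Type} [Group G] {m : ℕ} (c : κ → G) (e : Fin m ≃ κ)
    (h : Function.Injective (FreeGroup.lift c)) :
    Function.Injective (FreeGroup.lift fun i => c (e i)) := by
  have h1 : FreeGroup.lift (fun i => c (e i)) =
      (FreeGroup.lift c).comp (FreeGroup.freeGroupCongr e).toMonoidHom := by
    apply FreeGroup.ext_hom
    intro i
    simp
  rw [h1]
  exact h.comp (FreeGroup.freeGroupCongr e).injective

/-- the HNN extension is generated by `B` and `t` -/
private theorem ghnn_gen {G : Type} [Group G] (H B : Subgroup G) (t : G) (hH : IsHNNG H B t) :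
    B ⊔ Subgroup.closure {t} = H := by
  obtain ⟨hB, ht, univ⟩ := hH
  have htc : t ∈ Subgroup.closure ({t} : Set G) := Subgroup.subset_closure rfl
  have htK : t ∈ B ⊔ Subgroup.closure {t} := Subgroup.mem_sup_right htc
  apply le_antisymm
  · refine sup_le hB ?_
    rw [Subgroup.closure_le]
    rintro x rfl
    exact ht
  obtain ⟨F, ⟨hF1, hF2⟩, -⟩ := univ (↥(B ⊔ Subgroup.closure {t}))
    (Subgroup.inclusion le_sup_left) ⟨t, htK⟩ (fun x h h' => rfl)
  obtain ⟨F', -, huniq⟩ := univ G B.subtype t (fun x _ _ => rfl)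
  have h1 : (B ⊔ Subgroup.closure {t}).subtype.comp F = F' := by
    apply huniq
    refine ⟨fun x hx hxH => ?_, fun h => ?_⟩
    · rw [MonoidHom.comp_apply, hF1 x hx hxH]; rfl
    · rw [MonoidHom.comp_apply, hF2 h]; rfl
  have h2 : H.subtype = F' := by
    apply huniq
    exact ⟨fun x hx hxH => rfl, fun h => rfl⟩
  intro x hx
  have h3 : (B ⊔ Subgroup.closure {t}).subtype (F ⟨x, hx⟩) = x := by
    have h4 := DFunLike.congr_fun (h1.trans h2.symm) ⟨x, hx⟩
    exact h4
  rw [← h3]
  exact (F ⟨x, hx⟩).2

private theorem ghnn_mono {G : Type} [Group G] {B H : Subgroup G} (h : B ≤ H) {f : GR G}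
    (hf : InSub B f) : InSub H f := fun g hg => h (hf g hg)

/-- the rows of the HNN extension -/
private theorem ghnn_pd {G : Type} [Group G] (H B : Subgroup G) (t : G) {N ρ m : ℕ}
    (hH : IsHNNG H B t) (z : Fin N → G) (X : Fin ρ → Fin N → GR G) (hPD : PD B z X)
    (c : Fin m → G) (hc : ∀ l, c l ∈ assoc B t)
    (JC : Fin m → Fin N → GR G) (hJC : ∀ l, Fund z (c l) (JC l))
    (hsC : ∀ l ν, InSub B (JC l ν))
    (JD : Fin m → Fin N → GR G) (hJD : ∀ l, Fund z (t * c l * t⁻¹) (JD l))
    (hsD : ∀ l ν, InSub B (JD l ν))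
    (hinj : ∀ v : Fin ρ ⊕ Fin m → G → ℝ, (∀ i, Sq (v i)) →
      (∀ ν y, ∑ i, ra (v (Sum.inl i)) (X i ν) y +
        ∑ l, ra (v (Sum.inr l)) (el t * JC l ν - JD l ν) y = 0) →
      (∀ y, ∑ l, ra (v (Sum.inr l)) (1 - el (t * c l * t⁻¹)) y = 0) → v = 0) :
    HasPD H (N + 1) (ρ + m) := by
  have h0 := hasPD_of (ρ := Fin ρ ⊕ Fin m) (N := Fin N ⊕ Unit) H (Sum.elim z fun _ => t)
    (Sum.elim (fun i => Sum.elim (X i) fun _ => 0)
      (fun l => Sum.elim (fun ν => el t * JC l ν - JD l ν) fun _ => 1 - el (t * c l * t⁻¹)))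
    { gen := by
        rw [← ghnn_gen H B t hH, ← hPD.gen]
        apply le_antisymm
        · rw [Subgroup.closure_le]
          rintro x ⟨ν, rfl⟩
          rcases ν with ν | ν
          · exact Subgroup.mem_sup_left (Subgroup.subset_closure ⟨ν, rfl⟩)
          · exact Subgroup.mem_sup_right (Subgroup.subset_closure rfl)
        · refine sup_le ?_ ?_
          · rw [Subgroup.closure_le]
            rintro x ⟨ν, rfl⟩
            exact Subgroup.subset_closure ⟨Sum.inl ν, rfl⟩
          · rw [Subgroup.closure_le]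
            rintro x rfl
            exact Subgroup.subset_closure ⟨Sum.inr (), rfl⟩
      rel := by
        intro i
        rw [Fintype.sum_sum_type]
        rcases i with i | l
        · show ∑ ν, X i ν * (el (z ν) - 1) + ∑ _ν : Unit, (0 : GR G) * (el t - 1) = 0
          rw [hPD.rel i, Finset.sum_eq_zero fun _ _ => zero_mul _, add_zero]
        · show ∑ ν, (el t * JC l ν - JD l ν) * (el (z ν) - 1) +
            ∑ _ν : Unit, (1 - el (t * c l * t⁻¹) : GR G) * (el t - 1) = 0
          have h5 : ∑ _ν : Unit, (1 - el (t * c l * t⁻¹) : GR G) * (el t - 1) =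
              (1 - el (t * c l * t⁻¹) : GR G) * (el t - 1) := Fintype.sum_unique _
          rw [h5]
          have h1 : ∑ ν, (el t * JC l ν - JD l ν) * (el (z ν) - 1) =
              el t * ∑ ν, JC l ν * (el (z ν) - 1) - ∑ ν, JD l ν * (el (z ν) - 1) := by
            rw [Finset.mul_sum, ← Finset.sum_sub_distrib]
            refine Finset.sum_congr rfl fun ν _ => ?_
            rw [sub_mul, mul_assoc]
          have h2 : el (c l) - 1 = ∑ ν, JC l ν * (el (z ν) - 1) := hJC l
          have h3 : el (t * c l * t⁻¹) - 1 = ∑ ν, JD l ν * (el (z ν) - 1) := hJD l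
          have h4 : (el (t * c l * t⁻¹) * el t : GR G) = el t * el (c l) := by
            rw [← PAL.el_mul, ← PAL.el_mul, inv_mul_cancel_right]
          rw [h1, ← h2, ← h3, sub_mul, one_mul, mul_sub (el (t * c l * t⁻¹)), h4]
          rw [mul_sub, mul_one, mul_one]
          abel
      supp := by
        intro i ν
        rcases i with i | l
        · rcases ν with ν | ν
          · exact ghnn_mono hH.1 (hPD.supp i ν)
          · exact inSub_zero H
        · rcases ν with ν | ν
          · show InSub H (el t * JC l ν - JD l ν)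
            rw [sub_eq_add_neg]
            exact inSub_add (inSub_el_mul hH.2.1 (ghnn_mono hH.1 (hsC l ν)))
              (inSub_neg (ghnn_mono hH.1 (hsD l ν)))
          · show InSub H (1 - el (t * c l * t⁻¹))
            rw [sub_eq_add_neg]
            exact inSub_add inSub_one (inSub_neg (inSub_el (hH.1 (hc l).2)))
      inj := by
        intro v hv hv0
        refine hinj v hv ?_ ?_
        · intro ν y
          have h1 := hv0 (Sum.inl ν) y
          rw [Fintype.sum_sum_type] at h1
          exact h1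
        · intro y
          have h1 := hv0 (Sum.inr ()) y
          rw [Fintype.sum_sum_type] at h1
          have h2 : ∑ i : Fin ρ, ra (v (Sum.inl i)) (0 : GR G) y = 0 :=
            Finset.sum_eq_zero fun i _ => ra_zero_right _ _
          have h3 : ∑ i : Fin ρ, ra (v (Sum.inl i)) (0 : GR G) y +
              ∑ l, ra (v (Sum.inr l)) (1 - el (t * c l * t⁻¹)) y = 0 := h1
          rw [h2, zero_add] at h3
          exact h3 }
  rw [Fintype.card_sum, Fintype.card_sum, Fintype.card_fin, Fintype.card_fin, Fintype.card_fin,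
    Fintype.card_unit] at h0
  exact h0

theorem pd_hnnA {G : Type} [Group G] {r : ℕ} (x : Fin r → G) (hx : PRT.Para x)
    (hres : ∀ p : ℕ, p.Prime → ResQ p G) (H B A : Subgroup G) (t : G) {N ρ : ℕ}
    (hB : HasPD B N ρ) (hA : HomInj A) (hCA : assoc B t ≤ A) (hAB : A ≤ B)
    (hH : IsHNNG H B t) :
    ∃ (m : ℕ) (c : Fin m → G), Subgroup.closure (Set.range c) = assoc B t ∧
      Function.Injective (FreeGroup.lift c) ∧ HasPD H (N + 1) (ρ + m) := by
  obtain ⟨z, X, hPD⟩ := hB
  obtain ⟨hAf, hAfg, hAi⟩ := hA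
  obtain ⟨s, a, hacl, hainj, hah⟩ := exists_basis_fg A hAf hAfg
  obtain ⟨p, hp, hext⟩ := exists_extP x hx a (hah hAi)
  have : Fact p.Prime := ⟨hp⟩
  obtain ⟨κ, c, hccl, hcinj⟩ := exists_basis (assoc B t) (ghnn_free (assoc B t) A hCA hAf)
  have hc : ∀ l, c l ∈ assoc B t := by
    intro l
    rw [← hccl]
    exact Subgroup.subset_closure ⟨l, rfl⟩
  choose JC hJC hsC using fun l => exists_fund z B hPD.gen (c l) (hc l).1
  choose JD hJD hsD using fun l => exists_fund z B hPD.gen (t * c l * t⁻¹) (hc l).2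
  choose JA hJA hsA using fun l => exists_fund a A hacl (c l) (hCA (hc l))
  classical
  have key : ∀ (κ' : Type) [Fintype κ'] (j : κ' → κ), Function.Injective j →
      (∀ v : Fin ρ ⊕ κ' → G → ℝ, (∀ i, Sq (v i)) →
        (∀ ν y, ∑ i, ra (v (Sum.inl i)) (X i ν) y +
          ∑ l, ra (v (Sum.inr l)) (el t * JC (j l) ν - JD (j l) ν) y = 0) →
        (∀ y, ∑ l, ra (v (Sum.inr l)) (1 - el (t * c (j l) * t⁻¹)) y = 0) → v = 0) ∧
        Fintype.card (Fin ρ) + Fintype.card κ' ≤ Fintype.card (Fin N) + 1 := by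
    intro κ' _ j hj
    refine hnn_inter x hx p (hres p hp) H B A t hH z X hPD.rel hPD.supp hPD.inj hCA hAB a hext
      (fun l => c (j l)) (fun l => hc (j l)) ?_ (fun l => JC (j l)) (fun l => hJC (j l))
      (fun l => hsC (j l)) (fun l => JD (j l)) (fun l => hJD (j l)) (fun l => hsD (j l))
      (fun l => JA (j l)) (fun l => hJA (j l)) (fun l => hsA (j l))
    intro m
    obtain ⟨D, hD, hD2⟩ := dual_der (assoc B t) c hccl hcinj (j m)
    refine ⟨D, hD, fun l => ?_⟩
    rw [hD2 (j l) (hc (j l))]
    by_cases hl : l = m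
    · rw [if_pos hl, if_pos (congrArg j hl)]
    · rw [if_neg hl, if_neg fun h => hl (hj h)]
  have hfin : Finite κ := by
    by_contra hinf
    rw [not_finite_iff_infinite] at hinf
    obtain ⟨F, hF⟩ := Infinite.exists_subset_card_eq κ (N + 2)
    have h1 := (key F (fun l => l.1) Subtype.val_injective).2
    rw [Fintype.card_coe, hF, Fintype.card_fin, Fintype.card_fin] at h1
    omega
  have := Fintype.ofFinite κ
  let e : Fin (Fintype.card κ) ≃ κ := (Fintype.equivFin κ).symm
  have h1 := key (Fin (Fintype.card κ)) e e.injective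
  refine ⟨Fintype.card κ, fun l => c (e l), ?_, ghnn_lift c e hcinj, ?_⟩
  · rw [← hccl]
    congr 1
    exact e.surjective.range_comp c
  · exact ghnn_pd H B t hH z X hPD (fun l => c (e l)) (fun l => hc (e l))
      (fun l => JC (e l)) (fun l => hJC (e l)) (fun l => hsC (e l))
      (fun l => JD (e l)) (fun l => hJD (e l)) (fun l => hsD (e l)) h1.1

end PAM
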