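import Pool.Agent.PAM.Defs

/-!
# PAM/Hnn (module PAM-Hnn): relation rows of an HNN extension over a cyclic subgroup

The generators of `H` are `z, t` (`H` is generated by `B` and `t`: universal property with `Y` the subgroup
generated by `B` and `t` and uniqueness, see `amalgam_sup` in `PAL/Glue.lean`).  If `c = 1` there is no new
row.  If `c ≠ 1` the new row is `el t * JB(c) - JB(t c t⁻¹)` on the columns `z` and `1 - el (t c t⁻¹)` on the
column `t` (`exists_fund`).  `inj`: the column `t` gives `v'' (1 - t c t⁻¹) = 0`, and `t c t⁻¹` has infinite order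
(`pow_ne_one`), so `v'' = 0` (constant on infinite cosets).
-/

set_option autoImplicit false

open PFC PAL

namespace PAM

private theorem Hnn_sup {G : Type} [Group G] (H B : Subgroup G) (t c : G)
    (hH : IsHNN H B t c) : Subgroup.closure ((B : Set G) ∪ {t}) = H := by
  obtain ⟨hB, ht, hc, hc', univ⟩ := hH
  have hle : Subgroup.closure ((B : Set G) ∪ {t}) ≤ H := by
    rw [Subgroup.closure_le]
    rintro x (hx | hx)
    · exact hB hx
    · rw [Set.mem_singleton_iff] at hx
      rw [hx]
      exact ht
  have hBK : B ≤ Subgroup.closure ((B : Set G) ∪ {t}) := fun x hx =>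
    Subgroup.subset_closure (Or.inl hx)
  have htK : t ∈ Subgroup.closure ((B : Set G) ∪ {t}) := Subgroup.subset_closure (Or.inr rfl)
  refine le_antisymm hle ?_
  obtain ⟨F, ⟨hF1, hF2⟩, -⟩ := univ (↥(Subgroup.closure ((B : Set G) ∪ {t})))
    (Subgroup.inclusion hBK) ⟨t, htK⟩ (fun _ _ => Subtype.ext rfl)
  obtain ⟨F', -, huniq⟩ := univ G B.subtype t (fun _ _ => rfl)
  have h1 : (Subgroup.closure ((B : Set G) ∪ {t})).subtype.comp F = F' := by
    apply huniq
    refine ⟨fun x hx hxH => ?_, fun h => ?_⟩
    · rw [MonoidHom.comp_apply, hF1 x hx hxH]; rfl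
    · rw [MonoidHom.comp_apply, hF2 h]; rfl
  have h2 : H.subtype = F' := by
    apply huniq
    exact ⟨fun x hx hxH => rfl, fun h => rfl⟩
  intro x hx
  have h3 : (Subgroup.closure ((B : Set G) ∪ {t})).subtype (F ⟨x, hx⟩) = x :=
    DFunLike.congr_fun (h1.trans h2.symm) ⟨x, hx⟩
  rw [← h3]
  exact (F ⟨x, hx⟩).2

private theorem Hnn_gen {G : Type} [Group G] (H B : Subgroup G) (t c : G) {N : Type}
    (z : N → G) (hz : Subgroup.closure (Set.range z) = B) (hH : IsHNN H B t c) :
    Subgroup.closure (Set.range (Sum.elim z (fun _ : Unit => t))) = H := by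
  rw [← Hnn_sup H B t c hH]
  apply le_antisymm
  · rw [Subgroup.closure_le]
    rintro x ⟨ν | u, rfl⟩
    · refine Subgroup.subset_closure (Or.inl ?_)
      rw [SetLike.mem_coe, ← hz]
      exact Subgroup.subset_closure ⟨ν, rfl⟩
    · exact Subgroup.subset_closure (Or.inr rfl)
  · rw [Subgroup.closure_le]
    rintro x (hx | hx)
    · rw [SetLike.mem_coe, ← hz] at hx
      refine Subgroup.closure_mono ?_ hx
      rintro y ⟨ν, rfl⟩
      exact ⟨Sum.inl ν, rfl⟩
    · rw [Set.mem_singleton_iff] at hx
      rw [hx]
      exact Subgroup.subset_closure ⟨Sum.inr (), rfl⟩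

private theorem Hnn_const {G : Type} [Group G] (v : G → ℝ) (hv : Sq v) (u : G)
    (hu : ∀ n : ℤ, n ≠ 0 → u ^ n ≠ 1) (h : ∀ x, v x = v (x * u⁻¹)) : v = 0 := by
  funext x
  have h1 : ∀ n : ℕ, v (x * u ^ n) = v x := by
    intro n
    induction n with
    | zero => rw [pow_zero, mul_one]
    | succ n ih =>
      rw [h (x * u ^ (n + 1)), pow_succ, ← mul_assoc, mul_inv_cancel_right, ih]
  have hinj : Function.Injective (fun n : ℕ => x * u ^ n) := by
    intro a b hab
    have h2 : u ^ a = u ^ b := mul_left_cancel hab
    by_contra hne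
    apply hu ((a : ℤ) - b)
    · intro h3
      apply hne
      omega
    · rw [zpow_sub, zpow_natCast, zpow_natCast, h2, mul_inv_cancel]
  have h4 : Summable (fun n : ℕ => v (x * u ^ n) ^ 2) := Summable.comp_injective hv hinj
  have h5 : (fun n : ℕ => v (x * u ^ n) ^ 2) = fun _ => v x ^ 2 := by
    funext n
    rw [h1 n]
  rw [h5, summable_const_iff] at h4
  exact pow_eq_zero_iff two_ne_zero |>.1 h4

private theorem Hnn_mono {G : Type} [Group G] {B H : Subgroup G} (h : B ≤ H) {f : GR G}
    (hf : InSub B f) : InSub H f := fun g hg => h (hf g hg)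

open Classical in
theorem pd_hnn {G : Type} [Group G] (hres : ∀ p : ℕ, p.Prime → ResQ p G) (H B : Subgroup G)
    (t c : G) {N ρ : ℕ} (hB : HasPD B N ρ) (hH : IsHNN H B t c) :
    HasPD H (N + 1) (ρ + if c = 1 then 0 else 1) := by
  obtain ⟨z, X, hX⟩ := hB
  have hBH : B ≤ H := hH.1
  have htH : t ∈ H := hH.2.1
  have hcB : c ∈ B := hH.2.2.1
  have hdB : t * c * t⁻¹ ∈ B := hH.2.2.2.1
  have hgen := Hnn_gen H B t c z hX.gen hH
  by_cases hc : c = 1
  · rw [if_pos hc, add_zero]
    have h := hasPD_of (N := Fin N ⊕ Unit) (ρ := Fin ρ) H (Sum.elim z (fun _ : Unit => t))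
      (fun i => Sum.elim (X i) (fun _ => 0)) ?_
    · rw [Fintype.card_sum, Fintype.card_fin, Fintype.card_unit, Fintype.card_fin] at h
      exact h
    · refine ⟨hgen, ?_, ?_, ?_⟩
      · intro i
        rw [Fintype.sum_sum_type]
        simp only [Sum.elim_inl, Sum.elim_inr, zero_mul, Finset.sum_const_zero, add_zero]
        exact hX.rel i
      · rintro i (ν | u)
        · exact Hnn_mono hBH (hX.supp i ν)
        · exact inSub_zero H
      · intro v hv h0
        exact hX.inj v hv fun ν x => h0 (Sum.inl ν) x
  · rw [if_neg hc]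
    obtain ⟨J, hJ, hJs⟩ := exists_fund z B hX.gen c hcB
    obtain ⟨K, hK, hKs⟩ := exists_fund z B hX.gen (t * c * t⁻¹) hdB
    have hd : t * c * t⁻¹ ≠ 1 := by
      intro h
      exact hc (conj_eq_one_iff.1 h)
    have h := hasPD_of (N := Fin N ⊕ Unit) (ρ := Fin ρ ⊕ Unit) H
      (Sum.elim z (fun _ : Unit => t))
      (Sum.elim (fun i => Sum.elim (X i) (fun _ => 0))
        (fun _ => Sum.elim (fun ν => el t * J ν - K ν) (fun _ => 1 - el (t * c * t⁻¹)))) ?_
    · rw [Fintype.card_sum, Fintype.card_sum, Fintype.card_fin, Fintype.card_unit,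
        Fintype.card_fin] at h
      exact h
    · refine ⟨hgen, ?_, ?_, ?_⟩
      · rintro (i | u)
        · rw [Fintype.sum_sum_type]
          simp only [Sum.elim_inl, Sum.elim_inr, zero_mul, Finset.sum_const_zero, add_zero]
          exact hX.rel i
        · rw [Fintype.sum_sum_type]
          simp only [Sum.elim_inl, Sum.elim_inr, Finset.univ_unique, Finset.sum_singleton,
            sub_mul, Finset.sum_sub_distrib]
          unfold Fund at hJ hK
          have h1 : ∑ ν, el t * J ν * (el (z ν) - 1) = el t * (el c - 1) := by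
            rw [hJ, Finset.mul_sum]
            exact Finset.sum_congr rfl fun ν _ => mul_assoc _ _ _
          have h2 : (el (t * c * t⁻¹) * el t : GR G) = el t * el c := by
            rw [← el_mul, ← el_mul, inv_mul_cancel_right]
          have h3 : (el (t * c * t⁻¹) * (el t - 1) : GR G) = el t * el c - el (t * c * t⁻¹) := by
            rw [mul_sub, mul_one, h2]
          rw [h1, ← hK, h3, mul_sub, mul_one, one_mul]
          abel
      · rintro (i | u) (ν | u')
        · exact Hnn_mono hBH (hX.supp i ν)
        · exact inSub_zero H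
        · show InSub H (el t * J ν - K ν)
          rw [sub_eq_add_neg]
          exact inSub_add (inSub_el_mul htH (Hnn_mono hBH (hJs ν)))
            (inSub_neg (Hnn_mono hBH (hKs ν)))
        · show InSub H (1 - el (t * c * t⁻¹))
          rw [sub_eq_add_neg]
          exact inSub_add inSub_one (inSub_neg (inSub_el (hBH hdB)))
      · intro v hv h0
        have hlast : v (Sum.inr ()) = 0 := by
          refine Hnn_const _ (hv _) (t * c * t⁻¹)
            (fun n hn => pow_ne_one hres _ hd n hn) fun x => ?_
          have h1 := h0 (Sum.inr ()) x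
          rw [Fintype.sum_sum_type] at h1
          simp only [Sum.elim_inl, Sum.elim_inr, ra_zero_right, Finset.sum_const_zero,
            Finset.univ_unique, Finset.sum_singleton, zero_add] at h1
          rw [sub_eq_add_neg, ra_add_right, ra_neg_right, ra_one, ra_el] at h1
          linarith
        have hrest : (fun i => v (Sum.inl i)) = 0 := by
          refine hX.inj _ (fun i => hv _) fun ν x => ?_
          have h1 := h0 (Sum.inl ν) x
          rw [Fintype.sum_sum_type] at h1
          simp only [Sum.elim_inl, Sum.elim_inr, Finset.univ_unique,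
            Finset.sum_singleton] at h1
          have h2 : v (Sum.inr default) = fun _ => 0 := hlast
          rw [h2, ra_zero_left, add_zero] at h1
          exact h1
        funext i
        rcases i with i | u
        · exact congrFun hrest i
        · exact hlast

end PAM
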