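import Pool.Agent.PAM.DefsG
import Pool.Agent.PAM.Hnn

/-!
# PAM/GHnnC (module PAM-GHnnC): relation rows of an HNN extension over a cyclic subgroup

Let `c` generate `assoc B t`.  If `c = 1` take `m = 0` (generators `z, t`, rows `(X, 0)`).  If `c ≠ 1` take `m = 1`;
the new row is `(el t * JB(c) - JB(t c t⁻¹), 1 - el (t c t⁻¹))`; it is independent of the others because
`v'' (1 - t c t⁻¹) = 0` implies `v'' = 0` (`t c t⁻¹` has infinite order, `pow_ne_one`).  See `PAM/Hnn.lean`.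
-/

set_option autoImplicit false

open PFC PAL

namespace PAM

private theorem ghc_hnn {G : Type} [Group G] (H B : Subgroup G) (t c : G)
    (hc : c ∈ assoc B t) (hgen : ∀ x ∈ assoc B t, ∃ n : ℤ, c ^ n = x) (hH : IsHNNG H B t) :
    IsHNN H B t c := by
  refine ⟨hH.1, hH.2.1, hc.1, hc.2, ?_⟩
  intro Y _ f y hy
  refine hH.2.2 Y f y ?_
  intro x h h'
  obtain ⟨n, rfl⟩ := hgen x ⟨h, h'⟩
  have h1 := hy hc.1 hc.2
  have h2 : (⟨c ^ n, h⟩ : B) = ⟨c, hc.1⟩ ^ n := Subtype.ext rfl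
  have h3 : (⟨t * c ^ n * t⁻¹, h'⟩ : B) = ⟨t * c * t⁻¹, hc.2⟩ ^ n := by
    apply Subtype.ext
    show t * c ^ n * t⁻¹ = (t * c * t⁻¹) ^ n
    rw [conj_zpow]
  rw [h2, h3, map_zpow, map_zpow, ← h1, conj_zpow]

private theorem ghc_free {G : Type} [Group G] (c : G) (hc : ∀ n : ℤ, n ≠ 0 → c ^ n ≠ 1) :
    Function.Injective (FreeGroup.lift (fun _ : Fin 1 => c)) := by
  rw [injective_iff_map_eq_one]
  intro w hw
  have e : ∀ z : FreeGroup (Fin 1), z ∈ Subgroup.zpowers (FreeGroup.of (0 : Fin 1)) := by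
    intro z
    induction z using FreeGroup.induction_on with
    | C1 => exact Subgroup.one_mem _
    | of x =>
      have hx : x = 0 := Subsingleton.elim _ _
      rw [hx]
      exact Subgroup.mem_zpowers _
    | inv_of x hx =>
      have hx' : x = 0 := Subsingleton.elim _ _
      rw [hx']
      exact Subgroup.inv_mem _ (Subgroup.mem_zpowers _)
    | mul x y hx hy => exact Subgroup.mul_mem _ hx hy
  have h1 : ∃ n : ℤ, (FreeGroup.of (0 : Fin 1)) ^ n = w := e w
  obtain ⟨n, rfl⟩ := h1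
  rw [map_zpow, FreeGroup.lift_apply_of] at hw
  have hn : n = 0 := by
    by_contra hne
    exact hc n hne hw
  rw [hn, zpow_zero]

theorem pd_hnnC {G : Type} [Group G] (hres : ∀ p : ℕ, p.Prime → ResQ p G) (H B : Subgroup G)
    (t : G) {N ρ : ℕ} (hB : HasPD B N ρ) (hC : IsCyclic (assoc B t)) (hH : IsHNNG H B t) :
    ∃ (m : ℕ) (c : Fin m → G), Subgroup.closure (Set.range c) = assoc B t ∧
      Function.Injective (FreeGroup.lift c) ∧ HasPD H (N + 1) (ρ + m) := by
  obtain ⟨⟨c, hcm⟩, hc⟩ := hC.exists_generator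
  have hgen : ∀ x ∈ assoc B t, ∃ n : ℤ, c ^ n = x := by
    intro x hx
    obtain ⟨n, hn⟩ := Subgroup.mem_zpowers_iff.1 (hc ⟨x, hx⟩)
    exact ⟨n, congrArg Subtype.val hn⟩
  have hH' := ghc_hnn H B t c hcm hgen hH
  have hpd := pd_hnn hres H B t c hB hH'
  by_cases h1 : c = 1
  · rw [if_pos h1] at hpd
    refine ⟨0, Fin.elim0, ?_, ?_, hpd⟩
    · rw [Set.range_eq_empty, Subgroup.closure_empty]
      symm
      rw [Subgroup.eq_bot_iff_forall]
      intro x hx
      obtain ⟨n, rfl⟩ := hgen x hx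
      rw [h1, one_zpow]
    · exact Function.injective_of_subsingleton _
  · rw [if_neg h1] at hpd
    refine ⟨1, fun _ => c, ?_, ghc_free c (fun n hn => pow_ne_one hres c h1 n hn), hpd⟩
    rw [Set.range_const, ← Subgroup.zpowers_eq_closure]
    apply le_antisymm
    · rw [Subgroup.zpowers_le]
      exact hcm
    · intro x hx
      obtain ⟨n, hn⟩ := hgen x hx
      exact Subgroup.mem_zpowers_iff.2 ⟨n, hn⟩

end PAM
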