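import Pool.Agent.PAM.DefsG
import Pool.Agent.PAL.FLvl
import Pool.Agent.PAL.Rat

/-!
# PAM/GInter (module PAM-GInter): the kernel of the rows of the edge group of an HNN extension is zero

Finite levels: `flvl` and the rules for derivations, with the column `d_l - 1`; `transfer` for square summable
vectors; restriction to the coset `gB`, where the part with the stable letter is seen on `g t A`, which is disjoint
from `gB`; translation by `g t` and `supp_zero`.
-/

set_option autoImplicit false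

open PFC PAL

namespace PAM

private theorem GI_lvl {G ρ N κ σ : Type} [Group G] [Fintype ρ] [Fintype N] [Fintype κ]
    [Fintype σ] {r : ℕ} (x : Fin r → G) (hx : PRT.Para x) (p : ℕ) [Fact p.Prime] (t : G)
    (z : N → G) (X : ρ → N → GR G)
    (hrel : ∀ i, ∑ ν, X i ν * (el (z ν) - 1) = 0)
    (a : σ → G) (hext : ExtP p (Fin r) a) (c : κ → G)
    (JC : κ → N → GR G) (hJC : ∀ l, Fund z (c l) (JC l))
    (JD : κ → N → GR G) (hJD : ∀ l, Fund z (t * c l * t⁻¹) (JD l))
    (JA : κ → σ → GR G) (hJA : ∀ l, Fund a (c l) (JA l))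
    (Q : Type) [Group Q] [Finite Q] (hQ : IsPGroup p Q) (θ : G →* Q) (v : ρ → GR Q)
    (u w : κ → GR Q)
    (h : ∀ ν, ∑ i, v i * mp θ (X i ν) + (∑ l, u l * mp θ (JC l ν) -
      ∑ l, w l * mp θ (JD l ν)) = 0)
    (h' : ∑ l, w l * (el (θ (t * c l * t⁻¹)) - 1) = 0) (i : σ) :
    ∑ l, u l * mp θ (JA l i) - ∑ l, w l * (el (θ t) * mp θ (JA l i)) = 0 := by
  have h0 := flvl x hx p hQ θ a hext
    (fun i => ∑ l, u l * mp θ (JA l i) - ∑ l, w l * (el (θ t) * mp θ (JA l i))) ?_
  · exact congrFun h0 i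
  intro M _ _ D hD
  have e1 : ∑ i, (∑ l, u l * mp θ (JA l i)) • D (a i) = ∑ l, u l • D (c l) := by
    simp only [Finset.sum_smul]
    rw [Finset.sum_comm]
    refine Finset.sum_congr rfl fun l _ => ?_
    rw [der_fund' θ D hD a (c l) (JA l) (hJA l), Finset.smul_sum]
    exact Finset.sum_congr rfl fun i _ => mul_smul _ _ _
  have e2 : ∑ i, (∑ l, w l * (el (θ t) * mp θ (JA l i))) • D (a i) =
      ∑ l, w l • ((el (θ t) : GR Q) • D (c l)) := by
    simp only [Finset.sum_smul]
    rw [Finset.sum_comm]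
    refine Finset.sum_congr rfl fun l _ => ?_
    rw [der_fund' θ D hD a (c l) (JA l) (hJA l), Finset.smul_sum, Finset.smul_sum]
    refine Finset.sum_congr rfl fun i _ => ?_
    rw [mul_smul, mul_smul]
  have e3 : ∀ l, (el (θ t) : GR Q) • D (c l) =
      D (t * c l * t⁻¹) + ((el (θ (t * c l * t⁻¹)) - 1 : GR Q)) • D t := by
    intro l
    have h1 := hD t (c l)
    have h2 := hD (t * c l * t⁻¹) t
    have h3 : t * c l * t⁻¹ * t = t * c l := by group
    rw [h3, h1] at h2
    rw [sub_smul, one_smul]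
    have h4 : (el (θ t) : GR Q) • D (c l) = (D t + (el (θ t) : GR Q) • D (c l)) - D t := by abel
    rw [h4, h2]
    abel
  have e4 : ∑ l, w l • ((el (θ t) : GR Q) • D (c l)) = ∑ l, w l • D (t * c l * t⁻¹) := by
    have h1 : ∑ l, w l • ((el (θ t) : GR Q) • D (c l)) = ∑ l, w l • D (t * c l * t⁻¹) +
        (∑ l, w l * (el (θ (t * c l * t⁻¹)) - 1)) • D t := by
      rw [Finset.sum_smul, ← Finset.sum_add_distrib]
      refine Finset.sum_congr rfl fun l _ => ?_
      rw [e3 l, smul_add, mul_smul]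
    rw [h1, h', zero_smul, add_zero]
  have e5 : ∑ l, u l • D (c l) = ∑ ν, (∑ l, u l * mp θ (JC l ν)) • D (z ν) := by
    simp only [Finset.sum_smul]
    rw [Finset.sum_comm]
    refine Finset.sum_congr rfl fun l _ => ?_
    rw [der_fund' θ D hD z (c l) (JC l) (hJC l), Finset.smul_sum]
    exact Finset.sum_congr rfl fun i _ => (mul_smul _ _ _).symm
  have e6 : ∑ l, w l • D (t * c l * t⁻¹) = ∑ ν, (∑ l, w l * mp θ (JD l ν)) • D (z ν) := by
    simp only [Finset.sum_smul]
    rw [Finset.sum_comm]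
    refine Finset.sum_congr rfl fun l _ => ?_
    rw [der_fund' θ D hD z (t * c l * t⁻¹) (JD l) (hJD l), Finset.smul_sum]
    exact Finset.sum_congr rfl fun i _ => (mul_smul _ _ _).symm
  have e7 : ∑ ν, (∑ i, v i * mp θ (X i ν)) • D (z ν) = 0 := by
    simp only [Finset.sum_smul]
    rw [Finset.sum_comm]
    refine Finset.sum_eq_zero fun i _ => ?_
    have e4 := der_rel' θ D hD z (X i) (hrel i)
    have e5 := congrArg (fun m => v i • m) e4
    simp only [Finset.smul_sum, smul_zero] at e5
    rw [← e5]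
    exact Finset.sum_congr rfl fun i _ => mul_smul _ _ _
  show ∑ i, (∑ l, u l * mp θ (JA l i) - ∑ l, w l * (el (θ t) * mp θ (JA l i))) • D (a i) = 0
  simp only [sub_smul]
  rw [Finset.sum_sub_distrib, e1, e2, e4, e5, e6, ← Finset.sum_sub_distrib]
  have e8 : ∑ ν, ((∑ l, u l * mp θ (JC l ν)) • D (z ν) - (∑ l, w l * mp θ (JD l ν)) • D (z ν)) =
      ∑ ν, (∑ i, v i * mp θ (X i ν) + (∑ l, u l * mp θ (JC l ν) -
        ∑ l, w l * mp θ (JD l ν))) • D (z ν) := by
    simp only [add_smul]
    rw [Finset.sum_add_distrib, e7, zero_add]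
    exact Finset.sum_congr rfl fun ν _ => (sub_smul _ _ _).symm
  rw [e8]
  refine Finset.sum_eq_zero fun ν _ => ?_
  rw [h ν, zero_smul]

open Classical in
private theorem GI_sq {G : Type} [Group G] (B : Subgroup G) (g : G) {v : G → ℝ} (hv : Sq v) :
    Sq (fun y => if g⁻¹ * y ∈ B then v y else 0) := by
  refine Summable.of_nonneg_of_le (fun y => sq_nonneg _) (fun y => ?_) hv
  show (if g⁻¹ * y ∈ B then v y else 0) ^ 2 ≤ v y ^ 2
  split_ifs
  · exact le_rfl
  · rw [zero_pow two_ne_zero]
    exact sq_nonneg _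

private theorem GI_sq_trans {G : Type} [Group G] (t : G) {v : G → ℝ} (hv : Sq v) :
    Sq (ra v (el t)) := by
  have h1 : (fun g => ra v (el t) g ^ 2) = (fun g => v g ^ 2) ∘ (Equiv.mulRight t⁻¹) := by
    funext g
    show ra v (el t) g ^ 2 = v (g * t⁻¹) ^ 2
    rw [ra_el]
  show Summable (fun g => ra v (el t) g ^ 2)
  rw [h1]
  exact (Equiv.mulRight t⁻¹).summable_iff.2 hv

theorem hnn_inter {G ρ N κ σ : Type} [Group G] [Fintype ρ] [Fintype N] [Fintype κ]
    [DecidableEq κ] [Fintype σ] {r : ℕ} (x : Fin r → G) (hx : PRT.Para x) (p : ℕ)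
    [Fact p.Prime] (hres : ResQ p G) (H B A : Subgroup G) (t : G) (hH : IsHNNG H B t)
    (z : N → G) (X : ρ → N → GR G)
    (hrel : ∀ i, ∑ ν, X i ν * (el (z ν) - 1) = 0) (hsupp : ∀ i ν, InSub B (X i ν))
    (hinj : ∀ v : ρ → G → ℝ, (∀ i, Sq (v i)) → (∀ ν y, ∑ i, ra (v i) (X i ν) y = 0) → v = 0)
    (hCA : assoc B t ≤ A) (hAB : A ≤ B) (a : σ → G) (hext : ExtP p (Fin r) a) (c : κ → G)
    (hc : ∀ l, c l ∈ assoc B t)
    (hfree : ∀ m : κ, ∃ D : assoc B t → GR (assoc B t),
      IsDer (MonoidHom.id (assoc B t)) D ∧ ∀ l, D ⟨c l, hc l⟩ = if l = m then 1 else 0)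
    (JC : κ → N → GR G) (hJC : ∀ l, Fund z (c l) (JC l)) (hsC : ∀ l ν, InSub B (JC l ν))
    (JD : κ → N → GR G) (hJD : ∀ l, Fund z (t * c l * t⁻¹) (JD l))
    (hsD : ∀ l ν, InSub B (JD l ν))
    (JA : κ → σ → GR G) (hJA : ∀ l, Fund a (c l) (JA l)) (hsA : ∀ l i, InSub A (JA l i)) :
    (∀ v : ρ ⊕ κ → G → ℝ, (∀ i, Sq (v i)) →
      (∀ ν y, ∑ i, ra (v (Sum.inl i)) (X i ν) y +
        ∑ l, ra (v (Sum.inr l)) (el t * JC l ν - JD l ν) y = 0) →
      (∀ y, ∑ l, ra (v (Sum.inr l)) (1 - el (t * c l * t⁻¹)) y = 0) → v = 0) ∧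
      Fintype.card ρ + Fintype.card κ ≤ Fintype.card N + 1 := by
  classical
  have htB : t ∉ B := hnn_notMem H B t hH
  have hcol : ∀ l, InSub B (el (t * c l * t⁻¹) - 1 : GR G) := by
    intro l
    rw [sub_eq_add_neg]
    exact inSub_add (inSub_el (hc l).2) (inSub_neg inSub_one)
  let J : ρ ⊕ (κ ⊕ κ) → N ⊕ Unit → GR G :=
    Sum.elim (fun i => Sum.elim (X i) (fun _ => 0))
      (Sum.elim (fun l => Sum.elim (JC l) (fun _ => 0))
        (fun l => Sum.elim (fun ν => - JD l ν) (fun _ => el (t * c l * t⁻¹) - 1)))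
  let J' : ρ ⊕ (κ ⊕ κ) → σ → GR G :=
    Sum.elim (fun _ _ => 0) (Sum.elim JA (fun l j => - (el t * JA l j)))
  have hJs : ∀ i ν, InSub B (J i ν) := by
    rintro (i | l | l) (ν | ν)
    · exact hsupp i ν
    · exact inSub_zero B
    · exact hsC l ν
    · exact inSub_zero B
    · exact inSub_neg (hsD l ν)
    · exact hcol l
  have hker : ∀ v : ρ ⊕ (κ ⊕ κ) → G → ℝ, (∀ i, Sq (v i)) →
      (∀ ν y, ∑ l, ra (v l) (J l ν) y = 0) → ∀ j y,
      ∑ l, ra (v (Sum.inr (Sum.inl l))) (JA l j) y =
        ∑ l, ra (v (Sum.inr (Sum.inr l))) (el t * JA l j) y := by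
    intro v hv h0 j y
    have h1 := transfer p hres J J' (fun Q _ _ hQ θ u hu j => ?_) v hv h0 j y
    · rw [Fintype.sum_sum_type, Fintype.sum_sum_type] at h1
      have h2 : ∑ i', ra (v (Sum.inl i')) (J' (Sum.inl i') j) y = 0 :=
        Finset.sum_eq_zero fun i' _ => ra_zero_right _ _
      have h3 : ∑ l, ra (v (Sum.inr (Sum.inr l))) (J' (Sum.inr (Sum.inr l)) j) y =
          - ∑ l, ra (v (Sum.inr (Sum.inr l))) (el t * JA l j) y := by
        rw [← Finset.sum_neg_distrib]
        exact Finset.sum_congr rfl fun l _ => ra_neg_right _ _ _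
      rw [h2, zero_add, h3, ← sub_eq_add_neg] at h1
      exact sub_eq_zero.1 h1
    · rw [Fintype.sum_sum_type, Fintype.sum_sum_type]
      have h2 : ∑ i', u (Sum.inl i') * mp θ (J' (Sum.inl i') j) = 0 := by
        refine Finset.sum_eq_zero fun i' _ => ?_
        show u (Sum.inl i') * mp θ 0 = 0
        rw [map_zero, mul_zero]
      have h3 : ∑ l, u (Sum.inr (Sum.inr l)) * mp θ (J' (Sum.inr (Sum.inr l)) j) =
          - ∑ l, u (Sum.inr (Sum.inr l)) * (el (θ t) * mp θ (JA l j)) := by
        rw [← Finset.sum_neg_distrib]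
        refine Finset.sum_congr rfl fun l _ => ?_
        show u (Sum.inr (Sum.inr l)) * mp θ (- (el t * JA l j)) = _
        rw [map_neg, map_mul, mp_el, mul_neg]
      rw [h2, zero_add, h3, ← sub_eq_add_neg]
      refine GI_lvl x hx p t z X hrel a hext c JC hJC JD hJD JA hJA Q hQ θ
        (fun i => u (Sum.inl i)) (fun l => u (Sum.inr (Sum.inl l)))
        (fun l => u (Sum.inr (Sum.inr l))) (fun ν => ?_) ?_ j
      · have h4 := hu (Sum.inl ν)
        rw [Fintype.sum_sum_type, Fintype.sum_sum_type] at h4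
        have h5 : ∑ l, u (Sum.inr (Sum.inr l)) * mp θ (J (Sum.inr (Sum.inr l)) (Sum.inl ν)) =
            - ∑ l, u (Sum.inr (Sum.inr l)) * mp θ (JD l ν) := by
          rw [← Finset.sum_neg_distrib]
          refine Finset.sum_congr rfl fun l _ => ?_
          show u (Sum.inr (Sum.inr l)) * mp θ (- JD l ν) = _
          rw [map_neg, mul_neg]
        rw [h5, ← sub_eq_add_neg] at h4
        exact h4
      · have h4 := hu (Sum.inr ())
        rw [Fintype.sum_sum_type, Fintype.sum_sum_type] at h4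
        have h5 : ∑ i', u (Sum.inl i') * mp θ (J (Sum.inl i') (Sum.inr ())) = 0 := by
          refine Finset.sum_eq_zero fun i' _ => ?_
          show u (Sum.inl i') * mp θ 0 = 0
          rw [map_zero, mul_zero]
        have h6 : ∑ l, u (Sum.inr (Sum.inl l)) * mp θ (J (Sum.inr (Sum.inl l)) (Sum.inr ())) =
            0 := by
          refine Finset.sum_eq_zero fun i' _ => ?_
          show u (Sum.inr (Sum.inl i')) * mp θ 0 = 0
          rw [map_zero, mul_zero]
        rw [h5, h6, zero_add, zero_add] at h4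
        rw [← h4]
        refine Finset.sum_congr rfl fun l _ => ?_
        show _ = u (Sum.inr (Sum.inr l)) * mp θ (el (t * c l * t⁻¹) - 1)
        rw [map_sub, mp_el, map_one]
  have hfirst : ∀ v : ρ ⊕ κ → G → ℝ, (∀ i, Sq (v i)) →
      (∀ ν y, ∑ i, ra (v (Sum.inl i)) (X i ν) y +
        ∑ l, ra (v (Sum.inr l)) (el t * JC l ν - JD l ν) y = 0) →
      (∀ y, ∑ l, ra (v (Sum.inr l)) (1 - el (t * c l * t⁻¹)) y = 0) → v = 0 := by
    intro v hv h0 h0'
    have hr : ∀ l g, v (Sum.inr l) g = 0 := by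
      intro l g
      let V0 : ρ ⊕ (κ ⊕ κ) → G → ℝ :=
        Sum.elim (fun i => v (Sum.inl i))
          (Sum.elim (fun l => ra (v (Sum.inr l)) (el t)) (fun l => v (Sum.inr l)))
      have hV0 : ∀ ν y, ∑ l, ra (V0 l) (J l ν) y = 0 := by
        rintro (ν | ν) y
        · rw [Fintype.sum_sum_type, Fintype.sum_sum_type]
          have h1 : ∑ l, ra (V0 (Sum.inr (Sum.inl l))) (J (Sum.inr (Sum.inl l)) (Sum.inl ν)) y +
              ∑ l, ra (V0 (Sum.inr (Sum.inr l))) (J (Sum.inr (Sum.inr l)) (Sum.inl ν)) y =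
              ∑ l, ra (v (Sum.inr l)) (el t * JC l ν - JD l ν) y := by
            rw [← Finset.sum_add_distrib]
            refine Finset.sum_congr rfl fun l _ => ?_
            show ra (ra (v (Sum.inr l)) (el t)) (JC l ν) y + ra (v (Sum.inr l)) (- JD l ν) y = _
            rw [ra_mul, ← ra_add_right, ← sub_eq_add_neg]
          rw [h1]
          exact h0 ν y
        · rw [Fintype.sum_sum_type, Fintype.sum_sum_type]
          have h1 : ∑ i', ra (V0 (Sum.inl i')) (J (Sum.inl i') (Sum.inr ν)) y = 0 :=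
            Finset.sum_eq_zero fun i' _ => ra_zero_right _ _
          have h2 : ∑ l, ra (V0 (Sum.inr (Sum.inl l))) (J (Sum.inr (Sum.inl l)) (Sum.inr ν)) y =
              0 := Finset.sum_eq_zero fun i' _ => ra_zero_right _ _
          rw [h1, h2, zero_add, zero_add]
          have h3 := h0' y
          have h4 : ∑ l, ra (V0 (Sum.inr (Sum.inr l))) (J (Sum.inr (Sum.inr l)) (Sum.inr ν)) y =
              - ∑ l, ra (v (Sum.inr l)) (1 - el (t * c l * t⁻¹)) y := by
            rw [← Finset.sum_neg_distrib]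
            refine Finset.sum_congr rfl fun l _ => ?_
            show ra (v (Sum.inr l)) (el (t * c l * t⁻¹) - 1) y = _
            rw [← ra_neg_right, neg_sub]
          rw [h4, h3, neg_zero]
      let w : ρ ⊕ (κ ⊕ κ) → G → ℝ := fun l y => if g⁻¹ * y ∈ B then V0 l y else 0
      have hV0s : ∀ l, Sq (V0 l) := by
        rintro (i | l | l)
        · exact hv _
        · exact GI_sq_trans t (hv _)
        · exact hv _
      have hw : ∀ ν y, ∑ l, ra (w l) (J l ν) y = 0 := by
        intro ν y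
        have h1 : ∀ l, ra (w l) (J l ν) y = if g⁻¹ * y ∈ B then ra (V0 l) (J l ν) y else 0 :=
          fun l => ra_restrict B (V0 l) (J l ν) (hJs l ν) g y
        simp only [h1]
        split_ifs
        · exact hV0 ν y
        · exact Finset.sum_const_zero
      have h2 := hker w (fun i => GI_sq B g (hV0s i)) hw
      let w3 : κ → G → ℝ := fun l y =>
        if (g * t)⁻¹ * (g * t * y) ∈ A then
          ra (w (Sum.inr (Sum.inr l))) (el t) (g * t * y) else 0
      have h3 : w3 = 0 := by
        refine supp_zero (assoc B t) c hc hfree a JA hJA w3 (fun l y hy => ?_) (fun i y => ?_)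
        · show (if (g * t)⁻¹ * (g * t * y) ∈ A then
            ra (w (Sum.inr (Sum.inr l))) (el t) (g * t * y) else 0) = 0
          rw [inv_mul_cancel_left]
          by_cases hA : y ∈ A
          · rw [if_pos hA, ra_el]
            refine if_neg fun hB => hy ⟨hAB hA, ?_⟩
            have e1 : g⁻¹ * (g * t * y * t⁻¹) = t * y * t⁻¹ := by group
            rwa [e1] at hB
          · rw [if_neg hA]
        · have h4 : ∀ l, ra (w3 l) (JA l i) y =
              if (g * t)⁻¹ * (g * t * y) ∈ A then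
                ra (ra (w (Sum.inr (Sum.inr l))) (el t)) (JA l i) (g * t * y) else 0 := by
            intro l
            rw [← ra_restrict A (ra (w (Sum.inr (Sum.inr l))) (el t)) (JA l i) (hsA l i) (g * t)
              (g * t * y)]
            exact ra_trans (fun y => if (g * t)⁻¹ * y ∈ A then
              ra (w (Sum.inr (Sum.inr l))) (el t) y else 0) (JA l i) (g * t) y
          simp only [h4]
          by_cases hyA : (g * t)⁻¹ * (g * t * y) ∈ A
          · simp only [if_pos hyA]
            have h5 := h2 i (g * t * y)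
            have h6 : ∑ l, ra (w (Sum.inr (Sum.inl l))) (JA l i) (g * t * y) = 0 := by
              refine Finset.sum_eq_zero fun l _ => ?_
              have h7 := ra_restrict B (V0 (Sum.inr (Sum.inl l))) (JA l i)
                (fun b hb => hAB (hsA l i b hb)) g (g * t * y)
              have h8 : g⁻¹ * (g * t * y) ∉ B := by
                intro hB
                rw [inv_mul_cancel_left] at hyA
                have e1 : t = g⁻¹ * (g * t * y) * y⁻¹ := by group
                exact htB (e1 ▸ B.mul_mem hB (B.inv_mem (hAB hyA)))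
              rw [if_neg h8] at h7
              exact h7
            rw [h6] at h5
            rw [h5]
            exact Finset.sum_congr rfl fun l _ => ra_mul _ _ _ _
          · simp only [if_neg hyA]
            exact Finset.sum_const_zero
      have h5 : w3 l 1 = 0 := by rw [h3]; rfl
      have h6 : w3 l 1 = v (Sum.inr l) g := by
        show (if (g * t)⁻¹ * (g * t * 1) ∈ A then
            ra (w (Sum.inr (Sum.inr l))) (el t) (g * t * 1) else 0) = _
        rw [mul_one, inv_mul_cancel, if_pos A.one_mem, ra_el, mul_inv_cancel_right]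
        show (if g⁻¹ * g ∈ B then v (Sum.inr l) g else 0) = _
        rw [inv_mul_cancel, if_pos B.one_mem]
      rw [← h6, h5]
    have hl := hinj (fun i => v (Sum.inl i)) (fun i => hv (Sum.inl i)) (fun ν y => ?_)
    · funext i g
      rcases i with i | l
      · exact congrFun (congrFun hl i) g
      · exact hr l g
    · have h1 := h0 ν y
      have h3 : ∑ l, ra (v (Sum.inr l)) (el t * JC l ν - JD l ν) y = 0 := by
        refine Finset.sum_eq_zero fun l _ => ?_
        have h2 : v (Sum.inr l) = fun _ => 0 := funext (hr l)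
        rw [h2]
        exact ra_zero_left _ _
      rw [h3, add_zero] at h1
      exact h1
  refine ⟨hfirst, ?_⟩
  by_contra hlt
  rw [not_le] at hlt
  let K : ρ ⊕ κ → N ⊕ Unit → GR G :=
    Sum.elim (fun i => Sum.elim (X i) (fun _ => 0))
      (fun l => Sum.elim (fun ν => el t * JC l ν - JD l ν) (fun _ => 1 - el (t * c l * t⁻¹)))
  obtain ⟨v, hv0, hv, h0⟩ := exists_kernel p hres K (by
    rw [Fintype.card_sum, Fintype.card_sum, Fintype.card_unit]; exact hlt)
  refine hv0 (hfirst v hv (fun ν y => ?_) fun y => ?_)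
  · have h1 := h0 (Sum.inl ν) y
    rw [Fintype.sum_sum_type] at h1
    exact h1
  · have h1 := h0 (Sum.inr ()) y
    rw [Fintype.sum_sum_type] at h1
    have h2 : ∑ i, ra (v (Sum.inl i)) (K (Sum.inl i) (Sum.inr ())) y = 0 :=
      Finset.sum_eq_zero fun i' _ => ra_zero_right _ _
    rw [h2, zero_add] at h1
    exact h1

end PAM
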