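import Pool.Agent.PAM.DefsG

/-!
# PAM/GLift (module PAM-GLift): lifting homomorphisms of an HNN extension

As in `PAM/LiftAm.lean`, with `δ h (x) = h(t x t⁻¹) - h(x)` for `x ∈ C = assoc B t` in place of the sum of
restrictions: there is an integer `m'`, not divisible by `p`, such that for every homomorphism `ε : C → Z` the
multiple `m' ε` is `δ β` for some `β : B → Z` (lift the homomorphisms which `OntoHp` gives for the dual basis,
determinant and adjugate).  `OntoHQ`: as there.  `LiftZ p H`: let `k : H → Z/p`, lift `k|B` to `k1 : B → Z`;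
`δ k1 = p ε`, `m' ε = δ β`; `m' k1 - p β` satisfies `δ = 0`, so it extends to `H` (value at `t`: `m'` times a lift of
`k(t)`); this is `m' k` modulo `p`; multiply by an inverse of `m'` modulo `p`.
-/

set_option autoImplicit false

open PFC PAL

namespace PAM

/-- reduction of integers modulo `p` -/
private def GLift_r (p : ℕ) : Multiplicative ℤ →* Multiplicative (ZMod p) :=
  AddMonoidHom.toMultiplicative (Int.castAddHom (ZMod p))

private theorem GLift_r_apply (p : ℕ) (z : Multiplicative ℤ) :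
    GLift_r p z = Multiplicative.ofAdd ((Multiplicative.toAdd z : ℤ) : ZMod p) := rfl

/-- the homomorphism given by the multiples of an element -/
private def GLift_z {M : Type} [AddCommGroup M] (q : M) : Multiplicative ℤ →* Multiplicative M :=
  AddMonoidHom.toMultiplicative (zmultiplesHom M q)

private theorem GLift_z_apply {M : Type} [AddCommGroup M] (q : M) (z : Multiplicative ℤ) :
    GLift_z q z = Multiplicative.ofAdd (Multiplicative.toAdd z • q) := rfl

private theorem GLift_ext {G : Type} [Group G] {C : Subgroup G} {n : ℕ} {c : Fin n → G}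
    (hc : Subgroup.closure (Set.range c) = C) {Q : Type} [Group Q] (f g : C →* Q)
    (h : ∀ l (hl : c l ∈ C), f ⟨c l, hl⟩ = g ⟨c l, hl⟩) : f = g := by
  have hcl : ∀ l, c l ∈ C := fun l => hc ▸ Subgroup.subset_closure ⟨l, rfl⟩
  have h1 : C ≤ (f.eqLocus g).map C.subtype := by
    have h2 : Subgroup.closure (Set.range c) ≤ (f.eqLocus g).map C.subtype := by
      rw [Subgroup.closure_le]
      rintro x ⟨l, rfl⟩
      exact ⟨⟨c l, hcl l⟩, h l (hcl l), rfl⟩
    rwa [hc] at h2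
  apply MonoidHom.ext
  intro x
  obtain ⟨y, hy, hyx⟩ := h1 x.2
  have hxy : y = x := Subtype.ext hyx
  rw [← hxy]
  exact hy

private theorem GLift_exists {G : Type} [Group G] {C : Subgroup G} {n : ℕ} {c : Fin n → G}
    (hc : Subgroup.closure (Set.range c) = C) (hci : Function.Injective (FreeGroup.lift c))
    {Q : Type} [Group Q] (q : Fin n → Q) :
    ∃ f : C →* Q, ∀ l (hl : c l ∈ C), f ⟨c l, hl⟩ = q l := by
  have hr : (FreeGroup.lift c).range = C := by
    rw [FreeGroup.range_lift_eq_closure, hc]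
  have hm : ∀ w, FreeGroup.lift c w ∈ C := fun w => hr ▸ ⟨w, rfl⟩
  let f : FreeGroup (Fin n) →* C := (FreeGroup.lift c).codRestrict C hm
  have hf : ∀ w, ((f w : C) : G) = FreeGroup.lift c w := fun w => rfl
  have hb : Function.Bijective f := by
    constructor
    · intro a b h
      apply hci
      rw [← hf, ← hf, h]
    · intro y
      have hy : (y : G) ∈ (FreeGroup.lift c).range := by rw [hr]; exact y.2
      obtain ⟨w, hw⟩ := hy
      exact ⟨w, Subtype.ext (by rw [hf]; exact hw)⟩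
  let e := MulEquiv.ofBijective f hb
  refine ⟨(FreeGroup.lift q).comp e.symm.toMonoidHom, fun l hl => ?_⟩
  have h1 : e.symm ⟨c l, hl⟩ = FreeGroup.of l := by
    rw [MulEquiv.symm_apply_eq]
    apply Subtype.ext
    show c l = FreeGroup.lift c (FreeGroup.of l)
    rw [FreeGroup.lift_apply_of]
  show FreeGroup.lift q (e.symm ⟨c l, hl⟩) = q l
  rw [h1, FreeGroup.lift_apply_of]

private theorem GLift_div (m : ℤ) (hm : m ≠ 0) (a : PF.QZ) : ∃ b : PF.QZ, m • b = a := by
  induction a using QuotientAddGroup.induction_on with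
  | H q =>
    refine ⟨((q / m : ℚ) : AddCircle (1 : ℚ)), ?_⟩
    have h1 : m • ((q / m : ℚ) : AddCircle (1 : ℚ)) = ((m • (q / m : ℚ) : ℚ) : AddCircle (1 : ℚ)) :=
      rfl
    rw [h1]
    congr 1
    rw [zsmul_eq_mul]
    field_simp


/-- conjugation by `t` on the associated subgroup -/
private def GLift_j {G : Type} [Group G] (B : Subgroup G) (t : G) : assoc B t →* B where
  toFun x := ⟨t * x.1 * t⁻¹, x.2.2⟩
  map_one' := Subtype.ext (by show t * 1 * t⁻¹ = 1; rw [mul_one, mul_inv_cancel])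
  map_mul' := fun a b => Subtype.ext (by
    show t * (a.1 * b.1) * t⁻¹ = (t * a.1 * t⁻¹) * (t * b.1 * t⁻¹)
    group)

private def GLift_i {G : Type} [Group G] (B : Subgroup G) (t : G) : assoc B t →* B where
  toFun x := ⟨x.1, x.2.1⟩
  map_one' := rfl
  map_mul' := fun _ _ => rfl

/-- the difference `x ↦ h(t x t⁻¹) h(x)⁻¹` -/
private def GLift_d {G M : Type} [Group G] [CommGroup M] (B : Subgroup G) (t : G)
    (h : B →* M) : assoc B t →* M :=
  (h.comp (GLift_j B t)) * (h.comp (GLift_i B t))⁻¹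

private theorem GLift_d_apply {G M : Type} [Group G] [CommGroup M] (B : Subgroup G) (t : G)
    (h : B →* M) (x : G) (hx : x ∈ assoc B t) :
    GLift_d B t h ⟨x, hx⟩ = h ⟨t * x * t⁻¹, hx.2⟩ * (h ⟨x, hx.1⟩)⁻¹ := rfl

private theorem GLift_star {G : Type} [Group G] (p : ℕ) [Fact p.Prime] (B : Subgroup G) (t : G)
    (n : ℕ) (c : Fin n → G) (hc : Subgroup.closure (Set.range c) = assoc B t)
    (hci : Function.Injective (FreeGroup.lift c)) (hB : LiftZ p B) (ho : OntoHp p B t) :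
    ∃ m : ℤ, (m : ZMod p) = 1 ∧ ∀ ε : assoc B t →* Multiplicative ℤ,
      ∃ β : B →* Multiplicative ℤ, ε ^ m = GLift_d B t β := by
  classical
  have hcl : ∀ l, c l ∈ assoc B t := fun l => hc ▸ Subgroup.subset_closure ⟨l, rfl⟩
  have h1 : ∀ l : Fin n, ∃ β : B →* Multiplicative ℤ, ∀ k,
      (((Multiplicative.toAdd (GLift_d B t β ⟨c k, hcl k⟩) : ℤ)) : ZMod p) =
        if l = k then 1 else 0 := by
    intro l
    obtain ⟨ε, hε⟩ := GLift_exists hc hci
      (fun k : Fin n => (Multiplicative.ofAdd (if l = k then 1 else 0) : Multiplicative (ZMod p)))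
    obtain ⟨f, hf⟩ := ho ε
    obtain ⟨β, hβ⟩ := hB f
    refine ⟨β, fun k => ?_⟩
    have h2 := hf (c k) (hcl k)
    rw [hε k (hcl k), hβ, hβ, ← ofAdd_neg, ← ofAdd_add] at h2
    have h3 := Multiplicative.ofAdd.injective h2
    rw [GLift_d_apply, toAdd_mul, toAdd_inv, Int.cast_add, Int.cast_neg]
    exact h3.symm
  choose β hβα using h1
  let M : Matrix (Fin n) (Fin n) ℤ := fun l k =>
    Multiplicative.toAdd (GLift_d B t (β l) ⟨c k, hcl k⟩)
  have hM1 : (Int.castRingHom (ZMod p)).mapMatrix M = 1 := by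
    ext l k
    rw [RingHom.mapMatrix_apply, Matrix.map_apply, Matrix.one_apply]
    exact hβα l k
  refine ⟨M.det, ?_, fun ε => ?_⟩
  · have h2 := RingHom.map_det (Int.castRingHom (ZMod p)) M
    rw [hM1, Matrix.det_one] at h2
    exact h2
  · let v : Fin n → ℤ := fun k => Multiplicative.toAdd (ε ⟨c k, hcl k⟩)
    let u : Fin n → ℤ := Matrix.vecMul v M.adjugate
    have hn : Matrix.vecMul u M = M.det • v := by
      show Matrix.vecMul (Matrix.vecMul v M.adjugate) M = M.det • v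
      rw [Matrix.vecMul_vecMul, Matrix.adjugate_mul, Matrix.vecMul_smul, Matrix.vecMul_one]
    refine ⟨∏ l, β l ^ u l, ?_⟩
    refine GLift_ext hc _ _ fun k hk => ?_
    have h3 := congrFun hn k
    have e1 : (ε ^ M.det) ⟨c k, hk⟩ = Multiplicative.ofAdd (M.det * v k) := by
      have : (ε ^ M.det) ⟨c k, hk⟩ = (ε ⟨c k, hk⟩) ^ M.det := rfl
      rw [this, ← smul_eq_mul, ofAdd_zsmul]
      rfl
    have e2 : (GLift_d B t (∏ l, β l ^ u l)) ⟨c k, hk⟩ =
        Multiplicative.ofAdd (∑ l, u l * M l k) := by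
      rw [GLift_d_apply, MonoidHom.finsetProd_apply, MonoidHom.finsetProd_apply,
        ← Finset.prod_inv_distrib, ← Finset.prod_mul_distrib, ofAdd_sum]
      refine Finset.prod_congr rfl fun l _ => ?_
      show (β l ⟨t * c k * t⁻¹, hk.2⟩) ^ u l * ((β l ⟨c k, hk.1⟩) ^ u l)⁻¹ = _
      rw [← inv_zpow, ← mul_zpow]
      show _ = Multiplicative.ofAdd (u l • M l k)
      rw [ofAdd_zsmul]
      rfl
    rw [e1, e2]
    congr 1
    have h4 : Matrix.vecMul u M k = ∑ l, u l * M l k := rfl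
    rw [← h4, h3]
    rfl

theorem lift_hnnG {G : Type} [Group G] (p : ℕ) [Fact p.Prime] (H B : Subgroup G) (t : G)
    (hH : IsHNNG H B t) (m : ℕ) (c : Fin m → G)
    (hc : Subgroup.closure (Set.range c) = assoc B t)
    (hci : Function.Injective (FreeGroup.lift c)) (hB : LiftZ p B) (ho : OntoHp p B t) :
    LiftZ p H ∧ OntoHQ B t := by
  classical
  have hcl : ∀ l, c l ∈ assoc B t := fun l => hc ▸ Subgroup.subset_closure ⟨l, rfl⟩
  obtain ⟨n, hm1, hstar⟩ := GLift_star p B t m c hc hci hB ho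
  have hm0 : n ≠ 0 := by
    intro h
    rw [h, Int.cast_zero] at hm1
    exact zero_ne_one hm1
  constructor
  · intro k
    obtain ⟨hBH, htH, huniv⟩ := hH
    obtain ⟨k1, hk1⟩ := hB (k.comp (Subgroup.inclusion hBH))
    obtain ⟨τ, hτ⟩ := ZMod.intCast_surjective (Multiplicative.toAdd (k ⟨t, htH⟩))
    have hkt : ∀ (x : G) (h : x ∈ B) (h' : t * x * t⁻¹ ∈ B),
        k ⟨t, htH⟩ * k ⟨x, hBH h⟩ * (k ⟨t, htH⟩)⁻¹ = k ⟨t * x * t⁻¹, hBH h'⟩ := by
      intro x h h'
      rw [← map_inv, ← map_mul, ← map_mul]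
      rfl
    have hkt' : ∀ (x : G) (h : x ∈ B) (h' : t * x * t⁻¹ ∈ B),
        k ⟨x, hBH h⟩ = k ⟨t * x * t⁻¹, hBH h'⟩ := by
      intro x h h'
      rw [← hkt x h h', mul_comm (k ⟨t, htH⟩), mul_assoc, mul_inv_cancel, mul_one]
    have hd : ∀ x : assoc B t, (p : ℤ) ∣ Multiplicative.toAdd (GLift_d B t k1 x) := by
      intro x
      have e1 := hkt' x.1 x.2.1 x.2.2
      have e0 : (k.comp (Subgroup.inclusion hBH)) ⟨x.1, x.2.1⟩ =
          (k.comp (Subgroup.inclusion hBH)) ⟨t * x.1 * t⁻¹, x.2.2⟩ := e1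
      rw [hk1, hk1] at e0
      have e2 := Multiplicative.ofAdd.injective e0
      have e3 : Multiplicative.toAdd (GLift_d B t k1 x) =
          Multiplicative.toAdd (k1 ⟨t * x.1 * t⁻¹, x.2.2⟩) -
            Multiplicative.toAdd (k1 ⟨x.1, x.2.1⟩) := by
        show Multiplicative.toAdd (k1 ⟨t * x.1 * t⁻¹, x.2.2⟩ * (k1 ⟨x.1, x.2.1⟩)⁻¹) = _
        rw [toAdd_mul, toAdd_inv, sub_eq_add_neg]
      rw [e3, ← ZMod.intCast_zmod_eq_zero_iff_dvd, Int.cast_sub, e2, sub_self]
    obtain ⟨ε, hε⟩ := GLift_exists hc hci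
      (fun l : Fin m => Multiplicative.ofAdd
        (Multiplicative.toAdd (GLift_d B t k1 ⟨c l, hcl l⟩) / (p : ℤ)))
    have hεd : ε ^ (p : ℤ) = GLift_d B t k1 := by
      refine GLift_ext hc _ _ fun l hl => ?_
      show (ε ⟨c l, hl⟩) ^ (p : ℤ) = GLift_d B t k1 ⟨c l, hl⟩
      rw [hε l hl, ← ofAdd_zsmul, smul_eq_mul, Int.mul_ediv_cancel' (hd _)]
      rfl
    obtain ⟨β, hβ⟩ := hstar ε
    let f : B →* Multiplicative ℤ := k1 ^ n * (β ^ (p : ℤ))⁻¹
    have hf : ∀ (x : G) (h : x ∈ B) (h' : t * x * t⁻¹ ∈ B), f ⟨x, h⟩ = f ⟨t * x * t⁻¹, h'⟩ := by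
      intro x h h'
      have e1 : (ε ⟨x, ⟨h, h'⟩⟩) ^ n = β ⟨t * x * t⁻¹, h'⟩ * (β ⟨x, h⟩)⁻¹ :=
        DFunLike.congr_fun hβ ⟨x, ⟨h, h'⟩⟩
      have e2 : (ε ⟨x, ⟨h, h'⟩⟩) ^ (p : ℤ) = k1 ⟨t * x * t⁻¹, h'⟩ * (k1 ⟨x, h⟩)⁻¹ :=
        DFunLike.congr_fun hεd ⟨x, ⟨h, h'⟩⟩
      have e3 : (k1 ⟨t * x * t⁻¹, h'⟩ * (k1 ⟨x, h⟩)⁻¹) ^ n =
          (β ⟨t * x * t⁻¹, h'⟩ * (β ⟨x, h⟩)⁻¹) ^ (p : ℤ) := by
        rw [← e1, ← e2, ← zpow_mul, ← zpow_mul, mul_comm]
      show (k1 ⟨x, h⟩) ^ n * ((β ⟨x, h⟩) ^ (p : ℤ))⁻¹ =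
        (k1 ⟨t * x * t⁻¹, h'⟩) ^ n * ((β ⟨t * x * t⁻¹, h'⟩) ^ (p : ℤ))⁻¹
      rw [mul_zpow, mul_zpow, inv_zpow, inv_zpow, mul_inv_eq_iff_eq_mul] at e3
      rw [eq_mul_inv_iff_mul_eq, e3]
      rw [mul_comm ((k1 ⟨x, h⟩) ^ n), mul_assoc, mul_comm ((k1 ⟨x, h⟩) ^ n), ← mul_assoc]
      congr 1
      rw [mul_comm]
    obtain ⟨F, ⟨hF1, hF2⟩, -⟩ := huniv (Multiplicative ℤ) f (Multiplicative.ofAdd (n * τ)) (by
      intro x h h'
      rw [mul_comm (Multiplicative.ofAdd (n * τ)), mul_assoc, mul_inv_cancel, mul_one]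
      exact hf x h h')
    refine ⟨F, fun x => ?_⟩
    have key : k = (GLift_r p).comp F := by
      have hmz : ∀ y : Multiplicative ℤ, GLift_r p (y ^ n) = GLift_r p y := by
        intro y
        rw [GLift_r_apply, GLift_r_apply, toAdd_zpow, smul_eq_mul, Int.cast_mul, hm1, one_mul]
      have hpz : ∀ y : Multiplicative ℤ, GLift_r p (y ^ (p : ℤ)) = 1 := by
        intro y
        rw [GLift_r_apply, toAdd_zpow, smul_eq_mul, Int.cast_mul, Int.cast_natCast,
          ZMod.natCast_self, zero_mul, ofAdd_zero]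
      obtain ⟨F', -, huniq⟩ := huniv (Multiplicative (ZMod p))
        (k.comp (Subgroup.inclusion hBH)) (k ⟨t, htH⟩) (fun x h h' => hkt x h h')
      rw [huniq k ⟨fun x _ _ => rfl, fun _ => rfl⟩]
      symm
      apply huniq
      refine ⟨fun x hxB hxH => ?_, fun h => ?_⟩
      · rw [MonoidHom.comp_apply, hF1 x hxB hxH, hk1, ← GLift_r_apply]
        show GLift_r p ((k1 ⟨x, hxB⟩) ^ n * ((β ⟨x, hxB⟩) ^ (p : ℤ))⁻¹) = _
        rw [map_mul, map_inv, hmz, hpz, inv_one, mul_one]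
      · rw [MonoidHom.comp_apply, hF2 h, GLift_r_apply, toAdd_ofAdd, Int.cast_mul, hm1, one_mul,
          hτ]
        rfl
    have h3 := DFunLike.congr_fun key x
    exact h3
  · intro k
    have h1 : ∀ l : Fin m, ∃ b : PF.QZ, n • b = Multiplicative.toAdd (k ⟨c l, hcl l⟩) :=
      fun l => GLift_div n hm0 _
    choose b hb using h1
    have h2 : ∀ l : Fin m, ∃ β : B →* Multiplicative ℤ, ∀ j,
        Multiplicative.toAdd (GLift_d B t β ⟨c j, hcl j⟩) = if l = j then n else 0 := by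
      intro l
      obtain ⟨ε, hε⟩ := GLift_exists hc hci
        (fun j : Fin m => (Multiplicative.ofAdd (if l = j then 1 else 0) : Multiplicative ℤ))
      obtain ⟨β, hβ⟩ := hstar ε
      refine ⟨β, fun j => ?_⟩
      have h3 : (ε ⟨c j, hcl j⟩) ^ n = GLift_d B t β ⟨c j, hcl j⟩ :=
        DFunLike.congr_fun hβ ⟨c j, hcl j⟩
      rw [← h3, hε j (hcl j), toAdd_zpow, toAdd_ofAdd]
      split_ifs <;> simp
    choose β hβ using h2
    refine ⟨∏ l, (GLift_z (b l)).comp (β l), ?_⟩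
    have hfun : k = GLift_d B t (∏ l, (GLift_z (b l)).comp (β l)) := by
      refine GLift_ext hc _ _ fun j hj => ?_
      rw [GLift_d_apply, MonoidHom.finsetProd_apply, MonoidHom.finsetProd_apply,
        ← Finset.prod_inv_distrib, ← Finset.prod_mul_distrib]
      have h5 : ∀ l, ((GLift_z (b l)).comp (β l)) ⟨t * c j * t⁻¹, hj.2⟩ *
          (((GLift_z (b l)).comp (β l)) ⟨c j, hj.1⟩)⁻¹ =
          Multiplicative.ofAdd ((if l = j then n else 0) • b l) := by
        intro l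
        rw [← hβ l j, GLift_d_apply, toAdd_mul, toAdd_inv, add_smul, neg_smul, ofAdd_add,
          ofAdd_neg]
        rfl
      rw [Finset.prod_congr rfl fun l _ => h5 l, Finset.prod_eq_single j]
      · rw [if_pos rfl, hb]
        rfl
      · intro l _ hl
        rw [if_neg hl, zero_smul, ofAdd_zero]
      · intro hj'
        exact absurd (Finset.mem_univ j) hj'
    intro x hx
    have h6 := DFunLike.congr_fun hfun ⟨x, hx⟩
    exact h6

end PAM
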