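import Pool.Agent.PAM.Defs

/-!
# PAM/LiftAm (module PAM-LiftAm): lifting homomorphisms of an amalgam

`C = B ⊓ A` is free with basis `c`.  For each basis element `l` let `ε_l : C → Z/p` be the dual homomorphism; by
`OntoP` it is the sum of restrictions of homomorphisms of `B` and `A`, lift these to `Z` (`LiftZ`): this gives
`β_l : B → Z`, `α_l : A → Z` with `β_l(c_k) + α_l(c_k) ≡ δ_kl` modulo `p`.  The matrix `M` of these integers has
determinant `m`, not divisible by `p`, and by the adjugate: (*) for every homomorphism `ε : C → Z` the multiple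
`m ε` is a sum of restrictions of homomorphisms `B → Z`, `A → Z`.

`OntoQ`: let `h : C → ℚ/ℤ`.  Since `C` is free and `ℚ/ℤ` divisible, there is `h'` with `m h' = h`;
`h(c) = ∑_l (m ε_l)(c) h'(c_l)` with `ε_l : C → Z` dual to the basis, and `m ε_l` is a sum of restrictions;
`x ↦ β(x) h'(c_l)` is a homomorphism `B → ℚ/ℤ`.

`LiftZ p H`: let `h : H → Z/p`, lift `h|B` and `h|A` to `h1 : B → Z`, `h2 : A → Z`.  On `C` the difference `h1 - h2`
is `p ε`; `m ε = β + α` on `C`; then `m h1 - p β` and `m h2 + p α` agree on `C`, and glue to `H → Z`, which is `m h`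
modulo `p`; multiply by an inverse of `m` modulo `p`.
-/

set_option autoImplicit false

open PFC PAL

namespace PAM

/-- reduction of integers modulo `p` -/
private def LiftAm_r (p : ℕ) : Multiplicative ℤ →* Multiplicative (ZMod p) :=
  AddMonoidHom.toMultiplicative (Int.castAddHom (ZMod p))

private theorem LiftAm_r_apply (p : ℕ) (z : Multiplicative ℤ) :
    LiftAm_r p z = Multiplicative.ofAdd ((Multiplicative.toAdd z : ℤ) : ZMod p) := rfl

/-- the homomorphism given by the multiples of an element -/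
private def LiftAm_z {M : Type} [AddCommGroup M] (q : M) : Multiplicative ℤ →* Multiplicative M :=
  AddMonoidHom.toMultiplicative (zmultiplesHom M q)

private theorem LiftAm_z_apply {M : Type} [AddCommGroup M] (q : M) (z : Multiplicative ℤ) :
    LiftAm_z q z = Multiplicative.ofAdd (Multiplicative.toAdd z • q) := rfl

private theorem LiftAm_ext {G : Type} [Group G] {C : Subgroup G} {t : ℕ} {c : Fin t → G}
    (hc : Subgroup.closure (Set.range c) = C) {Q : Type} [Group Q] (f g : C →* Q)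
    (h : ∀ l (hl : c l ∈ C), f ⟨c l, hl⟩ = g ⟨c l, hl⟩) : f = g := by
  have hcl : ∀ l, c l ∈ C := fun l => hc ▸ Subgroup.subset_closure ⟨l, rfl⟩
  have h1 : C ≤ (f.eqLocus g).map C.subtype := by
    have h2 : Subgroup.closure (Set.range c) ≤ (f.eqLocus g).map C.subtype := by
      rw [Subgroup.closure_le]
      rintro x ⟨l, rfl⟩
      exact ⟨⟨c l, hcl l⟩, h l (hcl l), rfl⟩
    rwa [hc] at h2
  apply MonoidHom.ext
  intro x
  obtain ⟨y, hy, hyx⟩ := h1 x.2
  have hxy : y = x := Subtype.ext hyx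
  rw [← hxy]
  exact hy

private theorem LiftAm_exists {G : Type} [Group G] {C : Subgroup G} {t : ℕ} {c : Fin t → G}
    (hc : Subgroup.closure (Set.range c) = C) (hci : Function.Injective (FreeGroup.lift c))
    {Q : Type} [Group Q] (q : Fin t → Q) :
    ∃ f : C →* Q, ∀ l (hl : c l ∈ C), f ⟨c l, hl⟩ = q l := by
  have hr : (FreeGroup.lift c).range = C := by
    rw [FreeGroup.range_lift_eq_closure, hc]
  have hm : ∀ w, FreeGroup.lift c w ∈ C := fun w => hr ▸ ⟨w, rfl⟩
  let f : FreeGroup (Fin t) →* C := (FreeGroup.lift c).codRestrict C hm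
  have hf : ∀ w, ((f w : C) : G) = FreeGroup.lift c w := fun w => rfl
  have hb : Function.Bijective f := by
    constructor
    · intro a b h
      apply hci
      rw [← hf, ← hf, h]
    · intro y
      have hy : (y : G) ∈ (FreeGroup.lift c).range := by rw [hr]; exact y.2
      obtain ⟨w, hw⟩ := hy
      exact ⟨w, Subtype.ext (by rw [hf]; exact hw)⟩
  let e := MulEquiv.ofBijective f hb
  refine ⟨(FreeGroup.lift q).comp e.symm.toMonoidHom, fun l hl => ?_⟩
  have h1 : e.symm ⟨c l, hl⟩ = FreeGroup.of l := by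
    rw [MulEquiv.symm_apply_eq]
    apply Subtype.ext
    show c l = FreeGroup.lift c (FreeGroup.of l)
    rw [FreeGroup.lift_apply_of]
  show FreeGroup.lift q (e.symm ⟨c l, hl⟩) = q l
  rw [h1, FreeGroup.lift_apply_of]

private theorem LiftAm_star {G : Type} [Group G] (p : ℕ) [Fact p.Prime] (B A : Subgroup G)
    (t : ℕ) (c : Fin t → G) (hc : Subgroup.closure (Set.range c) = B ⊓ A)
    (hci : Function.Injective (FreeGroup.lift c)) (hB : LiftZ p B) (hA : LiftZ p A)
    (ho : OntoP p B A) :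
    ∃ m : ℤ, (m : ZMod p) = 1 ∧ ∀ ε : (B ⊓ A : Subgroup G) →* Multiplicative ℤ,
      ∃ (β : B →* Multiplicative ℤ) (α : A →* Multiplicative ℤ),
        ∀ (x : G) (hx : x ∈ B ⊓ A), (ε ⟨x, hx⟩) ^ m = β ⟨x, hx.1⟩ * α ⟨x, hx.2⟩ := by
  classical
  have hcl : ∀ l, c l ∈ B ⊓ A := fun l => hc ▸ Subgroup.subset_closure ⟨l, rfl⟩
  have h1 : ∀ l : Fin t, ∃ (β : B →* Multiplicative ℤ) (α : A →* Multiplicative ℤ), ∀ k,
      (((Multiplicative.toAdd (β ⟨c k, (hcl k).1⟩) + Multiplicative.toAdd (α ⟨c k, (hcl k).2⟩) : ℤ)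
        : ZMod p)) = if l = k then 1 else 0 := by
    intro l
    obtain ⟨ε, hε⟩ := LiftAm_exists hc hci
      (fun k : Fin t => (Multiplicative.ofAdd (if l = k then 1 else 0) : Multiplicative (ZMod p)))
    obtain ⟨f, g, hfg⟩ := ho ε
    obtain ⟨β, hβ⟩ := hB f
    obtain ⟨α, hα⟩ := hA g
    refine ⟨β, α, fun k => ?_⟩
    have h2 := hfg (c k) (hcl k)
    rw [hε k (hcl k), hβ, hα, ← ofAdd_add] at h2
    have h3 := Multiplicative.ofAdd.injective h2
    rw [Int.cast_add]
    exact h3.symm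
  choose β α hβα using h1
  let M : Matrix (Fin t) (Fin t) ℤ := fun l k =>
    Multiplicative.toAdd (β l ⟨c k, (hcl k).1⟩) + Multiplicative.toAdd (α l ⟨c k, (hcl k).2⟩)
  have hM1 : (Int.castRingHom (ZMod p)).mapMatrix M = 1 := by
    ext l k
    rw [RingHom.mapMatrix_apply, Matrix.map_apply, Matrix.one_apply]
    exact hβα l k
  refine ⟨M.det, ?_, fun ε => ?_⟩
  · have h2 := RingHom.map_det (Int.castRingHom (ZMod p)) M
    rw [hM1, Matrix.det_one] at h2
    exact h2
  · let v : Fin t → ℤ := fun k => Multiplicative.toAdd (ε ⟨c k, hcl k⟩)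
    let n : Fin t → ℤ := Matrix.vecMul v M.adjugate
    have hn : Matrix.vecMul n M = M.det • v := by
      show Matrix.vecMul (Matrix.vecMul v M.adjugate) M = M.det • v
      rw [Matrix.vecMul_vecMul, Matrix.adjugate_mul, Matrix.vecMul_smul, Matrix.vecMul_one]
    refine ⟨∏ l, β l ^ n l, ∏ l, α l ^ n l, ?_⟩
    have hfun : ε ^ M.det = ((∏ l, β l ^ n l).comp (Subgroup.inclusion inf_le_left)) *
        ((∏ l, α l ^ n l).comp (Subgroup.inclusion inf_le_right)) := by
      refine LiftAm_ext hc _ _ fun k hk => ?_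
      have h3 := congrFun hn k
      have e1 : (ε ^ M.det) ⟨c k, hk⟩ = Multiplicative.ofAdd (M.det * v k) := by
        have : (ε ^ M.det) ⟨c k, hk⟩ = (ε ⟨c k, hk⟩) ^ M.det := rfl
        rw [this, ← smul_eq_mul, ofAdd_zsmul]
        rfl
      have e2 : (((∏ l, β l ^ n l).comp (Subgroup.inclusion inf_le_left)) *
          ((∏ l, α l ^ n l).comp (Subgroup.inclusion inf_le_right)) :
          (B ⊓ A : Subgroup G) →* Multiplicative ℤ) ⟨c k, hk⟩ =
          Multiplicative.ofAdd (∑ l, n l * M l k) := by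
        show (∏ l, β l ^ n l) ⟨c k, hk.1⟩ * (∏ l, α l ^ n l) ⟨c k, hk.2⟩ = _
        rw [MonoidHom.finsetProd_apply, MonoidHom.finsetProd_apply, ← Finset.prod_mul_distrib,
          ofAdd_sum]
        refine Finset.prod_congr rfl fun l _ => ?_
        show (β l ⟨c k, hk.1⟩) ^ n l * (α l ⟨c k, hk.2⟩) ^ n l = _
        rw [← mul_zpow]
        show _ = Multiplicative.ofAdd (n l • M l k)
        rw [ofAdd_zsmul]
        rfl
      rw [e1, e2]
      congr 1
      have h4 : Matrix.vecMul n M k = ∑ l, n l * M l k := rfl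
      rw [← h4, h3]
      rfl
    intro x hx
    have h5 := DFunLike.congr_fun hfun ⟨x, hx⟩
    exact h5

private theorem LiftAm_div (m : ℤ) (hm : m ≠ 0) (a : PF.QZ) : ∃ b : PF.QZ, m • b = a := by
  induction a using QuotientAddGroup.induction_on with
  | H q =>
    refine ⟨((q / m : ℚ) : AddCircle (1 : ℚ)), ?_⟩
    have h1 : m • ((q / m : ℚ) : AddCircle (1 : ℚ)) = ((m • (q / m : ℚ) : ℚ) : AddCircle (1 : ℚ)) :=
      rfl
    rw [h1]
    congr 1
    rw [zsmul_eq_mul]
    field_simp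

theorem lift_amalg {G : Type} [Group G] (p : ℕ) [Fact p.Prime] (H B A : Subgroup G)
    (hH : IsAmalgam H B A) (t : ℕ) (c : Fin t → G)
    (hc : Subgroup.closure (Set.range c) = B ⊓ A) (hci : Function.Injective (FreeGroup.lift c))
    (hB : LiftZ p B) (hA : LiftZ p A) (ho : OntoP p B A) : LiftZ p H ∧ OntoQ B A := by
  classical
  have hcl : ∀ l, c l ∈ B ⊓ A := fun l => hc ▸ Subgroup.subset_closure ⟨l, rfl⟩
  obtain ⟨m, hm1, hstar⟩ := LiftAm_star p B A t c hc hci hB hA ho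
  have hm0 : m ≠ 0 := by
    intro h
    rw [h, Int.cast_zero] at hm1
    exact zero_ne_one hm1
  constructor
  · intro h
    obtain ⟨hBH, hAH, huniv⟩ := hH
    obtain ⟨h1, hh1⟩ := hB (h.comp (Subgroup.inclusion hBH))
    obtain ⟨h2, hh2⟩ := hA (h.comp (Subgroup.inclusion hAH))
    let d : (B ⊓ A : Subgroup G) →* Multiplicative ℤ :=
      (h1.comp (Subgroup.inclusion inf_le_left)) * (h2.comp (Subgroup.inclusion inf_le_right))⁻¹
    have hd : ∀ x : (B ⊓ A : Subgroup G), (p : ℤ) ∣ Multiplicative.toAdd (d x) := by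
      intro x
      have e1 : (h.comp (Subgroup.inclusion hBH)) ⟨x.1, x.2.1⟩ =
          (h.comp (Subgroup.inclusion hAH)) ⟨x.1, x.2.2⟩ := rfl
      rw [hh1, hh2] at e1
      have e2 := Multiplicative.ofAdd.injective e1
      have e3 : Multiplicative.toAdd (d x) =
          Multiplicative.toAdd (h1 ⟨x.1, x.2.1⟩) - Multiplicative.toAdd (h2 ⟨x.1, x.2.2⟩) := by
        show Multiplicative.toAdd (h1 ⟨x.1, x.2.1⟩ * (h2 ⟨x.1, x.2.2⟩)⁻¹) = _
        rw [toAdd_mul, toAdd_inv, sub_eq_add_neg]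
      rw [e3, ← ZMod.intCast_zmod_eq_zero_iff_dvd, Int.cast_sub, e2, sub_self]
    obtain ⟨ε, hε⟩ := LiftAm_exists hc hci
      (fun l : Fin t => Multiplicative.ofAdd (Multiplicative.toAdd (d ⟨c l, hcl l⟩) / (p : ℤ)))
    have hεd : ε ^ (p : ℤ) = d := by
      refine LiftAm_ext hc _ _ fun l hl => ?_
      show (ε ⟨c l, hl⟩) ^ (p : ℤ) = d ⟨c l, hl⟩
      rw [hε l hl, ← ofAdd_zsmul, smul_eq_mul, Int.mul_ediv_cancel' (hd _)]
      rfl
    obtain ⟨β, α, hβα⟩ := hstar ε
    let f : B →* Multiplicative ℤ := h1 ^ m * (β ^ (p : ℤ))⁻¹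
    let g : A →* Multiplicative ℤ := h2 ^ m * α ^ (p : ℤ)
    obtain ⟨F, ⟨hF1, hF2⟩, -⟩ := huniv (Multiplicative ℤ) f g (by
      intro x hxB hxA
      have e1 := hβα x ⟨hxB, hxA⟩
      have e2 : (ε ⟨x, ⟨hxB, hxA⟩⟩) ^ (p : ℤ) = h1 ⟨x, hxB⟩ * (h2 ⟨x, hxA⟩)⁻¹ :=
        DFunLike.congr_fun hεd ⟨x, ⟨hxB, hxA⟩⟩
      show (h1 ⟨x, hxB⟩) ^ m * ((β ⟨x, hxB⟩) ^ (p : ℤ))⁻¹ =
        (h2 ⟨x, hxA⟩) ^ m * (α ⟨x, hxA⟩) ^ (p : ℤ)
      have e3 : (h1 ⟨x, hxB⟩ * (h2 ⟨x, hxA⟩)⁻¹) ^ m = (β ⟨x, hxB⟩ * α ⟨x, hxA⟩) ^ (p : ℤ) := by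
        rw [← e1, ← e2, ← zpow_mul, ← zpow_mul, mul_comm]
      rw [mul_zpow, mul_zpow, inv_zpow, mul_inv_eq_iff_eq_mul] at e3
      rw [mul_inv_eq_iff_eq_mul, e3, mul_assoc, mul_comm]
      congr 1
      rw [mul_comm])
    refine ⟨F, fun x => ?_⟩
    have key : h = (LiftAm_r p).comp F := by
      have hmz : ∀ y : Multiplicative ℤ, LiftAm_r p (y ^ m) = LiftAm_r p y := by
        intro y
        rw [LiftAm_r_apply, LiftAm_r_apply, toAdd_zpow, smul_eq_mul, Int.cast_mul, hm1, one_mul]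
      have hpz : ∀ y : Multiplicative ℤ, LiftAm_r p (y ^ (p : ℤ)) = 1 := by
        intro y
        rw [LiftAm_r_apply, toAdd_zpow, smul_eq_mul, Int.cast_mul, Int.cast_natCast,
          ZMod.natCast_self, zero_mul, ofAdd_zero]
      obtain ⟨F', -, huniq⟩ := huniv (Multiplicative (ZMod p))
        (h.comp (Subgroup.inclusion hBH)) (h.comp (Subgroup.inclusion hAH)) (fun x _ _ => rfl)
      rw [huniq h ⟨fun x _ _ => rfl, fun x _ _ => rfl⟩]
      symm
      apply huniq
      refine ⟨fun x hxB hxH => ?_, fun x hxA hxH => ?_⟩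
      · rw [MonoidHom.comp_apply, hF1 x hxB hxH, hh1, ← LiftAm_r_apply]
        show LiftAm_r p ((h1 ⟨x, hxB⟩) ^ m * ((β ⟨x, hxB⟩) ^ (p : ℤ))⁻¹) = _
        rw [map_mul, map_inv, hmz, hpz, inv_one, mul_one]
      · rw [MonoidHom.comp_apply, hF2 x hxA hxH, hh2, ← LiftAm_r_apply]
        show LiftAm_r p ((h2 ⟨x, hxA⟩) ^ m * (α ⟨x, hxA⟩) ^ (p : ℤ)) = _
        rw [map_mul, hmz, hpz, mul_one]
    have h3 := DFunLike.congr_fun key x
    exact h3
  · intro h
    have h1 : ∀ l : Fin t, ∃ b : PF.QZ, m • b = Multiplicative.toAdd (h ⟨c l, hcl l⟩) :=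
      fun l => LiftAm_div m hm0 _
    choose b hb using h1
    have h2 : ∀ l : Fin t, ∃ (β : B →* Multiplicative ℤ) (α : A →* Multiplicative ℤ), ∀ k,
        Multiplicative.toAdd (β ⟨c k, (hcl k).1⟩) + Multiplicative.toAdd (α ⟨c k, (hcl k).2⟩) =
          if l = k then m else 0 := by
      intro l
      obtain ⟨ε, hε⟩ := LiftAm_exists hc hci
        (fun k : Fin t => (Multiplicative.ofAdd (if l = k then 1 else 0) : Multiplicative ℤ))
      obtain ⟨β, α, hβα⟩ := hstar ε
      refine ⟨β, α, fun k => ?_⟩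
      have h3 := hβα (c k) (hcl k)
      rw [hε k (hcl k)] at h3
      have h4 := congrArg Multiplicative.toAdd h3
      rw [toAdd_zpow, toAdd_mul, toAdd_ofAdd] at h4
      rw [← h4]
      split_ifs <;> simp
    choose β α hβα using h2
    refine ⟨∏ l, (LiftAm_z (b l)).comp (β l), ∏ l, (LiftAm_z (b l)).comp (α l), ?_⟩
    have hfun : h = ((∏ l, (LiftAm_z (b l)).comp (β l)).comp (Subgroup.inclusion inf_le_left)) *
        ((∏ l, (LiftAm_z (b l)).comp (α l)).comp (Subgroup.inclusion inf_le_right)) := by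
      refine LiftAm_ext hc _ _ fun k hk => ?_
      show _ = (∏ l, (LiftAm_z (b l)).comp (β l)) ⟨c k, hk.1⟩ *
        (∏ l, (LiftAm_z (b l)).comp (α l)) ⟨c k, hk.2⟩
      rw [MonoidHom.finsetProd_apply, MonoidHom.finsetProd_apply, ← Finset.prod_mul_distrib]
      have h5 : ∀ l, ((LiftAm_z (b l)).comp (β l)) ⟨c k, hk.1⟩ *
          ((LiftAm_z (b l)).comp (α l)) ⟨c k, hk.2⟩ =
          Multiplicative.ofAdd ((if l = k then m else 0) • b l) := by
        intro l
        rw [MonoidHom.comp_apply, MonoidHom.comp_apply, LiftAm_z_apply, LiftAm_z_apply,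
          ← ofAdd_add, ← add_smul, hβα]
      rw [Finset.prod_congr rfl fun l _ => h5 l, Finset.prod_eq_single k]
      · rw [if_pos rfl, hb]
        rfl
      · intro l _ hl
        rw [if_neg hl, zero_smul, ofAdd_zero]
      · intro hk'
        exact absurd (Finset.mem_univ k) hk'
    intro x hx
    have h6 := DFunLike.congr_fun hfun ⟨x, hx⟩
    exact h6

end PAM
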