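import Pool.Agent.PAM.Defs

/-!
# PAM/LiftBase (module PAM-LiftBase): lifting homomorphisms to `Z/p` for large `p`

The abelianization of `B` is a finitely generated abelian group, a product of a free abelian group and a
finite group; for primes `p` which do not divide the order of the finite group every homomorphism to `Z/p` kills
the finite group and lifts to `Z`.
-/

set_option autoImplicit false

open PFC PAL

namespace PAM

private theorem LiftBase_add (A : Type) [AddCommGroup A] [Module.Finite ℤ A] :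
    ∃ p0 : ℕ, ∀ p : ℕ, p.Prime → p0 ≤ p → ∀ h : A →+ ZMod p, ∃ h' : A →+ ℤ,
      ∀ x, h x = ((h' x : ℤ) : ZMod p) := by
  have hfin : Finite (Submodule.torsion ℤ A) :=
    Module.finite_of_fg_torsion _ (Submodule.torsion_isTorsion)
  refine ⟨Nat.card (Submodule.torsion ℤ A) + 1, fun p hp hle h => ?_⟩
  have hker : ∀ t ∈ Submodule.torsion ℤ A, h t = 0 := by
    intro t ht
    have h1 : Nat.card (Submodule.torsion ℤ A) • (⟨t, ht⟩ : Submodule.torsion ℤ A) = 0 :=
      card_nsmul_eq_zero'
    have h2 : Nat.card (Submodule.torsion ℤ A) • t = 0 := by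
      have h3 := congrArg Subtype.val h1
      simpa using h3
    have h4 : Nat.card (Submodule.torsion ℤ A) • h t = 0 := by
      rw [← map_nsmul, h2, map_zero]
    have : Fact p.Prime := ⟨hp⟩
    rw [nsmul_eq_mul] at h4
    rcases mul_eq_zero.1 h4 with h5 | h5
    · exfalso
      rw [ZMod.natCast_eq_zero_iff] at h5
      have h6 := Nat.le_of_dvd Nat.card_pos h5
      omega
    · exact h5
  let φ : (A ⧸ Submodule.torsion ℤ A) →ₗ[ℤ] ZMod p :=
    (Submodule.torsion ℤ A).liftQ h.toIntLinearMap (by
      intro t ht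
      rw [LinearMap.mem_ker]
      exact hker t ht)
  have hfree : Module.Free ℤ (A ⧸ Submodule.torsion ℤ A) := inferInstance
  let b := Module.Free.chooseBasis ℤ (A ⧸ Submodule.torsion ℤ A)
  have : NeZero p := ⟨hp.ne_zero⟩
  let ψ : (A ⧸ Submodule.torsion ℤ A) →ₗ[ℤ] ℤ := b.constr ℤ fun i => ((φ (b i)).val : ℤ)
  have hψ : (Int.castAddHom (ZMod p)).toIntLinearMap ∘ₗ ψ = φ := by
    apply b.ext
    intro i
    simp [ψ]
  refine ⟨(ψ.toAddMonoidHom.comp (Submodule.torsion ℤ A).mkQ.toAddMonoidHom), fun x => ?_⟩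
  have h7 := LinearMap.congr_fun hψ ((Submodule.torsion ℤ A).mkQ x)
  have h8 : φ ((Submodule.torsion ℤ A).mkQ x) = h x := by
    simp [φ]
  rw [← h8, ← h7]
  rfl

theorem lift_base (B : Type) [Group B] [Group.FG B] :
    ∃ p0 : ℕ, ∀ p : ℕ, p.Prime → p0 ≤ p → LiftZ p B := by
  have : Group.FG (Abelianization B) := QuotientGroup.fg _
  have : Module.Finite ℤ (Additive (Abelianization B)) :=
    Module.Finite.iff_addGroup_fg.2 inferInstance
  obtain ⟨p0, hp0⟩ := LiftBase_add (Additive (Abelianization B))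
  refine ⟨p0, fun p hp hle h => ?_⟩
  let g : Additive (Abelianization B) →+ ZMod p :=
    MonoidHom.toAdditiveLeft (Abelianization.lift h)
  obtain ⟨g', hg'⟩ := hp0 p hp hle g
  refine ⟨(AddMonoidHom.toMultiplicativeRight g').comp Abelianization.of, fun x => ?_⟩
  have h1 := hg' (Additive.ofMul (Abelianization.of x))
  have h2 : g (Additive.ofMul (Abelianization.of x)) = Multiplicative.toAdd (h x) := by
    simp [g]
  rw [h2] at h1
  apply Multiplicative.toAdd.injective
  rw [h1]
  rfl

end PAM
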