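import Pool.Agent.PAM.Defs

/-!
# PAM/LiftHnn (module PAM-LiftHnn): lifting homomorphisms of an HNN extension

If `c ≠ 1` let `β : B → Z` be a lift of the homomorphism `h` of `ho` and `m = β(t c t⁻¹) - β(c)`, not divisible
by `p`.  Let `k : H → Z/p`; lift `k|B` to `k1 : B → Z`; `δ = k1(t c t⁻¹) - k1(c)` is divisible by `p`; `m k1 - δ β`
takes equal values at `c` and `t c t⁻¹`, so it extends to `H` (with any value at `t`, take `m` times a lift of
`k(t)`); modulo `p` this is `m k`; multiply by an inverse of `m` modulo `p`.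
-/

set_option autoImplicit false

open PFC PAL

namespace PAM

private def LiftHnn_red (p : ℕ) : Multiplicative ℤ →* Multiplicative (ZMod p) :=
  AddMonoidHom.toMultiplicative (Int.castAddHom (ZMod p))

private theorem LiftHnn_red_apply (p : ℕ) (z : Multiplicative ℤ) :
    LiftHnn_red p z = Multiplicative.ofAdd ((Multiplicative.toAdd z : ℤ) : ZMod p) := rfl

private theorem LiftHnn_ext {G : Type} [Group G] (p : ℕ) (H B : Subgroup G)
    (t c : G) (hH : IsHNN H B t c) (k : H →* Multiplicative (ZMod p))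
    (f : B →* Multiplicative ℤ) (m : ℤ)
    (hf : f ⟨c, hH.2.2.1⟩ = f ⟨t * c * t⁻¹, hH.2.2.2.1⟩)
    (hk : ∀ (x : G) (hB : x ∈ B), LiftHnn_red p (f ⟨x, hB⟩) = (k ⟨x, hH.1 hB⟩) ^ m) :
    ∃ F : H →* Multiplicative ℤ, ∀ x, LiftHnn_red p (F x) = (k x) ^ m := by
  obtain ⟨τ, hτ⟩ := ZMod.intCast_surjective (Multiplicative.toAdd (k ⟨t, hH.2.1⟩))
  obtain ⟨F, ⟨hF1, hF2⟩, _⟩ := hH.2.2.2.2 (Multiplicative ℤ) f (Multiplicative.ofAdd (m * τ))
    (by
      intro h h'
      rw [mul_comm (Multiplicative.ofAdd (m * τ)), mul_assoc, mul_inv_cancel, mul_one]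
      exact hf)
  have hu := hH.2.2.2.2 (Multiplicative (ZMod p)) ((LiftHnn_red p).comp f)
    ((k ⟨t, hH.2.1⟩) ^ m)
    (by
      intro h h'
      rw [mul_comm ((k ⟨t, hH.2.1⟩) ^ m), mul_assoc, mul_inv_cancel, mul_one]
      exact congrArg (LiftHnn_red p) hf)
  have h1 : (LiftHnn_red p).comp F = (zpowGroupHom m).comp k := by
    refine hu.unique ⟨?_, ?_⟩ ⟨?_, ?_⟩
    · intro x hB hx
      rw [MonoidHom.comp_apply, MonoidHom.comp_apply, hF1 x hB hx]
    · intro h
      rw [MonoidHom.comp_apply, hF2 h, LiftHnn_red_apply]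
      apply Multiplicative.toAdd.injective
      rw [toAdd_ofAdd, toAdd_ofAdd, toAdd_zpow, ← hτ, zsmul_eq_mul]
      push_cast
      ring
    · intro x hB hx
      rw [MonoidHom.comp_apply, MonoidHom.comp_apply, hk x hB]
      rfl
    · intro h
      rfl
  refine ⟨F, fun x => ?_⟩
  have h2 := DFunLike.congr_fun h1 x
  exact h2

theorem lift_hnn {G : Type} [Group G] (p : ℕ) [Fact p.Prime] (H B : Subgroup G) (t c : G)
    (hH : IsHNN H B t c) (hB : LiftZ p B)
    (ho : c = 1 ∨ ∃ h : B →* Multiplicative (ZMod p),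
      h ⟨t * c * t⁻¹, hH.2.2.2.1⟩ ≠ h ⟨c, hH.2.2.1⟩) :
    LiftZ p H ∧ (c = 1 ∨ ∃ h : B →* Multiplicative ℤ,
      h ⟨t * c * t⁻¹, hH.2.2.2.1⟩ ≠ h ⟨c, hH.2.2.1⟩) := by
  rcases ho with ho | ⟨h, hh⟩
  · refine ⟨?_, Or.inl ho⟩
    intro k
    obtain ⟨k1, hk1⟩ := hB (k.comp (Subgroup.inclusion hH.1))
    have hb0 : (⟨c, hH.2.2.1⟩ : B) = 1 := Subtype.ext ho
    have hb1 : (⟨t * c * t⁻¹, hH.2.2.2.1⟩ : B) = 1 := by
      apply Subtype.ext
      change t * c * t⁻¹ = 1
      rw [ho, mul_one, mul_inv_cancel]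
    obtain ⟨F, hF⟩ := LiftHnn_ext p H B t c hH k k1 1 (by rw [hb0, hb1]) (by
      intro x hx
      rw [LiftHnn_red_apply, ← hk1 ⟨x, hx⟩, zpow_one]
      rfl)
    refine ⟨F, fun x => ?_⟩
    have h2 := hF x
    rw [zpow_one] at h2
    exact h2.symm
  · obtain ⟨β, hβ⟩ := hB h
    set b1 : B := ⟨t * c * t⁻¹, hH.2.2.2.1⟩ with hb1
    set b0 : B := ⟨c, hH.2.2.1⟩ with hb0
    set m : ℤ := Multiplicative.toAdd (β b1) - Multiplicative.toAdd (β b0) with hm
    have hmp : (m : ZMod p) ≠ 0 := by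
      intro h0
      apply hh
      rw [hβ b1, hβ b0]
      have h3 : ((Multiplicative.toAdd (β b1) : ℤ) : ZMod p) =
          ((Multiplicative.toAdd (β b0) : ℤ) : ZMod p) := by
        rw [hm] at h0
        push_cast at h0
        exact sub_eq_zero.mp h0
      rw [h3]
    refine ⟨?_, Or.inr ⟨β, ?_⟩⟩
    · intro k
      obtain ⟨k1, hk1⟩ := hB (k.comp (Subgroup.inclusion hH.1))
      set δ : ℤ := Multiplicative.toAdd (k1 b1) - Multiplicative.toAdd (k1 b0) with hδ
      have hδp : (δ : ZMod p) = 0 := by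
        have e1 : k ⟨t * c * t⁻¹, hH.1 hH.2.2.2.1⟩ = k ⟨c, hH.1 hH.2.2.1⟩ := by
          have e2 : (⟨t * c * t⁻¹, hH.1 hH.2.2.2.1⟩ : H) =
              ⟨t, hH.2.1⟩ * ⟨c, hH.1 hH.2.2.1⟩ * (⟨t, hH.2.1⟩ : H)⁻¹ := rfl
          rw [e2, map_mul, map_mul, map_inv, mul_comm (k ⟨t, hH.2.1⟩), mul_assoc, mul_inv_cancel,
            mul_one]
        have e3 := hk1 b1
        have e4 := hk1 b0
        have e5 : (k.comp (Subgroup.inclusion hH.1)) b1 =
            (k.comp (Subgroup.inclusion hH.1)) b0 := e1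
        rw [e3, e4] at e5
        have e6 := Multiplicative.ofAdd.injective e5
        rw [hδ]
        push_cast
        exact sub_eq_zero.mpr e6
      have hf : ((zpowGroupHom m).comp k1 * (zpowGroupHom (-δ)).comp β) b0 =
          ((zpowGroupHom m).comp k1 * (zpowGroupHom (-δ)).comp β) b1 := by
        apply Multiplicative.toAdd.injective
        simp only [MonoidHom.mul_apply, MonoidHom.comp_apply, zpowGroupHom_apply, toAdd_mul,
          toAdd_zpow, smul_eq_mul]
        have e7 : Multiplicative.toAdd (k1 b1) = δ + Multiplicative.toAdd (k1 b0) := by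
          rw [hδ]
          ring
        have e8 : Multiplicative.toAdd (β b1) = m + Multiplicative.toAdd (β b0) := by
          rw [hm]
          ring
        rw [e7, e8]
        ring
      obtain ⟨F, hF⟩ := LiftHnn_ext p H B t c hH k
        ((zpowGroupHom m).comp k1 * (zpowGroupHom (-δ)).comp β) m hf (by
          intro x hx
          have e9 := hk1 ⟨x, hx⟩
          have e10 : (k.comp (Subgroup.inclusion hH.1)) ⟨x, hx⟩ = k ⟨x, hH.1 hx⟩ := rfl
          rw [e10] at e9
          rw [LiftHnn_red_apply, e9]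
          apply Multiplicative.toAdd.injective
          simp only [MonoidHom.mul_apply, MonoidHom.comp_apply, zpowGroupHom_apply, toAdd_mul,
            toAdd_zpow, smul_eq_mul, toAdd_ofAdd, zsmul_eq_mul]
          push_cast
          rw [hδp]
          ring)
      obtain ⟨n, hn⟩ := ZMod.intCast_surjective ((m : ZMod p)⁻¹)
      refine ⟨(zpowGroupHom n).comp F, fun x => ?_⟩
      have e11 := hF x
      rw [LiftHnn_red_apply] at e11
      apply Multiplicative.toAdd.injective
      have e12 := congrArg Multiplicative.toAdd e11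
      rw [toAdd_ofAdd, toAdd_zpow, zsmul_eq_mul] at e12
      simp only [MonoidHom.comp_apply, zpowGroupHom_apply, toAdd_zpow, smul_eq_mul, toAdd_ofAdd]
      push_cast
      rw [e12, hn, ← mul_assoc, inv_mul_cancel₀ hmp, one_mul]
    · intro h0
      apply hmp
      rw [hm, h0, sub_self]
      simp

end PAM
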