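import Pool.Agent.PAM.Defs
import Pool.Agent.PAL.FLvl
import Pool.Agent.PAL.Prime

/-!
# PAM/Rank (module PAM-Rank): the number of independent relation rows of `G`

The proof of `PAL.rank_le` (`PAL/Rank.lean`, proved there for the structure `Pres`) uses only the fields
`gen`, `rel` and `inj`.
-/

set_option autoImplicit false

open PFC PAL

namespace PAM

/-- the finite level -/
private theorem Rank_fin {G ρ N : Type} [Group G] [Fintype ρ] [Fintype N] {r : ℕ} (x : Fin r → G)
    (hx : PRT.Para x) (p : ℕ) [Fact p.Prime] (z : N → G) (X : ρ → N → GR G)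
    (hP : PD (⊤ : Subgroup G) z X) (ι : Fin r → N) (hι : Function.Injective ι)
    (hg : PG p fun i => z (ι i))
    (Q : Type) [Group Q] [Finite Q] (hQ : IsPGroup p Q) (θ : G →* Q) (v : ρ → GR Q)
    (h : ∀ j : {ν : N // ν ∉ Set.range ι}, ∑ l, v l * mp θ (X l j.1) = 0) (j : N) :
    ∑ l, v l * mp θ (X l j) = 0 := by
  classical
  let u : N → GR Q := fun ν => ∑ l, v l * mp θ (X l ν)
  have hu : ∀ ν, ν ∉ Set.range ι → u ν = 0 := fun ν hν => h ⟨ν, hν⟩
  have h1 : (fun i => u (ι i)) = 0 := by
    refine flvl x hx p hQ θ (fun i => z (ι i)) ⟨fun i => z (ι i), id, Function.injective_id,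
      fun _ => rfl, hg⟩ (fun i => u (ι i)) ?_
    intro M _ _ D hD
    have h2 : ∀ l, ∑ ν, mp θ (X l ν) • D (z ν) = 0 := fun l => der_rel' θ D hD z (X l) (hP.rel l)
    have h3 : ∑ ν, u ν • D (z ν) = 0 := by
      have h4 : ∀ ν, u ν • D (z ν) = ∑ l, v l • (mp θ (X l ν) • D (z ν)) := by
        intro ν
        show (∑ l, v l * mp θ (X l ν)) • D (z ν) = _
        rw [Finset.sum_smul]
        exact Finset.sum_congr rfl fun l _ => mul_smul _ _ _
      rw [Finset.sum_congr rfl fun ν _ => h4 ν, Finset.sum_comm]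
      refine Finset.sum_eq_zero fun l _ => ?_
      rw [← Finset.smul_sum, h2 l, smul_zero]
    rw [← h3]
    refine Fintype.sum_of_injective ι hι _ _ (fun ν hν => ?_) fun i => rfl
    show u ν • D (z ν) = 0
    rw [hu ν hν, zero_smul]
  by_cases hj : j ∈ Set.range ι
  · obtain ⟨i, rfl⟩ := hj
    exact congrFun h1 i
  · exact hu j hj

theorem pd_rank {G : Type} [Group G] {r : ℕ} (x : Fin r → G) (hx : PRT.Para x) (p : ℕ)
    [Fact p.Prime] (hres : ResQ p G) {N ρ : ℕ} (h : HasPD (⊤ : Subgroup G) N ρ) :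
    ρ + r ≤ N := by
  classical
  obtain ⟨z, X, hP⟩ := h
  obtain ⟨ι, hι, hg⟩ := exists_sub x hx p z hP.gen
  have hr : r ≤ Fintype.card (Fin N) := by
    have h := Fintype.card_le_of_injective ι hι
    rwa [Fintype.card_fin] at h
  have hc : Fintype.card {ν : Fin N // ν ∉ Set.range ι} = Fintype.card (Fin N) - r := by
    have h1 : Fintype.card {ν : Fin N // ν ∈ Set.range ι} = r := by
      have h2 := Set.card_range_of_injective hι
      rw [Fintype.card_fin] at h2
      refine Eq.trans ?_ h2
      exact Fintype.card_congr (Equiv.refl _)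
    rw [Fintype.card_subtype_compl, h1]
  have hle : Fintype.card (Fin ρ) ≤ Fintype.card {ν : Fin N // ν ∉ Set.range ι} := by
    by_contra hlt
    rw [not_le] at hlt
    obtain ⟨v, hv, hs, h0⟩ := exists_kernel p hres
      (fun (l : Fin ρ) (j : {ν : Fin N // ν ∉ Set.range ι}) => X l j.1) hlt
    have h1 := transfer p hres
      (fun (l : Fin ρ) (j : {ν : Fin N // ν ∉ Set.range ι}) => X l j.1) X
      (fun Q _ _ hQ θ v h => Rank_fin x hx p z X hP ι hι hg Q hQ θ v h) v hs h0
    exact hv (hP.inj v hs h1)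
  rw [Fintype.card_fin] at hr hc hle
  omega

/-- the number of homomorphisms from `G` to `Z/p` (`Para x` with `W = Multiplicative (ZMod p)`) -/
theorem hp_top {G : Type} [Group G] {r : ℕ} (x : Fin r → G) (hx : PRT.Para x) (p : ℕ)
    [Fact p.Prime] : hp p (⊤ : Subgroup G) = p ^ r := by
  have hn : Group.IsNilpotent (Multiplicative (ZMod p)) := CommGroup.isNilpotent
  have hbij : Function.Bijective (fun h : (⊤ : Subgroup G) →* Multiplicative (ZMod p) =>
      fun i : Fin r => h ⟨x i, Subgroup.mem_top _⟩) := by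
    constructor
    · intro f g hfg
      obtain ⟨k, -, hu⟩ := hx (Multiplicative (ZMod p)) hn
        (fun i => f ⟨x i, Subgroup.mem_top _⟩)
      have h1 : f.comp (Subgroup.topEquiv (G := G)).symm.toMonoidHom = k := hu _ fun i => rfl
      have h2 : g.comp (Subgroup.topEquiv (G := G)).symm.toMonoidHom = k :=
        hu _ fun i => (congrFun hfg i).symm
      ext ⟨y, hy⟩
      have h3 := DFunLike.congr_fun (h1.trans h2.symm) y
      exact congrArg Multiplicative.toAdd h3
    · intro w
      obtain ⟨k, hk, -⟩ := hx (Multiplicative (ZMod p)) hn w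
      refine ⟨k.comp (⊤ : Subgroup G).subtype, ?_⟩
      funext i
      exact hk i
  show Nat.card ((⊤ : Subgroup G) →* Multiplicative (ZMod p)) = p ^ r
  rw [Nat.card_congr (Equiv.ofBijective _ hbij), Nat.card_fun, Nat.card_fin]
  have h4 : Nat.card (Multiplicative (ZMod p)) = p := Nat.card_zmod p
  rw [h4]

end PAM
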