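import Pool.Agent.PAM.Base
import Pool.Agent.PAM.Amalg
import Pool.Agent.PAM.Cyc
import Pool.Agent.PAM.GHnnA
import Pool.Agent.PAM.GHnnC
import Pool.Agent.PAM.Rank
import Pool.Agent.PAM.CountAm
import Pool.Agent.PAM.GCount
import Pool.Agent.PAM.LiftAm
import Pool.Agent.PAM.GLift
import Pool.Agent.PAM.CocAm
import Pool.Agent.PAM.GCoc
import Pool.Agent.PAM.CdAm
import Pool.Agent.PAM.GCd
import Pool.Agent.PAM.LiftBase
import Pool.Agent.PAM.CocBase
import Pool.Agent.PAL.ResP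
import Pool.Agent.PFC.HTr
import Pool.Agent.PRT.ParaEx
import Pool.Agent.PF.CohZero

/-!
# PAM/Main: the closure theorem
-/

set_option autoImplicit false

open PFC PAL CategoryTheory

namespace PAM

/-- the class of subgroups built from finitely generated subgroups with the property `P` -/
inductive Cls {G : Type} [Group G] (P : Subgroup G → Prop) : Subgroup G → Prop
  | base (B : Subgroup G) (hfg : B.FG) (hP : P B) : Cls P B
  | amalg (H B A' A : Subgroup G) (hB : Cls P B) (hA' : Cls P A') (hA : HomInj A)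
      (hC : B ⊓ A = B ⊓ A') (hH : IsAmalgam H B A') : Cls P H
  | cyc (H B A' : Subgroup G) (hB : Cls P B) (hA' : Cls P A')
      (hC : IsCyclic (B ⊓ A' : Subgroup G)) (hH : IsAmalgam H B A') : Cls P H
  | hnn (H B A : Subgroup G) (t : G) (hB : Cls P B) (hA : HomInj A) (hCA : assoc B t ≤ A)
      (hAB : A ≤ B) (hH : IsHNNG H B t) : Cls P H
  | hnnCyc (H B : Subgroup G) (t : G) (hB : Cls P B) (hC : IsCyclic (assoc B t))
      (hH : IsHNNG H B t) : Cls P H

/-- the statement proved by induction -/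
def Sp (p : ℕ) {G : Type} [Group G] (H : Subgroup G) : Prop :=
  H.FG ∧ ∃ N ρ : ℕ, HasPD H N ρ ∧ p ^ N ≤ hp p H * p ^ ρ ∧
    (hp p H * p ^ ρ ≤ p ^ N → LiftZ p H ∧ H2z H)

theorem sp_amalg {G : Type} [Group G] (p : ℕ) [Fact p.Prime] (H B A' : Subgroup G)
    (hB : Sp p B) (hA' : Sp p A') (hH : IsAmalgam H B A')
    (hpd : ∀ N ρ N' ρ' : ℕ, HasPD B N ρ → HasPD A' N' ρ' →
      ∃ (t : ℕ) (c : Fin t → G), Subgroup.closure (Set.range c) = B ⊓ A' ∧
        Function.Injective (FreeGroup.lift c) ∧ HasPD H (N + N') (ρ + t + ρ')) : Sp p H := by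
  obtain ⟨hfB, N, ρ, h1, h2, h3⟩ := hB
  obtain ⟨hfA, N', ρ', h4, h5, h6⟩ := hA'
  obtain ⟨t, c, hc, hci, h7⟩ := hpd N ρ N' ρ' h1 h4
  have hsup := amalgam_sup H B A' hH
  obtain ⟨h8, h9⟩ := count_amalg p H B A' hH hfB hfA t c hc hci
  have hppos : 0 < p := (Fact.out : p.Prime).pos
  refine ⟨?_, N + N', ρ + t + ρ', h7, ?_, ?_⟩
  · rw [← hsup]
    exact hfB.sup hfA
  · calc p ^ (N + N') = p ^ N * p ^ N' := pow_add _ _ _
      _ ≤ (hp p B * p ^ ρ) * (hp p A' * p ^ ρ') := Nat.mul_le_mul h2 h5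
      _ = (hp p B * hp p A') * (p ^ ρ * p ^ ρ') := by ring
      _ ≤ (hp p H * p ^ t) * (p ^ ρ * p ^ ρ') := Nat.mul_le_mul_right _ h8
      _ = hp p H * p ^ (ρ + t + ρ') := by rw [pow_add, pow_add]; ring
  · intro h10
    have hq1 : 0 < p ^ ρ := pow_pos hppos _
    have hq2 : 0 < p ^ ρ' := pow_pos hppos _
    have hq3 : 0 < p ^ N := pow_pos hppos _
    have hq4 : 0 < p ^ N' := pow_pos hppos _
    have h11 : (hp p H * p ^ t) * (p ^ ρ * p ^ ρ') ≤ p ^ N * p ^ N' := by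
      calc (hp p H * p ^ t) * (p ^ ρ * p ^ ρ') = hp p H * p ^ (ρ + t + ρ') := by
            rw [pow_add, pow_add]; ring
        _ ≤ p ^ (N + N') := h10
        _ = p ^ N * p ^ N' := pow_add _ _ _
    have h12 : (hp p B * p ^ ρ) * (hp p A' * p ^ ρ') ≤ p ^ N * p ^ N' := by
      calc (hp p B * p ^ ρ) * (hp p A' * p ^ ρ') = (hp p B * hp p A') * (p ^ ρ * p ^ ρ') := by
            ring
        _ ≤ (hp p H * p ^ t) * (p ^ ρ * p ^ ρ') := Nat.mul_le_mul_right _ h8
        _ ≤ p ^ N * p ^ N' := h11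
    have h13 : hp p B * p ^ ρ ≤ p ^ N := by
      by_contra hcon
      push Not at hcon
      have h14 : p ^ N * p ^ N' < (hp p B * p ^ ρ) * (hp p A' * p ^ ρ') :=
        Nat.mul_lt_mul_of_lt_of_le hcon h5 (lt_of_lt_of_le hq4 h5)
      omega
    have h14 : hp p A' * p ^ ρ' ≤ p ^ N' := by
      by_contra hcon
      push Not at hcon
      have h15 : p ^ N * p ^ N' < (hp p B * p ^ ρ) * (hp p A' * p ^ ρ') :=
        Nat.mul_lt_mul_of_le_of_lt h2 hcon (lt_of_lt_of_le hq3 h2)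
      omega
    have h15 : hp p H * p ^ t ≤ hp p B * hp p A' := by
      have h16 : (hp p H * p ^ t) * (p ^ ρ * p ^ ρ') ≤ (hp p B * hp p A') * (p ^ ρ * p ^ ρ') := by
        calc (hp p H * p ^ t) * (p ^ ρ * p ^ ρ') ≤ p ^ N * p ^ N' := h11
          _ ≤ (hp p B * p ^ ρ) * (hp p A' * p ^ ρ') := Nat.mul_le_mul h2 h5
          _ = (hp p B * hp p A') * (p ^ ρ * p ^ ρ') := by ring
      exact Nat.le_of_mul_le_mul_right h16 (Nat.mul_pos hq1 hq2)
    obtain ⟨h16, h17⟩ := h3 h13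
    obtain ⟨h18, h19⟩ := h6 h14
    obtain ⟨h20, h21⟩ := lift_amalg p H B A' hH t c hc hci h16 h18 (h9 h15)
    exact ⟨h20, coc_amalg H B A' hH h17 h19 h21⟩

theorem sp_hnn {G : Type} [Group G] (p : ℕ) [Fact p.Prime] (H B : Subgroup G) (t : G)
    (hB : Sp p B) (hH : IsHNNG H B t)
    (hpd : ∀ N ρ : ℕ, HasPD B N ρ →
      ∃ (m : ℕ) (c : Fin m → G), Subgroup.closure (Set.range c) = assoc B t ∧
        Function.Injective (FreeGroup.lift c) ∧ HasPD H (N + 1) (ρ + m)) : Sp p H := by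
  obtain ⟨hfB, N, ρ, h1, h2, h3⟩ := hB
  obtain ⟨m, c, hc, hci, h7⟩ := hpd N ρ h1
  obtain ⟨h8, h9⟩ := count_hnnG p H B t hH hfB m c hc hci
  have hppos : 0 < p := (Fact.out : p.Prime).pos
  have hq1 : 0 < p ^ ρ := pow_pos hppos _
  refine ⟨?_, N + 1, ρ + m, h7, ?_, ?_⟩
  · obtain ⟨z, X, h10⟩ := h7
    rw [← h10.gen]
    exact (Subgroup.fg_iff _).2 ⟨Set.range z, rfl, Set.finite_range z⟩
  · calc p ^ (N + 1) = p ^ N * p := pow_succ _ _
      _ ≤ (hp p B * p ^ ρ) * p := Nat.mul_le_mul_right _ h2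
      _ = (hp p B * p) * p ^ ρ := by ring
      _ ≤ (hp p H * p ^ m) * p ^ ρ := Nat.mul_le_mul_right _ h8
      _ = hp p H * p ^ (ρ + m) := by rw [pow_add]; ring
  · intro h10
    have h11 : (hp p H * p ^ m) * p ^ ρ ≤ p ^ N * p := by
      calc (hp p H * p ^ m) * p ^ ρ = hp p H * p ^ (ρ + m) := by rw [pow_add]; ring
        _ ≤ p ^ (N + 1) := h10
        _ = p ^ N * p := pow_succ _ _
    have h13 : hp p B * p ^ ρ ≤ p ^ N := by
      have h14 : (hp p B * p ^ ρ) * p ≤ p ^ N * p := by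
        calc (hp p B * p ^ ρ) * p = (hp p B * p) * p ^ ρ := by ring
          _ ≤ (hp p H * p ^ m) * p ^ ρ := Nat.mul_le_mul_right _ h8
          _ ≤ p ^ N * p := h11
      exact Nat.le_of_mul_le_mul_right h14 hppos
    have h15 : hp p H * p ^ m ≤ hp p B * p := by
      have h16 : (hp p H * p ^ m) * p ^ ρ ≤ (hp p B * p) * p ^ ρ := by
        calc (hp p H * p ^ m) * p ^ ρ ≤ p ^ N * p := h11
          _ ≤ (hp p B * p ^ ρ) * p := Nat.mul_le_mul_right _ h2
          _ = (hp p B * p) * p ^ ρ := by ring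
      exact Nat.le_of_mul_le_mul_right h16 hq1
    obtain ⟨h16, h17⟩ := h3 h13
    obtain ⟨h20, h21⟩ := lift_hnnG p H B t hH m c hc hci h16 (h9 h15)
    exact ⟨h20, coc_hnnG H B t hH h17 h21⟩

theorem cls_sp {G : Type} [Group G] {r : ℕ} (x : Fin r → G) (hx : PRT.Para x)
    (hres : ∀ p : ℕ, p.Prime → ResQ p G) (P : Subgroup G → Prop)
    (hP : ∀ B : Subgroup G, P B → Limits.IsZero (groupHomology (Rep.trivial ℤ B ℤ) 2))
    (H : Subgroup G) (hH : Cls P H) : ∃ p0 : ℕ, ∀ p : ℕ, p.Prime → p0 ≤ p → Sp p H := by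
  induction hH with
  | base B hfg hPB =>
    have : Group.FG B := (Group.fg_iff_subgroup_fg B).2 hfg
    obtain ⟨p0, hp0⟩ := lift_base B
    refine ⟨p0, fun p hp hle => ?_⟩
    have : Fact p.Prime := ⟨hp⟩
    obtain ⟨N, ρ, h1, h2⟩ := pd_base p (hres p hp) B hfg
    exact ⟨hfg, N, ρ, h1, h2.ge, fun _ => ⟨hp0 p hp hle, coc_of_h2 B (hP B hPB)⟩⟩
  | amalg H B A' A _ _ hA hC hH ih ih' =>
    obtain ⟨p1, h1⟩ := ih
    obtain ⟨p2, h2⟩ := ih'
    refine ⟨max p1 p2, fun p hp hle => ?_⟩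
    have : Fact p.Prime := ⟨hp⟩
    refine sp_amalg p H B A' (h1 p hp (le_of_max_le_left hle))
      (h2 p hp (le_of_max_le_right hle)) hH fun N ρ N' ρ' h3 h4 => ?_
    exact pd_amalg x hx hres H B A' A h3 h4 hA hC (amalgam_sup H B A' hH)
  | cyc H B A' _ _ hC hH ih ih' =>
    obtain ⟨p1, h1⟩ := ih
    obtain ⟨p2, h2⟩ := ih'
    refine ⟨max p1 p2, fun p hp hle => ?_⟩
    have : Fact p.Prime := ⟨hp⟩
    refine sp_amalg p H B A' (h1 p hp (le_of_max_le_left hle))
      (h2 p hp (le_of_max_le_right hle)) hH fun N ρ N' ρ' h3 h4 => ?_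
    exact pd_cyc hres H B A' h3 h4 hC (amalgam_sup H B A' hH)
  | hnn H B A t _ hA hCA hAB hH ih =>
    obtain ⟨p1, h1⟩ := ih
    refine ⟨p1, fun p hp hle => ?_⟩
    have : Fact p.Prime := ⟨hp⟩
    exact sp_hnn p H B t (h1 p hp hle) hH fun N ρ h3 =>
      pd_hnnA x hx hres H B A t h3 hA hCA hAB hH
  | hnnCyc H B t _ hC hH ih =>
    obtain ⟨p1, h1⟩ := ih
    refine ⟨p1, fun p hp hle => ?_⟩
    have : Fact p.Prime := ⟨hp⟩
    exact sp_hnn p H B t (h1 p hp hle) hH fun N ρ h3 => pd_hnnC hres H B t h3 hC hH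

theorem free_of_cyclic {G : Type} [Group G] (hres : ∀ p : ℕ, p.Prime → ResQ p G)
    (C : Subgroup G) (hC : IsCyclic C) : IsFreeGroup C := by
  obtain ⟨c, hc⟩ := hC
  by_cases hc1 : c = 1
  · have h3 : ∀ y : C, y = 1 := by
      intro y
      obtain ⟨k, hk⟩ := hc y
      rw [← hk, hc1]
      simp
    have h4 : Subsingleton C := ⟨fun a b => by rw [h3 a, h3 b]⟩
    have h5 : FreeGroup Empty ≃* C :=
      { toFun := fun _ => 1
        invFun := fun _ => 1
        left_inv := fun a => Subsingleton.elim _ _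
        right_inv := fun a => Subsingleton.elim _ _
        map_mul' := fun a b => by simp }
    exact IsFreeGroup.ofMulEquiv h5
  · have h6 : Function.Injective (FreeGroup.lift (fun _ : Unit => c)) := by
      rw [injective_iff_map_eq_one]
      intro w hw
      obtain ⟨n, rfl⟩ : ∃ n : ℤ, w = FreeGroup.of () ^ n :=
        ⟨FreeGroup.freeGroupUnitEquivInt w, by
          exact (FreeGroup.freeGroupUnitEquivInt.symm_apply_apply w).symm⟩
      rw [map_zpow, FreeGroup.lift_apply_of] at hw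
      by_contra hn
      have hn0 : n ≠ 0 := by
        rintro rfl
        exact hn (zpow_zero _)
      refine pow_ne_one hres (c : G) (fun h => hc1 (Subtype.ext h)) n hn0 ?_
      have := congrArg Subtype.val hw
      simpa using this
    have h7 : Function.Surjective (FreeGroup.lift (fun _ : Unit => c)) := by
      intro y
      obtain ⟨k, hk⟩ := hc y
      refine ⟨FreeGroup.of () ^ k, ?_⟩
      rw [map_zpow, FreeGroup.lift_apply_of]
      exact hk
    exact IsFreeGroup.ofMulEquiv (MulEquiv.ofBijective _ ⟨h6, h7⟩)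

theorem free_of_le {G : Type} [Group G] (C A : Subgroup G) (hCA : C ≤ A) (hA : IsFreeGroup A) :
    IsFreeGroup C := by
  have h2 : IsFreeGroup (C.subgroupOf A) := subgroupIsFreeOfIsFree _
  exact IsFreeGroup.ofMulEquiv (Subgroup.subgroupOfEquivOfLe hCA)

theorem cls_cd {G : Type} [Group G] (hres : ∀ p : ℕ, p.Prime → ResQ p G)
    (P : Subgroup G → Prop) (hP : ∀ B : Subgroup G, P B → PdLT B (Tr B) 3) (H : Subgroup G)
    (hH : Cls P H) : PdLT G (LK H) 2 := by
  induction hH with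
  | base B hfg hPB => exact pd_LK B 2 (by norm_num) (hP B hPB)
  | amalg H B A' A _ _ hA hC hH ih ih' =>
    refine cd_amalg H B A' hH ?_ ih ih'
    rw [← hC]
    exact free_of_le _ A inf_le_right hA.1
  | cyc H B A' _ _ hC hH ih ih' => exact cd_amalg H B A' hH (free_of_cyclic hres _ hC) ih ih'
  | hnn H B A t _ hA hCA hAB hH ih => exact cd_hnnG H B t hH (free_of_le _ A hCA hA.1) ih
  | hnnCyc H B t _ hC hH ih => exact cd_hnnG H B t hH (free_of_cyclic hres _ hC) ih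

theorem LK_top (G : Type) [Group G] : LK (⊤ : Subgroup G) = augId G := by
  refine le_antisymm (LK_le _) ?_
  intro x hx
  have h1 : lin (fun g : G => (el g - 1 : GR G)) x = x := by
    have h2 : lin (fun g : G => (el g - 1 : GR G)) x =
        lin (fun g : G => (el g : GR G)) x - lin (fun _ : G => (1 : GR G)) x := lin_sub _ _ _
    have h3 : lin (fun g : G => (el g : GR G)) x = x :=
      add_ext (lin fun g : G => (el g : GR G)) (AddMonoidHom.id _) (fun g => by
        rw [PAL.lin_el]; rfl) x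
    have h4 : lin (fun _ : G => (1 : GR G)) x = (eps G x : GR G) :=
      add_ext (lin fun _ : G => (1 : GR G))
        ((Int.castRingHom (GR G)).toAddMonoidHom.comp (eps G).toAddMonoidHom) (fun g => by
        rw [PAL.lin_el]
        show (1 : GR G) = ((eps G (el g) : ℤ) : GR G)
        rw [eps_el, Int.cast_one]) x
    rw [h2, h3, h4, show eps G x = 0 from hx, Int.cast_zero, sub_zero]
  rw [← h1, lin_eq_sum _ x _ (Finset.Subset.refl _)]
  refine Submodule.sum_mem _ fun g _ => ?_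
  have h5 : (el g - 1 : GR G) ∈ LK (⊤ : Subgroup G) :=
    Submodule.subset_span ⟨g, Subgroup.mem_top g, rfl⟩
  exact zsmul_mem h5 _

theorem h2z_top (G : Type) [Group G] (h : H2z (⊤ : Subgroup G)) : H2z G := by
  intro f hf
  obtain ⟨b, hb⟩ := h (fun x y => f x y) fun g h j => hf g h j
  exact ⟨fun g => b ⟨g, Subgroup.mem_top g⟩, fun g h =>
    hb ⟨g, Subgroup.mem_top g⟩ ⟨h, Subgroup.mem_top h⟩⟩

theorem main (G : Type) [Group G] [Group.FG G] (hG : PF.IsParafree G) (P : Subgroup G → Prop)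
    (h : Cls P (⊤ : Subgroup G)) :
    ((∀ B : Subgroup G, P B → Limits.IsZero (groupHomology (Rep.trivial ℤ B ℤ) 2)) →
      Limits.IsZero (groupHomology (Rep.trivial ℤ G ℤ) 2)) ∧
    ((∀ B : Subgroup G, P B → PdLT B (Tr B) 3) → PdLT G (Tr G) 3) := by
  classical
  obtain ⟨r, x, hx⟩ := PRT.exists_para G hG
  have hres : ∀ p : ℕ, p.Prime → ResQ p G := fun p hp => by
    have : Fact p.Prime := ⟨hp⟩
    exact resQ_parafree G hG.1 x hx p
  refine ⟨fun hP => ?_, fun hP => ?_⟩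
  · obtain ⟨p0, h1⟩ := cls_sp x hx hres P hP ⊤ h
    obtain ⟨p, hle, hp⟩ := Nat.exists_infinite_primes p0
    have : Fact p.Prime := ⟨hp⟩
    obtain ⟨-, N, ρ, h2, -, h3⟩ := h1 p hp hle
    have h4 := pd_rank x hx p (hres p hp) h2
    have h6 : H2z (⊤ : Subgroup G) := by
      refine (h3 ?_).2
      rw [show PAM.hp p (⊤ : Subgroup G) = p ^ r from hp_top x hx p, ← pow_add]
      exact Nat.pow_le_pow_right hp.pos (by omega)
    exact PF.isZero_H2 G (h2z_top G h6)
  · have h1 := cls_cd hres P hP ⊤ h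
    refine pd_tr G 2 ?_
    rw [LK_top] at h1
    exact h1

end PAM
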